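import Mathlib

/-!
# SVR/Comb5: the combinatorics of five vertices

`R x y` and `F x y` are relations on a set with at most five elements.  A search tree with 1685 nodes, given by the list of the
conditions which are used, is checked by the kernel.  Bit `5 x + y` is the fact `F x y`, bit `25 + 5 x + y` is `R x y`.
-/

set_option autoImplicit false

namespace Pool.Agent.SVR

namespace C5

/-- the fact `F x y` -/
def fb (x y : ℕ) : ℕ := 2 ^ (5 * x + y)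

/-- the fact `R x y` -/
def rb (x y : ℕ) : ℕ := 2 ^ (25 + (5 * x + y))

/-- the conclusions of the condition number `c` -/
def opts (c : ℕ) : List ℕ :=
  if c < 25 then
    (List.range 5).flatMap fun z => (List.range 5).map fun k => fb z (c % 5) ||| (fb (c / 5) k ||| rb z k)
  else
    ((List.range 5).filter fun z => z != (c % 25) / 5).map fun z => fb z (c % 5) ||| rb z ((c % 25) / 5)

/-- the permutations with `p 0 = 0` -/
def perms : List (List ℕ) :=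
  [[0, 1, 2, 3, 4], [0, 1, 2, 4, 3], [0, 1, 3, 2, 4], [0, 1, 3, 4, 2], [0, 1, 4, 2, 3], [0, 1, 4, 3, 2],
   [0, 2, 1, 3, 4], [0, 2, 1, 4, 3], [0, 2, 3, 1, 4], [0, 2, 3, 4, 1], [0, 2, 4, 1, 3], [0, 2, 4, 3, 1],
   [0, 3, 1, 2, 4], [0, 3, 1, 4, 2], [0, 3, 2, 1, 4], [0, 3, 2, 4, 1], [0, 3, 4, 1, 2], [0, 3, 4, 2, 1],
   [0, 4, 1, 2, 3], [0, 4, 1, 3, 2], [0, 4, 2, 1, 3], [0, 4, 2, 3, 1], [0, 4, 3, 1, 2], [0, 4, 3, 2, 1]]

/-- the facts of a pentagon -/
def pm (l : List ℕ) : ℕ :=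
  match l with
  | [a, b, c, d, e] => (rb b a ||| (rb c b ||| (rb d c ||| (rb e d ||| rb a e)))) |||
      ((fb c a ||| (fb d b ||| (fb e c ||| (fb a d ||| fb b e)))) |||
        (fb a c ||| (fb b d ||| (fb c e ||| (fb d a ||| fb e b)))))
  | _ => 0

/-- the children of a node -/
def runL (g : ℕ → List ℕ → Option (List ℕ)) : List ℕ → ℕ → List ℕ → Option (List ℕ)
  | [], _, l => some l
  | m :: ms, S, l =>
    match g (S ||| m) l with
    | none => none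
    | some l' => runL g ms S l'

/-- the search -/
def run : ℕ → ℕ → List ℕ → Option (List ℕ)
  | 0, _, _ => none
  | f + 1, S, l =>
    if (S &&& (S >>> 25)) &&& (2 ^ 25 - 1) != 0 then some l
    else
      match l with
      | [] => none
      | c :: l' =>
        if c < 50 then
          if S.testBit (c % 25) then runL (run f) (opts c) S l' else none
        else
          if pm (perms.getD (c - 50) []) != 0 && (S &&& pm (perms.getD (c - 50) []) == pm (perms.getD (c - 50) [])) then some l'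
          else none

/-- the list of the conditions -/
def cert : List ℕ :=
   [26, 36, 1, 28, 33, 11, 14, 34, 39, 19, 40, 42, 40, 42, 19, 40, 40, 39, 19, 40, 42, 40, 42, 19, 40, 40, 14, 34, 48, 3,
    33, 11, 14, 34, 23, 47, 47, 23, 22, 42, 47, 14, 34, 11, 14, 34, 23, 47, 47, 23, 47, 39, 7, 19, 69, 47, 14, 34, 33, 11,
    14, 39, 19, 40, 14, 29, 34, 11, 13, 33, 38, 19, 40, 42, 40, 42, 23, 45, 45, 38, 19, 40, 42, 40, 42, 23, 45, 45, 13, 33,
    44, 4, 34, 11, 13, 33, 19, 42, 42, 19, 17, 47, 42, 13, 33, 11, 13, 33, 19, 42, 42, 19, 42, 38, 7, 17, 5, 60, 42, 13, 33,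
    34, 11, 13, 38, 23, 45, 13, 41, 28, 33, 11, 14, 34, 14, 34, 48, 3, 33, 11, 14, 34, 14, 34, 11, 14, 34, 14, 34, 33, 11,
    14, 14, 28, 33, 3, 33, 33, 13, 33, 29, 34, 4, 34, 34, 14, 34, 28, 33, 3, 33, 33, 13, 33, 46, 29, 34, 11, 13, 33, 13, 33,
    44, 4, 34, 11, 13, 33, 13, 33, 11, 13, 33, 13, 33, 34, 11, 13, 13, 29, 34, 4, 34, 34, 14, 34, 41, 1, 27, 32, 47, 7, 33,
    48, 8, 38, 38, 34, 33, 34, 7, 8, 38, 33, 47, 2, 32, 22, 23, 38, 23, 38, 22, 23, 48, 8, 30, 30, 8, 30, 34, 30, 34, 38,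
    48, 8, 30, 30, 8, 30, 34, 30, 34, 23, 38, 32, 22, 23, 38, 23, 38, 29, 34, 19, 34, 27, 32, 47, 7, 33, 48, 8, 38, 38, 34,
    33, 34, 7, 8, 38, 33, 47, 2, 32, 22, 23, 38, 23, 38, 22, 23, 48, 8, 30, 30, 8, 30, 34, 30, 34, 38, 48, 8, 30, 30, 8, 30,
    34, 30, 34, 23, 38, 32, 22, 23, 38, 23, 38, 29, 34, 39, 4, 34, 34, 27, 32, 46, 29, 34, 19, 34, 29, 34, 39, 4, 34, 34,
    11, 14, 34, 14, 34, 14, 34, 46, 1, 27, 32, 22, 32, 28, 33, 27, 32, 22, 32, 28, 33, 38, 3, 33, 33, 27, 32, 28, 33, 38, 3,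
    33, 33, 11, 13, 33, 13, 33, 13, 33, 16, 15, 30, 15, 30, 15, 30, 46, 1, 27, 32, 42, 7, 33, 34, 44, 9, 39, 39, 33, 34, 7,
    9, 39, 34, 42, 2, 32, 17, 19, 39, 19, 39, 17, 19, 44, 9, 30, 30, 9, 30, 33, 30, 33, 39, 44, 9, 30, 30, 9, 30, 33, 30,
    33, 19, 39, 32, 17, 19, 39, 19, 39, 28, 33, 23, 33, 27, 32, 41, 28, 33, 23, 33, 28, 33, 38, 3, 33, 33, 27, 32, 42, 7,
    33, 34, 44, 9, 39, 39, 33, 34, 7, 9, 39, 34, 42, 2, 32, 17, 19, 39, 19, 39, 17, 19, 44, 9, 30, 30, 9, 30, 33, 30, 33,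
    39, 44, 9, 30, 30, 9, 30, 33, 30, 33, 19, 39, 32, 17, 19, 39, 19, 39, 28, 33, 38, 3, 33, 33, 11, 13, 33, 13, 33, 13, 33,
    41, 1, 27, 32, 17, 32, 29, 34, 27, 32, 29, 34, 39, 4, 34, 34, 27, 32, 17, 32, 29, 34, 39, 4, 34, 34, 11, 14, 34, 14, 34,
    14, 34, 21, 20, 30, 20, 30, 20, 30, 41, 1, 36, 27, 32, 16, 19, 34, 19, 34, 47, 2, 32, 16, 19, 34, 19, 34, 16, 19, 34,
    19, 34, 32, 16, 19, 19, 27, 32, 2, 32, 32, 17, 32, 29, 34, 4, 34, 34, 19, 34, 27, 32, 16, 19, 34, 44, 14, 35, 38, 35,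
    38, 14, 35, 35, 44, 14, 35, 38, 35, 38, 14, 35, 35, 19, 34, 47, 2, 32, 16, 19, 34, 22, 48, 48, 22, 23, 38, 48, 19, 34,
    16, 19, 34, 22, 48, 48, 22, 48, 44, 8, 14, 68, 48, 19, 34, 32, 16, 19, 44, 14, 35, 19, 29, 34, 16, 17, 32, 42, 14, 35,
    38, 35, 38, 22, 45, 45, 42, 14, 35, 38, 35, 38, 22, 45, 45, 17, 32, 39, 4, 34, 14, 13, 48, 13, 48, 14, 13, 16, 42, 38,
    8, 5, 66, 42, 48, 16, 42, 42, 13, 48, 34, 14, 13, 48, 13, 48, 27, 32, 2, 32, 32, 17, 32, 46, 29, 34, 4, 34, 34, 19, 34,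
    29, 34, 16, 17, 32, 17, 32, 39, 4, 34, 14, 13, 48, 13, 48, 14, 13, 16, 17, 32, 42, 48, 16, 42, 42, 13, 48, 34, 14, 13,
    48, 13, 48, 36, 1, 28, 33, 48, 8, 32, 47, 7, 42, 42, 34, 32, 34, 8, 7, 42, 32, 48, 3, 33, 23, 22, 42, 22, 42, 23, 22,
    47, 7, 30, 30, 7, 30, 34, 30, 34, 42, 47, 7, 30, 30, 7, 30, 34, 30, 34, 22, 42, 33, 23, 22, 42, 22, 42, 29, 34, 44, 4,
    34, 34, 28, 33, 48, 8, 32, 47, 7, 42, 42, 34, 32, 34, 8, 7, 42, 32, 48, 3, 33, 23, 22, 42, 22, 42, 23, 22, 47, 7, 30,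
    30, 7, 30, 34, 30, 34, 42, 47, 7, 30, 30, 7, 30, 34, 30, 34, 22, 42, 33, 23, 22, 42, 22, 42, 29, 34, 14, 34, 28, 33, 46,
    29, 34, 44, 4, 34, 34, 29, 34, 14, 34, 16, 19, 34, 19, 34, 19, 34, 46, 1, 27, 32, 42, 2, 32, 32, 28, 33, 23, 33, 27, 32,
    28, 33, 23, 33, 27, 32, 42, 2, 32, 32, 28, 33, 11, 10, 30, 10, 30, 10, 30, 16, 17, 32, 17, 32, 17, 32, 46, 1, 36, 27,
    32, 22, 32, 27, 32, 42, 2, 32, 32, 28, 33, 27, 32, 22, 32, 28, 33, 38, 8, 32, 34, 39, 9, 44, 44, 32, 34, 8, 9, 44, 34,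
    38, 3, 33, 13, 14, 44, 14, 44, 13, 14, 39, 9, 30, 30, 9, 30, 32, 30, 32, 44, 39, 9, 30, 30, 9, 30, 32, 30, 32, 14, 44,
    33, 13, 14, 44, 14, 44, 27, 32, 42, 2, 32, 32, 28, 33, 38, 8, 32, 34, 39, 9, 44, 44, 32, 34, 8, 9, 44, 34, 38, 3, 33,
    13, 14, 44, 14, 44, 13, 14, 39, 9, 30, 30, 9, 30, 32, 30, 32, 44, 39, 9, 30, 30, 9, 30, 32, 30, 32, 14, 44, 33, 13, 14,
    44, 14, 44, 36, 1, 28, 33, 29, 34, 44, 4, 34, 34, 28, 33, 13, 33, 29, 34, 28, 33, 13, 33, 29, 34, 44, 4, 34, 34, 16, 19,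
    34, 19, 34, 19, 34, 21, 20, 30, 20, 30, 20, 30, 16, 17, 32, 17, 32, 17, 32, 46, 1, 36, 27, 32, 2, 32, 32, 22, 32, 27,
    32, 21, 23, 33, 23, 33, 42, 2, 32, 17, 19, 39, 19, 39, 17, 19, 21, 23, 33, 48, 39, 21, 48, 48, 19, 39, 32, 17, 19, 39,
    19, 39, 28, 33, 3, 33, 33, 23, 33, 27, 32, 2, 32, 32, 22, 32, 41, 28, 33, 3, 33, 33, 23, 33, 28, 33, 21, 22, 32, 22, 32,
    38, 3, 33, 13, 14, 44, 14, 44, 13, 14, 21, 22, 32, 47, 44, 21, 47, 47, 14, 44, 33, 13, 14, 44, 14, 44, 27, 32, 21, 23,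
    33, 48, 13, 35, 39, 35, 39, 13, 35, 35, 48, 13, 35, 39, 35, 39, 13, 35, 35, 23, 33, 42, 2, 32, 17, 19, 39, 19, 39, 17,
    19, 21, 48, 44, 9, 5, 70, 48, 39, 21, 48, 48, 19, 39, 32, 17, 19, 39, 19, 39, 28, 33, 21, 22, 32, 47, 13, 35, 39, 35,
    39, 17, 40, 40, 47, 13, 35, 39, 35, 39, 17, 40, 40, 22, 32, 38, 3, 33, 13, 14, 44, 14, 44, 13, 14, 21, 47, 39, 9, 5, 72,
    47, 44, 21, 47, 47, 14, 44, 33, 13, 14, 44, 14, 44, 36, 1, 28, 33, 48, 3, 33, 33, 29, 34, 44, 9, 32, 42, 7, 47, 47, 33,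
    32, 33, 9, 7, 47, 32, 44, 4, 34, 19, 17, 47, 17, 47, 19, 17, 42, 7, 30, 30, 7, 30, 33, 30, 33, 47, 42, 7, 30, 30, 7, 30,
    33, 30, 33, 17, 47, 34, 19, 17, 47, 17, 47, 41, 28, 33, 48, 3, 33, 33, 28, 33, 13, 33, 29, 34, 28, 33, 13, 33, 29, 34,
    44, 9, 32, 42, 7, 47, 47, 33, 32, 33, 9, 7, 47, 32, 44, 4, 34, 19, 17, 47, 17, 47, 19, 17, 42, 7, 30, 30, 7, 30, 33, 30,
    33, 47, 42, 7, 30, 30, 7, 30, 33, 30, 33, 17, 47, 34, 19, 17, 47, 17, 47, 41, 1, 27, 32, 47, 2, 32, 32, 29, 34, 19, 34,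
    27, 32, 47, 2, 32, 32, 29, 34, 27, 32, 29, 34, 19, 34, 11, 10, 30, 10, 30, 10, 30, 21, 22, 32, 22, 32, 22, 32, 21, 23,
    33, 23, 33, 23, 33, 41, 1, 36, 27, 32, 47, 2, 32, 32, 27, 32, 17, 32, 29, 34, 27, 32, 47, 2, 32, 32, 29, 34, 39, 9, 32,
    33, 38, 8, 48, 48, 32, 33, 9, 8, 48, 33, 39, 4, 34, 14, 13, 48, 13, 48, 14, 13, 38, 8, 30, 30, 8, 30, 32, 30, 32, 48,
    38, 8, 30, 30, 8, 30, 32, 30, 32, 13, 48, 34, 14, 13, 48, 13, 48, 27, 32, 17, 32, 29, 34, 39, 9, 32, 33, 38, 8, 48, 48,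
    32, 33, 9, 8, 48, 33, 39, 4, 34, 14, 13, 48, 13, 48, 14, 13, 38, 8, 30, 30, 8, 30, 32, 30, 32, 48, 38, 8, 30, 30, 8, 30,
    32, 30, 32, 13, 48, 34, 14, 13, 48, 13, 48, 36, 1, 28, 33, 48, 3, 33, 33, 29, 34, 28, 33, 48, 3, 33, 33, 29, 34, 14, 34,
    28, 33, 29, 34, 14, 34, 16, 15, 30, 15, 30, 15, 30, 21, 23, 33, 23, 33, 23, 33, 21, 22, 32, 22, 32, 22, 32]

/-- the fact number `i` -/
def Mdl (F R : ℕ → ℕ → Prop) (i : ℕ) : Prop := (i < 25 ∧ F (i / 5) (i % 5)) ∨ (25 ≤ i ∧ i < 50 ∧ R ((i - 25) / 5) ((i - 25) % 5))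

/-- all the facts of `S` hold -/
def Sat (F R : ℕ → ℕ → Prop) (S : ℕ) : Prop := ∀ i, S.testBit i = true → Mdl F R i

section
variable {F R : ℕ → ℕ → Prop}

theorem sat_or {a b : ℕ} : Sat F R (a ||| b) ↔ Sat F R a ∧ Sat F R b := by
  unfold Sat
  constructor
  · intro h
    exact ⟨fun i hi => h i (by rw [Nat.testBit_or, hi, Bool.true_or]), fun i hi => h i (by rw [Nat.testBit_or, hi, Bool.or_true])⟩
  · rintro ⟨h1, h2⟩ i hi
    rw [Nat.testBit_or, Bool.or_eq_true] at hi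
    rcases hi with hi | hi
    · exact h1 i hi
    · exact h2 i hi

theorem sat_fb {x y : ℕ} (hx : x < 5) (hy : y < 5) : Sat F R (fb x y) ↔ F x y := by
  unfold Sat fb
  have h1 : (5 * x + y) / 5 = x := by omega
  have h2 : (5 * x + y) % 5 = y := by omega
  constructor
  · intro h
    rcases h (5 * x + y) (by rw [Nat.testBit_two_pow]; simp) with ⟨-, h3⟩ | ⟨h3, -⟩
    · rwa [h1, h2] at h3
    · omega
  · intro h i hi
    rw [Nat.testBit_two_pow] at hi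
    have h3 : 5 * x + y = i := by simpa using hi
    subst h3
    exact Or.inl ⟨by omega, by rwa [h1, h2]⟩

theorem sat_rb {x y : ℕ} (hx : x < 5) (hy : y < 5) : Sat F R (rb x y) ↔ R x y := by
  unfold Sat rb
  have h1 : (25 + (5 * x + y) - 25) / 5 = x := by omega
  have h2 : (25 + (5 * x + y) - 25) % 5 = y := by omega
  constructor
  · intro h
    rcases h (25 + (5 * x + y)) (by rw [Nat.testBit_two_pow]; simp) with ⟨h3, -⟩ | ⟨-, -, h3⟩
    · omega
    · rwa [h1, h2] at h3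
  · intro h i hi
    rw [Nat.testBit_two_pow] at hi
    have h3 : 25 + (5 * x + y) = i := by simpa using hi
    subst h3
    exact Or.inr ⟨by omega, by omega, by rwa [h1, h2]⟩

theorem runL_ok {g : ℕ → List ℕ → Option (List ℕ)} {ms : List ℕ} {S : ℕ} {l l' : List ℕ} (h : runL g ms S l = some l') :
    ∀ m ∈ ms, ∃ l1 l2, g (S ||| m) l1 = some l2 := by
  induction ms generalizing l with
  | nil => intro m hm; exact absurd hm List.not_mem_nil
  | cons m0 ms ih =>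
    rw [runL] at h
    cases h0 : g (S ||| m0) l with
    | none => rw [h0] at h; exact absurd h (by simp)
    | some l1 =>
      rw [h0] at h
      intro m hm
      rcases List.mem_cons.1 hm with rfl | hm
      · exact ⟨l, l1, h0⟩
      · exact ih h m hm

/-- the soundness of the search -/
theorem run_ok (hH : ∀ x y, F x y → ¬ R x y)
    (hC : ∀ x y, x < 5 → y < 5 → F x y → ∃ z k, z < 5 ∧ k < 5 ∧ F z y ∧ F x k ∧ R z k)
    (hB : ∀ x y, x < 5 → y < 5 → F x y → ∃ z, z < 5 ∧ z ≠ x ∧ F z y ∧ R z x)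
    (hP : ∀ a b c d e, [a, b, c, d, e] ∈ perms → R b a → R c b → R d c → R e d → R a e → F c a → F d b → F e c → F a d → F b e →
      F a c → F b d → F c e → F d a → F e b → False) (n S : ℕ) (l l' : List ℕ) (h : run n S l = some l') (hS : Sat F R S) :
    False := by
  induction n generalizing S l l' with
  | zero =>
    have h0 : (none : Option (List ℕ)) = some l' := h
    exact absurd h0 (by simp)
  | succ n ih =>
    rw [run.eq_def] at h
    simp only at h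
    split_ifs at h with h1
    · -- a conflict
      have h2 : (S &&& (S >>> 25)) &&& (2 ^ 25 - 1) ≠ 0 := by simpa using h1
      obtain ⟨i, hi⟩ := Nat.exists_testBit_of_ne_zero h2
      rw [Nat.testBit_and, Nat.testBit_and, Nat.testBit_shiftRight, Nat.testBit_two_pow_sub_one, Bool.and_eq_true,
        Bool.and_eq_true, decide_eq_true_eq] at hi
      obtain ⟨⟨h3, h4⟩, h5⟩ := hi
      rcases hS i h3 with ⟨-, h6⟩ | ⟨h6, -⟩
      · rcases hS (25 + i) h4 with ⟨h7, -⟩ | ⟨-, -, h7⟩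
        · omega
        · rw [Nat.add_sub_cancel_left] at h7
          exact hH _ _ h6 h7
      · omega
    · cases l with
      | nil => exact absurd h (by simp)
      | cons c l1 =>
        simp only at h
        split_ifs at h with h2 h3 h4
        · -- a condition
          have hF : F (c % 25 / 5) (c % 5) := by
            rcases hS (c % 25) h3 with ⟨-, h5⟩ | ⟨h5, -⟩
            · have h6 : c % 25 % 5 = c % 5 := by omega
              rwa [h6] at h5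
            · omega
          have hm : ∀ m ∈ opts c, ¬ Sat F R m := by
            intro m hm hm2
            obtain ⟨l2, l3, h5⟩ := runL_ok h m hm
            exact ih _ _ _ h5 (sat_or.2 ⟨hS, hm2⟩)
          unfold opts at hm
          by_cases hc : c < 25
          · rw [if_pos hc] at hm
            have h5 : c % 25 / 5 = c / 5 := by omega
            rw [h5] at hF
            obtain ⟨z, k, hz, hk, h6, h7, h8⟩ := hC _ _ (by omega) (by omega) hF
            refine hm (fb z (c % 5) ||| (fb (c / 5) k ||| rb z k)) ?_ ?_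
            · rw [List.mem_flatMap]
              exact ⟨z, List.mem_range.2 hz, List.mem_map.2 ⟨k, List.mem_range.2 hk, rfl⟩⟩
            · exact sat_or.2 ⟨(sat_fb hz (by omega)).2 h6, sat_or.2 ⟨(sat_fb (by omega) hk).2 h7, (sat_rb hz hk).2 h8⟩⟩
          · rw [if_neg hc] at hm
            obtain ⟨z, hz, hne, h6, h7⟩ := hB _ _ (by omega) (by omega) hF
            refine hm (fb z (c % 5) ||| rb z (c % 25 / 5)) ?_ ?_
            · rw [List.mem_map]
              exact ⟨z, List.mem_filter.2 ⟨List.mem_range.2 hz, by simpa using hne⟩, rfl⟩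
            · exact sat_or.2 ⟨(sat_fb hz (by omega)).2 h6, (sat_rb hz (by omega)).2 h7⟩
        · -- a pentagon
          rw [Bool.and_eq_true] at h4
          obtain ⟨h5, h6⟩ := h4
          have h7 : S &&& pm (perms.getD (c - 50) []) = pm (perms.getD (c - 50) []) := by simpa using h6
          have h8 : perms.getD (c - 50) [] ∈ perms := by
            rw [List.getD_eq_getElem?_getD]
            cases h9 : perms[c - 50]? with
            | none =>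
              exfalso
              rw [List.getD_eq_getElem?_getD, h9] at h5
              exact absurd h5 (by decide)
            | some q => exact List.mem_of_getElem? h9
          generalize perms.getD (c - 50) [] = q at h7 h8
          have h9 : Sat F R (pm q) := by
            intro i hi
            refine hS i ?_
            have h10 : (S &&& pm q).testBit i = true := by rw [h7]; exact hi
            rw [Nat.testBit_and, Bool.and_eq_true] at h10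
            exact h10.1
          have h10 : ∀ q ∈ perms, ∃ a b c d e, q = [a, b, c, d, e] ∧ a < 5 ∧ b < 5 ∧ c < 5 ∧ d < 5 ∧ e < 5 := by
            intro q hq
            have h11 : ∀ q ∈ perms, q.length = 5 ∧ ∀ a ∈ q, a < 5 := by decide
            obtain ⟨h12, h13⟩ := h11 q hq
            match q, h12, h13 with
            | [a, b, c, d, e], _, h13 =>
              exact ⟨a, b, c, d, e, rfl, h13 a (by simp), h13 b (by simp), h13 c (by simp), h13 d (by simp), h13 e (by simp)⟩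
          obtain ⟨a, b, c, d, e, rfl, ha, hb, hc, hd, he⟩ := h10 q h8
          rw [pm] at h9
          simp only [sat_or, sat_fb, sat_rb, ha, hb, hc, hd, he] at h9
          obtain ⟨⟨r1, r2, r3, r4, r5⟩, ⟨f1, f2, f3, f4, f5⟩, g1, g2, g3, g4, g5⟩ := h9
          exact hP a b c d e h8 r1 r2 r3 r4 r5 f1 f2 f3 f4 f5 g1 g2 g3 g4 g5

end

theorem cert_ok : run 20 571885666435074 cert = some [] := by decide +kernel

theorem start_ok : 571885666435074 = fb 0 1 ||| (rb 0 0 ||| (rb 1 1 ||| (rb 2 2 ||| (rb 3 3 ||| rb 4 4)))) := by decide +kernel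

end C5

open C5 in
/-- **The combinatorics of five vertices.** -/
theorem comb5 {V : Type} [Fintype V] (hV : Fintype.card V ≤ 5) {R F : V → V → Prop} (hR : ∀ x, R x x)
    (hH : ∀ x y, F x y → ¬ R x y) (hC : ∀ x y, F x y → ∃ z k, F z y ∧ F x k ∧ R z k)
    (hB : ∀ x y, F x y → ∃ z, z ≠ x ∧ F z y ∧ R z x)
    (hP : ∀ a b c d f : V, (∀ z, z = a ∨ z = b ∨ z = c ∨ z = d ∨ z = f) → a ≠ b → b ≠ c → c ≠ d → d ≠ f → f ≠ a →
      R b a → R c b → R d c → R f d → R a f → F c a → F d b → F f c → F a d → F b f → F a c → F b d → F c f → F d a → F f b → False)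
    (x y : V) : ¬ F x y := by
  classical
  intro hxy
  have hne : x ≠ y := by
    rintro rfl
    exact hH _ _ hxy (hR x)
  obtain ⟨φ⟩ : Nonempty (V ↪ Fin 5) := Function.Embedding.nonempty_of_card_le (by simpa using hV)
  let σ : Equiv.Perm (Fin 5) := Equiv.swap (φ x) 0
  let τ : Equiv.Perm (Fin 5) := Equiv.swap (σ (φ y)) 1
  have hσx : σ (φ x) = 0 := Equiv.swap_apply_left _ _
  have hσy : σ (φ y) ≠ 0 := by
    rw [← hσx]
    intro h
    exact hne (φ.injective (σ.injective h)).symm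
  let ψ : V → ℕ := fun v => (τ (σ (φ v)) : Fin 5)
  have hψ : Function.Injective ψ := fun u v h => φ.injective (σ.injective (τ.injective (Fin.ext h)))
  have hψ5 : ∀ v, ψ v < 5 := fun v => (τ (σ (φ v))).2
  have hψx : ψ x = 0 := by
    show ((τ (σ (φ x)) : Fin 5) : ℕ) = 0
    rw [hσx]
    have h1 : τ 0 = 0 := Equiv.swap_apply_of_ne_of_ne (Ne.symm hσy) (by decide)
    rw [h1]
    rfl
  have hψy : ψ y = 1 := by
    show ((τ (σ (φ y)) : Fin 5) : ℕ) = 1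
    have h1 : τ (σ (φ y)) = 1 := Equiv.swap_apply_left _ _
    rw [h1]
    rfl
  let F' : ℕ → ℕ → Prop := fun a b => ∃ u v, ψ u = a ∧ ψ v = b ∧ F u v
  let R' : ℕ → ℕ → Prop := fun a b => a = b ∨ ∃ u v, ψ u = a ∧ ψ v = b ∧ R u v
  have hF' : ∀ {u v}, F' (ψ u) (ψ v) → F u v := by
    rintro u v ⟨u', v', h1, h2, h3⟩
    rw [hψ h1, hψ h2] at h3
    exact h3
  have hR' : ∀ {u v}, R' (ψ u) (ψ v) → R u v := by
    rintro u v (h1 | ⟨u', v', h1, h2, h3⟩)
    · rw [hψ h1]; exact hR v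
    · rw [hψ h1, hψ h2] at h3
      exact h3
  refine run_ok (F := F') (R := R') ?_ ?_ ?_ ?_ 20 _ cert [] cert_ok ?_
  · rintro a b ⟨u, v, rfl, rfl, h1⟩ h2
    exact hH _ _ h1 (hR' h2)
  · rintro a b - - ⟨u, v, rfl, rfl, h1⟩
    obtain ⟨z, k, h2, h3, h4⟩ := hC _ _ h1
    exact ⟨ψ z, ψ k, hψ5 z, hψ5 k, ⟨z, v, rfl, rfl, h2⟩, ⟨u, k, rfl, rfl, h3⟩, Or.inr ⟨z, k, rfl, rfl, h4⟩⟩
  · rintro a b - - ⟨u, v, rfl, rfl, h1⟩
    obtain ⟨z, h2, h3, h4⟩ := hB _ _ h1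
    exact ⟨ψ z, hψ5 z, fun h5 => h2 (hψ h5), ⟨z, v, rfl, rfl, h3⟩, Or.inr ⟨z, u, rfl, rfl, h4⟩⟩
  · intro a b c d f hq r1 r2 r3 r4 r5 f1 f2 f3 f4 f5 g1 g2 g3 g4 g5
    have hall : ∀ q ∈ perms, q.Nodup ∧ ∀ i < 5, i ∈ q := by decide
    obtain ⟨hnd, hmem⟩ := hall _ hq
    obtain ⟨c', a', rfl, rfl, -⟩ := id f1
    obtain ⟨d', b', rfl, rfl, -⟩ := id f2
    obtain ⟨f', -, rfl, -, -⟩ := id f3
    have hd : ψ a' ≠ ψ b' ∧ ψ b' ≠ ψ c' ∧ ψ c' ≠ ψ d' ∧ ψ d' ≠ ψ f' ∧ ψ f' ≠ ψ a' := by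
      simp only [List.nodup_cons, List.mem_cons, List.not_mem_nil, or_false, not_or] at hnd
      exact ⟨hnd.1.1, hnd.2.1.1, hnd.2.2.1.1, hnd.2.2.2.1, Ne.symm hnd.1.2.2.2⟩
    obtain ⟨d1, d2, d3, d4, d5⟩ := hd
    refine hP a' b' c' d' f' ?_ (fun h => d1 (congrArg ψ h)) (fun h => d2 (congrArg ψ h)) (fun h => d3 (congrArg ψ h))
      (fun h => d4 (congrArg ψ h)) (fun h => d5 (congrArg ψ h)) (hR' r1) (hR' r2) (hR' r3) (hR' r4) (hR' r5) (hF' f1) (hF' f2)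
      (hF' f3) (hF' f4) (hF' f5) (hF' g1) (hF' g2) (hF' g3) (hF' g4) (hF' g5)
    intro z
    have h1 := hmem (ψ z) (hψ5 z)
    simp only [List.mem_cons, List.not_mem_nil, or_false] at h1
    rcases h1 with h1 | h1 | h1 | h1 | h1
    · exact Or.inl (hψ h1)
    · exact Or.inr (Or.inl (hψ h1))
    · exact Or.inr (Or.inr (Or.inl (hψ h1)))
    · exact Or.inr (Or.inr (Or.inr (Or.inl (hψ h1))))
    · exact Or.inr (Or.inr (Or.inr (Or.inr (hψ h1))))
  · rw [start_ok]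
    simp only [sat_or, sat_fb (show (0 : ℕ) < 5 by decide) (show (1 : ℕ) < 5 by decide),
      sat_rb (show (0 : ℕ) < 5 by decide) (show (0 : ℕ) < 5 by decide), sat_rb (show (1 : ℕ) < 5 by decide) (show (1 : ℕ) < 5 by decide),
      sat_rb (show (2 : ℕ) < 5 by decide) (show (2 : ℕ) < 5 by decide), sat_rb (show (3 : ℕ) < 5 by decide) (show (3 : ℕ) < 5 by decide),
      sat_rb (show (4 : ℕ) < 5 by decide) (show (4 : ℕ) < 5 by decide)]
    exact ⟨⟨x, y, hψx, hψy, hxy⟩, Or.inl rfl, Or.inl rfl, Or.inl rfl, Or.inl rfl, Or.inl rfl⟩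

end Pool.Agent.SVR
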