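import Pool.Agent.SVR.Arr

/-!
# SVR/Wlk: walks of arrows with zero products give recurring vertices
-/

set_option autoImplicit false

open CategoryTheory Abelian Pool.Agent.PathAlg

universe u

namespace Pool.Agent.SVR

variable {Λ : Type u} [Ring Λ] {V : Type} [Fintype V] {e : V → Λ} {J : Ideal Λ}

/-- the submodule `J M` -/
def Rd (J : Ideal Λ) (M : Type*) [AddCommGroup M] [Module Λ M] : Submodule Λ M := Submodule.span Λ {x | ∃ a ∈ J, ∃ m : M, x = a • m}

theorem Rd_map {M N : Type*} [AddCommGroup M] [Module Λ M] [AddCommGroup N] [Module Λ N] (f : M →ₗ[Λ] N) {m : M} (hm : m ∈ Rd J M) :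
    f m ∈ Rd J N := by
  induction hm using Submodule.span_induction with
  | mem x hx =>
    obtain ⟨a, ha, m, rfl⟩ := hx
    exact Submodule.subset_span ⟨a, ha, f m, map_smul _ _ _⟩
  | zero => rw [map_zero]; exact Submodule.zero_mem _
  | add x y _ _ hx hy => rw [map_add]; exact Submodule.add_mem _ hx hy
  | smul c x _ hx => rw [map_smul]; exact Submodule.smul_mem _ _ hx

/-- dual basis: an element of a projective module all of whose values are in `J` is in `J P` -/
theorem Rd_dual {P : Type u} [AddCommGroup P] [Module Λ P] (hP : Module.Projective Λ P) {u : P}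
    (hu : ∀ f : P →ₗ[Λ] Λ, f u ∈ J) : u ∈ Rd J P := by
  obtain ⟨s, hs⟩ := hP
  have h1 : Finsupp.linearCombination Λ id (s u) = u := hs u
  rw [← h1, Finsupp.linearCombination_apply]
  refine Submodule.sum_mem _ fun q _ => ?_
  exact Submodule.subset_span ⟨s u q, hu (Finsupp.lapply q ∘ₗ s), q, rfl⟩

/-- the values of the kernel of a projective cover are in the radical -/
theorem ker_val (h : Vr e J) {P M : ModuleCat.{u} Λ} {π : P →ₗ[Λ] M} (hπ : IsProjectiveCover π) {u : P} (hu : π u = 0)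
    (f : P →ₗ[Λ] Λ) : f u ∈ J := by
  have h1 : f u = ∑ a, f u * e a := by rw [← Finset.mul_sum, h.sum, mul_one]
  rw [h1]
  refine J.sum_mem fun a _ => ?_
  let g : P →ₗ[Λ] Λ :=
    { toFun := fun w => f w * e a
      map_add' := fun w w' => by rw [map_add, add_mul]
      map_smul' := fun c w => by
        rw [map_smul, smul_eq_mul, mul_assoc]
        rfl }
  have h2 := ker_rad h hπ (a := a) g (fun w => by
    show f w * e a * e a = f w * e a
    rw [mul_assoc, h.idem]) hu
  exact h2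

/-- an element of the syzygy which is in the radical has its values in `J^2` -/
theorem Rd_val {N : ModuleCat.{u} Λ} (g : N →ₗ[Λ] Λ) (hg : ∀ v, g v ∈ J) {u : N} (hu : u ∈ Rd J N) : g u ∈ Jp J 2 := by
  induction hu using Submodule.span_induction with
  | mem x hx =>
    obtain ⟨a, ha, m, rfl⟩ := hx
    rw [map_smul, smul_eq_mul]
    exact Submodule.subset_span ⟨[a, g m], rfl, fun b hb => by
      simp only [List.mem_cons, List.not_mem_nil, or_false] at hb
      rcases hb with rfl | rfl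
      · exact ha
      · exact hg m, by simp⟩
  | zero => rw [map_zero]; exact Ideal.zero_mem _
  | add x y _ _ hx hy => rw [map_add]; exact Ideal.add_mem _ hx hy
  | smul c x _ hx => rw [map_smul, smul_eq_mul]; exact Ideal.mul_mem_left _ _ hx

/-- an element at the vertex `x` which is killed by all the maps to `S_x` is in the radical -/
theorem Rd_of_hom (h : Vr e J) {x : V} {N : ModuleCat.{u} Λ} [Module.Finite Λ N] (hf : ∀ f : N →ₗ[Λ] Sm e J x, f = 0) {m : N}
    (hm : e x • m = m) : m ∈ Rd J N := by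
  have h1 : Gen e {x}ᶜ N = ⊤ := h.gen_of_hom (M := N) (A := {x}ᶜ) fun y hy f => by
    have hyx : y = x := by
      by_contra hne
      exact hy hne
    subst hyx
    exact hf f
  have h2 : m ∈ Gen e {x}ᶜ N := by rw [h1]; trivial
  rw [← hm]
  have key : ∀ m ∈ Gen e {x}ᶜ N, ∀ c : Λ, (e x * c) • m ∈ Rd J N := by
    intro m hm
    induction hm using Submodule.span_induction with
    | mem w hw =>
      obtain ⟨a, ha, m, rfl⟩ := hw
      intro c
      have hne : x ≠ a := fun h3 => ha (by rw [h3]; rfl)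
      rw [smul_smul]
      exact Submodule.subset_span ⟨_, h.off x a c hne, m, rfl⟩
    | zero => intro c; rw [smul_zero]; exact Submodule.zero_mem _
    | add w w' _ _ hw hw' => intro c; rw [smul_add]; exact Submodule.add_mem _ (hw c) (hw' c)
    | smul b w _ hw => intro c; rw [smul_smul, mul_assoc]; exact hw _
  have h3 := key m h2 1
  rwa [mul_one] at h3

/-- units of the local ring of a vertex -/
theorem loc_unit (h : Vr e J) {x : V} {u : Λ} (hu : e x * u * e x ∉ J) : ∃ b, (e x * u * e x) * b = e x := by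
  obtain ⟨b, hb⟩ := h.loc x u hu
  have h1 : (e x * b * e x) * (e x * u * e x) = e x := by
    calc (e x * b * e x) * (e x * u * e x) = e x * (b * ((e x * e x) * u * e x)) := by simp only [mul_assoc]
      _ = e x := by rw [h.idem, hb, h.idem]
  have h2 : e x * b * e x ∉ J := by
    intro h3
    apply h.ne x
    rw [← h1]
    exact h.two _ _ h3
  obtain ⟨c, hc⟩ := h.loc x b h2
  refine ⟨e x * b * e x, ?_⟩
  have h3 : e x * u * e x = c * e x := by
    calc e x * u * e x = e x * (e x * u * e x) := by rw [← mul_assoc, ← mul_assoc, h.idem]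
      _ = c * (e x * b * e x) * (e x * u * e x) := by rw [hc]
      _ = c * ((e x * b * e x) * (e x * u * e x)) := by rw [mul_assoc]
      _ = c * e x := by rw [h1]
  rw [h3, mul_assoc, ← mul_assoc (e x), ← mul_assoc (e x), h.idem, hc]

/-- **The step of the walk.** -/
theorem walk_step (h : Vr e J) {M : ModuleCat.{u} Λ} (R : MinRes M) {n : ℕ} {x y : V} {α β : Λ} (hα : e y * α = α)
    (hα' : α * e x = α) (hα2 : α ∉ Jp J 2) (hβ : β * α = 0) {m : R.N n} (hm : e x • m = m) (h0 : α • m = 0) (hr : m ∉ Rd J (R.N n)) :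
    ∃ m' : R.N (n + 1), e y • m' = m' ∧ β • m' = 0 ∧ m' ∉ Rd J (R.N (n + 1)) := by
  obtain ⟨p0, hp0⟩ := (R.cov n).2.1 m
  let p := e x • p0
  have hp : R.π n p = m := by rw [map_smul, hp0, hm]
  have hpx : e x • p = p := by
    show e x • e x • p0 = e x • p0
    rw [smul_smul, h.idem]
  have h1 : ∃ f : R.P n →ₗ[Λ] Λ, f p ∉ J := by
    by_contra hc
    push Not at hc
    apply hr
    rw [← hp]
    exact Rd_map _ (Rd_dual (R.cov n).1 hc)
  obtain ⟨f, hf⟩ := h1
  have hfx : e x * f p = f p := by rw [← smul_eq_mul, ← map_smul, hpx]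
  have hf2 : e x * f p * e x ∉ J := by
    intro h2
    apply hf
    have h3 : f p = ∑ z, e x * f p * e z := by rw [← Finset.mul_sum, h.sum, mul_one, hfx]
    rw [h3]
    refine J.sum_mem fun z _ => ?_
    by_cases hz : x = z
    · rw [← hz]; exact h2
    · exact h.off x z _ hz
  obtain ⟨b, hb⟩ := loc_unit h hf2
  have h2 : α • p ∈ LinearMap.ker (R.π n) := by rw [LinearMap.mem_ker, map_smul, hp, h0]
  rw [← R.ex n] at h2
  obtain ⟨m', hm'⟩ := h2
  refine ⟨m', ?_, ?_, ?_⟩
  · apply R.inj n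
    rw [map_smul, hm', smul_smul, hα]
  · apply R.inj n
    rw [map_smul, hm', smul_smul, hβ, zero_smul, map_zero]
  · intro h3
    apply hα2
    have hg : ∀ v, (f ∘ₗ R.ι n) v ∈ J := by
      intro v
      refine ker_val h (R.cov n) ?_ f
      have h4 : R.ι n v ∈ LinearMap.ker (R.π n) := by
        rw [← R.ex n]
        exact ⟨_, rfl⟩
      exact h4
    have h5 : (f ∘ₗ R.ι n) m' ∈ Jp J 2 := Rd_val (f ∘ₗ R.ι n) hg h3
    have h6 : α * f p ∈ Jp J 2 := by
      have h7 : (f ∘ₗ R.ι n) m' = α * f p := by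
        show f (R.ι n m') = α * f p
        rw [hm', map_smul, smul_eq_mul]
      rwa [h7] at h5
    have h7 : α = α * f p * (e x * b) := by
      calc α = α * (e x * f p * e x * b) := by rw [hb, hα']
        _ = (α * e x) * f p * (e x * b) := by simp only [mul_assoc]
        _ = α * f p * (e x * b) := by rw [hα']
    rw [h7]
    exact Jp_right h.two (by omega) h6 _

/-- the start of the walk -/
theorem walk_base (h : Vr e J) {x : V} (R : MinRes (Sm e J x)) {α : Λ} (hα : α ∈ J) :
    ∃ m : R.N 0, e x • m = m ∧ α • m = 0 ∧ m ∉ Rd J (R.N 0) := by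
  let s : Sm e J x := (Submodule.Quotient.mk (e x) : Λ ⧸ Lz e J x)
  have hs : e x • s = s := by
    show (Submodule.Quotient.mk (e x * e x) : Λ ⧸ Lz e J x) = Submodule.Quotient.mk (e x)
    rw [h.idem]
  have hs0 : s ≠ 0 := by
    intro h1
    have h2 : e x ∈ Lz e J x := (Submodule.Quotient.mk_eq_zero _).1 h1
    have h3 : e x * e x ∈ J := h2
    rw [h.idem] at h3
    exact h.ne x h3
  have hk : ∀ a ∈ J, ∀ t : Sm e J x, a • t = 0 := fun a ha t => h.kill (h.simple x) ha t
  have hR : ∀ t ∈ Rd J (Sm e J x), t = 0 := by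
    intro t ht
    induction ht using Submodule.span_induction with
    | mem w hw =>
      obtain ⟨a, ha, m, rfl⟩ := hw
      exact hk a ha m
    | zero => rfl
    | add w w' _ _ hw hw' => rw [hw, hw', add_zero]
    | smul c w _ hw => rw [hw, smul_zero]
  refine ⟨R.e0 s, ?_, ?_, ?_⟩
  · rw [← map_smul, hs]
  · rw [← map_smul, hk α hα, map_zero]
  · intro h1
    apply hs0
    have h2 := Rd_map (J := J) R.e0.symm.toLinearMap h1
    have h3 : R.e0.symm (R.e0 s) ∈ Rd J (Sm e J x) := h2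
    rw [LinearEquiv.symm_apply_apply] at h3
    exact hR s h3

/-- an element outside the radical gives an Ext group -/
theorem walk_ext (h : Vr e J) {M : ModuleCat.{u} Λ} (R : MinRes M) {n : ℕ} {x : V} {m : R.N n} (hm : e x • m = m)
    (hr : m ∉ Rd J (R.N n)) : Nontrivial (Ext M (Sm e J x) n) := by
  have := R.finN n
  refine (syz_hom (R.syz n) (h.simple x)).2 ?_
  by_contra hc
  push Not at hc
  exact hr (Rd_of_hom h hc hm)

/-- **Closed walks of five arrows with zero products.** -/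
theorem walk5 (h : Vr e J) {a b c d f : V} {α β γ δ ε : Λ} (R : MinRes (Sm e J a))
    (hα : e b * α = α) (hα' : α * e a = α) (hα2 : α ∉ Jp J 2) (hαJ : α ∈ J)
    (hβ : e c * β = β) (hβ' : β * e b = β) (hβ2 : β ∉ Jp J 2)
    (hγ : e d * γ = γ) (hγ' : γ * e c = γ) (hγ2 : γ ∉ Jp J 2)
    (hδ : e f * δ = δ) (hδ' : δ * e d = δ) (hδ2 : δ ∉ Jp J 2)
    (hε : e a * ε = ε) (hε' : ε * e f = ε) (hε2 : ε ∉ Jp J 2)
    (h1 : β * α = 0) (h2 : γ * β = 0) (h3 : δ * γ = 0) (h4 : ε * δ = 0) (h5 : α * ε = 0) : Inf (Sm e J a) (Sm e J a) := by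
  have key : ∀ k : ℕ, ∃ m : R.N (5 * k), e a • m = m ∧ α • m = 0 ∧ m ∉ Rd J (R.N (5 * k)) := by
    intro k
    induction k with
    | zero => exact walk_base h R hαJ
    | succ k ih =>
      obtain ⟨m0, a0, b0, c0⟩ := ih
      obtain ⟨m1, a1, b1, c1⟩ := walk_step h R hα hα' hα2 h1 a0 b0 c0
      obtain ⟨m2, a2, b2, c2⟩ := walk_step h R hβ hβ' hβ2 h2 a1 b1 c1
      obtain ⟨m3, a3, b3, c3⟩ := walk_step h R hγ hγ' hγ2 h3 a2 b2 c2
      obtain ⟨m4, a4, b4, c4⟩ := walk_step h R hδ hδ' hδ2 h4 a3 b3 c3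
      obtain ⟨m5, a5, b5, c5⟩ := walk_step h R hε hε' hε2 h5 a4 b4 c4
      exact ⟨m5, a5, b5, c5⟩
  intro m
  obtain ⟨v, hv, -, hv2⟩ := key m
  exact ⟨5 * m, by omega, walk_ext h R hv hv2⟩

/-- **The pentagon.** -/
theorem pent (h : Vr e J) {a b c d f : V} (hall : ∀ z, z = a ∨ z = b ∨ z = c ∨ z = d ∨ z = f) (hab : a ≠ b) (hbc : b ≠ c)
    (hcd : c ≠ d) (hdf : d ≠ f) (hfa : f ≠ a) (r1 : Rl e b a) (r2 : Rl e c b) (r3 : Rl e d c) (r4 : Rl e f d) (r5 : Rl e a f)
    (n1 : ¬ Rl e c a) (n2 : ¬ Rl e d b) (n3 : ¬ Rl e f c) (n4 : ¬ Rl e a d) (n5 : ¬ Rl e b f)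
    (n6 : ¬ Rl e a c) (n7 : ¬ Rl e b d) (n8 : ¬ Rl e c f) (n9 : ¬ Rl e d a) (n10 : ¬ Rl e f b) (R : MinRes (Sm e J a)) :
    Inf (Sm e J a) (Sm e J a) := by
  have z0 : ∀ {x y z : V} (s t : Λ), ¬ Rl e z x → (e z * t * e y) * (e y * s * e x) = 0 := by
    intro x y z s t hn
    unfold Rl at hn
    push Not at hn
    have h1 := hn (t * e y * e y * s)
    rw [← h1]
    simp only [mul_assoc]
  have l0 : ∀ {x y : V} (s : Λ), e y * (e y * s * e x) = e y * s * e x := by
    intro x y s
    rw [← mul_assoc, ← mul_assoc, h.idem]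
  have l1 : ∀ {x y : V} (s : Λ), (e y * s * e x) * e x = e y * s * e x := by
    intro x y s
    rw [mul_assoc, h.idem]
  obtain ⟨α, hα⟩ := arrow h hab r1 (fun z hz hz' => by
    rcases hall z with rfl | rfl | rfl | rfl | rfl
    · exact Or.inl rfl
    · exact Or.inr rfl
    · exact absurd hz' n1
    · exact absurd hz' n9
    · exact absurd hz n5)
  obtain ⟨β, hβ⟩ := arrow h hbc r2 (fun z hz hz' => by
    rcases hall z with rfl | rfl | rfl | rfl | rfl
    · exact absurd hz n1
    · exact Or.inl rfl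
    · exact Or.inr rfl
    · exact absurd hz' n2
    · exact absurd hz' n10)
  obtain ⟨γ, hγ⟩ := arrow h hcd r3 (fun z hz hz' => by
    rcases hall z with rfl | rfl | rfl | rfl | rfl
    · exact absurd hz' n6
    · exact absurd hz n2
    · exact Or.inl rfl
    · exact Or.inr rfl
    · exact absurd hz' n3)
  obtain ⟨δ, hδ⟩ := arrow h hdf r4 (fun z hz hz' => by
    rcases hall z with rfl | rfl | rfl | rfl | rfl
    · exact absurd hz' n4
    · exact absurd hz' n7
    · exact absurd hz n3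
    · exact Or.inl rfl
    · exact Or.inr rfl)
  obtain ⟨ε, hε⟩ := arrow h hfa r5 (fun z hz hz' => by
    rcases hall z with rfl | rfl | rfl | rfl | rfl
    · exact Or.inr rfl
    · exact absurd hz' n5
    · exact absurd hz' n8
    · exact absurd hz n4
    · exact Or.inl rfl)
  exact walk5 h R (l0 α) (l1 α) hα (h.off b a α (Ne.symm hab)) (l0 β) (l1 β) hβ (l0 γ) (l1 γ) hγ (l0 δ) (l1 δ) hδ (l0 ε) (l1 ε) hε
    (z0 α β n1) (z0 β γ n2) (z0 γ δ n3) (z0 δ ε n4) (z0 ε α n5)

end Pool.Agent.SVR
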