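import Pool.Agent.SVR.Fb
import Pool.Agent.SVR.Wlk
import Pool.Agent.SVR.Comb5

/-!
# SVR/Abs5: rings with at most five vertices in which no vertex recurs
-/

set_option autoImplicit false

open CategoryTheory Abelian Pool.Agent.PathAlg

universe u

namespace Pool.Agent.SVR

variable {Λ : Type u} [Ring Λ] {V : Type} [Fintype V] {e : V → Λ} {J : Ideal Λ}

omit [Fintype V] in
/-- the simple module is generated by its vertex -/
theorem gen_simple {x : V} {M : ModuleCat.{u} Λ} (E : Sm e J x ≃ₗ[Λ] M)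
    (h1 : ∀ c : Λ, c * (1 - e x) ∈ Lz e J x) {K : Set V} (hx : x ∈ K) : Gen e K M = ⊤ := by
  rw [eq_top_iff]
  intro m _
  obtain ⟨s, rfl⟩ := E.surjective m
  obtain ⟨a, rfl⟩ := Submodule.Quotient.mk_surjective _ s
  have h2 : (Submodule.Quotient.mk a : Λ ⧸ Lz e J x) = a • e x • (Submodule.Quotient.mk 1 : Λ ⧸ Lz e J x) := by
    have h3 : a • e x • (Submodule.Quotient.mk 1 : Λ ⧸ Lz e J x) = Submodule.Quotient.mk (a * (e x * 1)) := rfl
    rw [h3, Submodule.Quotient.eq, mul_one]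
    have h4 : a - a * e x = a * (1 - e x) := by rw [mul_sub, mul_one]
    rw [h4]
    exact h1 a
  have h5 : E (Submodule.Quotient.mk a : Λ ⧸ Lz e J x) = a • e x • E (Submodule.Quotient.mk 1 : Λ ⧸ Lz e J x) := by
    rw [h2]
    exact (map_smul E a (e x • (Submodule.Quotient.mk 1 : Λ ⧸ Lz e J x))).trans (congrArg (a • ·) (map_smul E (e x) _))
  rw [h5]
  exact Submodule.smul_mem _ _ (Gen_mem hx _)

section
variable [IsArtinianRing Λ] [IsNoetherianRing Λ]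

/-- **A predecessor.** -/
theorem fb_one (h : Vr e J) {x : V} (R : MinRes (Sm e J x)) {n : ℕ} (hn : ∀ v : R.N n, e x • v = 0) {y : V}
    (hxy : Inf (Sm e J x) (Sm e J y)) : ∃ z, z ≠ x ∧ Inf (Sm e J z) (Sm e J y) ∧ Rl e z x := by
  obtain ⟨z, hz, ⟨k, rfl, hk⟩, h3⟩ := fb h R (K := {x}) (gen_simple R.e0 (h.one_sub_mem x) rfl)
    (by rintro k rfl; exact hn) hxy
  exact ⟨z, hz, h3, hk⟩

/-- **At most five vertices.** -/
theorem abs5 (h : Vr e J) (hV : Fintype.card V ≤ 5) (R : ∀ x, MinRes (Sm e J x))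
    (hno : ∀ x, ∃ m, ∀ n, m ≤ n → ∀ v : (R x).N n, e x • v = 0) (x y : V) : ¬ Inf (Sm e J x) (Sm e J y) := by
  have H : ∀ x y, Inf (Sm e J x) (Sm e J y) → ¬ Rl e x y := by
    rintro x y h1 ⟨c, hc⟩
    exact hc (norec_rel h (R x) (hno x) h1 c)
  refine comb5 (F := fun x y => Inf (Sm e J x) (Sm e J y)) (R := Rl e) hV (Rl_refl h) H ?_ ?_ ?_ x y
  · intro x y hxy
    obtain ⟨z, ⟨a, ha, hza⟩, h3⟩ := blk h (R x) (K := Av e J (Sm e J x)) le_rfl
      (fun a _ b hb hb' => absurd hb hb') (y := y) hxy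
    exact ⟨z, a, h3, ha, hza⟩
  · intro x y hxy
    obtain ⟨m, hm⟩ := hno x
    exact fb_one h (R x) (hm m le_rfl) hxy
  · intro a b c d f hall hab hbc hcd hdf hfa r1 r2 r3 r4 r5 f1 f2 f3 f4 f5 g1 g2 g3 g4 g5
    have h1 := pent h hall hab hbc hcd hdf hfa r1 r2 r3 r4 r5 (H _ _ f1) (H _ _ f2) (H _ _ f3) (H _ _ f4) (H _ _ f5)
      (H _ _ g1) (H _ _ g2) (H _ _ g3) (H _ _ g4) (H _ _ g5) (R a)
    exact H _ _ h1 (Rl_refl h a)

end

end Pool.Agent.SVR
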