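import Pool.Agent.SVR.Abs5

/-!
# SVR/Hub: one vertex on all cycles
-/

set_option autoImplicit false

open CategoryTheory Abelian Pool.Agent.PathAlg

universe u

namespace Pool.Agent.SVR

variable {Λ : Type u} [Ring Λ] {V : Type} [Fintype V] {e : V → Λ} {J : Ideal Λ}

/-- in a finite set in which each element has a predecessor there is no height function which decreases along all arrows -/
theorem hub_pred {V : Type} [Fintype V] {R : V → V → Prop} {B : Set V} (hne : B.Nonempty) (hB : ∀ x ∈ B, ∃ z ∈ B, z ≠ x ∧ R z x)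
    (f : V → ℕ) (hf : ∀ a ∈ B, ∀ b ∈ B, a ≠ b → R a b → f b < f a) : False := by
  classical
  obtain ⟨x, hx, hmax⟩ := (Set.toFinite B).exists_maximalFor f B hne
  obtain ⟨z, hz, hzx, hR⟩ := hB x hx
  have h1 := hf z hz x hx hzx hR
  have h2 := hmax hz h1.le
  omega

/-- in a finite set some element has no arrows to the others if a height function decreases along the arrows -/
theorem hub_source {V : Type} [Fintype V] {R : V → V → Prop} {A : Set V} (hne : A.Nonempty)
    (f : V → ℕ) (hf : ∀ a ∈ A, ∀ b ∈ A, a ≠ b → R a b → f b < f a) : ∃ y ∈ A, ∀ a ∈ A, a ≠ y → ¬ R y a := by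
  classical
  obtain ⟨y, hy, hmin⟩ := (Set.toFinite A).exists_minimalFor f A hne
  refine ⟨y, hy, fun a ha hne hR => ?_⟩
  have h1 := hf y hy a ha (Ne.symm hne) hR
  have h2 := hmin ha h1.le
  omega

section
variable [IsArtinianRing Λ] [IsNoetherianRing Λ]

/-- **One vertex on all cycles.** -/
theorem hub (h : Vr e J) (v : V) (f : V → ℕ) (hf : ∀ a b, a ≠ v → b ≠ v → a ≠ b → Rl e a b → f b < f a)
    (R : ∀ x, MinRes (Sm e J x)) (hno : ∀ x, ∃ m, ∀ n, m ≤ n → ∀ w : (R x).N n, e x • w = 0) (x y : V) :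
    ¬ Inf (Sm e J x) (Sm e J y) := by
  classical
  have H : ∀ x y, Inf (Sm e J x) (Sm e J y) → ¬ Rl e x y := by
    rintro x y h1 ⟨c, hc⟩
    exact hc (norec_rel h (R x) (hno x) h1 c)
  -- `v` lies in all the sets `B y`
  have hv : ∀ {x y}, Inf (Sm e J x) (Sm e J y) → Inf (Sm e J v) (Sm e J y) := by
    intro x y hxy
    by_contra hvy
    refine hub_pred (R := Rl e) (B := {x | Inf (Sm e J x) (Sm e J y)}) ⟨x, hxy⟩ ?_ f ?_
    · intro a ha
      obtain ⟨m, hm⟩ := hno a
      obtain ⟨z, hz, h1, h2⟩ := fb_one h (R a) (hm m le_rfl) ha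
      exact ⟨z, h1, hz, h2⟩
    · intro a ha b hb hab hR
      refine hf a b ?_ ?_ hab hR
      · rintro rfl
        exact hvy ha
      · rintro rfl
        exact hvy hb
  intro hxy
  have hvy := hv hxy
  -- a source of the essential vertices
  obtain ⟨s, hs, hsrc⟩ := hub_source (R := Rl e) (A := {y | Inf (Sm e J v) (Sm e J y)}) ⟨y, hvy⟩ f (by
    intro a ha b hb hab hR
    refine hf a b ?_ ?_ hab hR
    · rintro rfl
      exact H _ _ ha (Rl_refl h a)
    · rintro rfl
      exact H _ _ hb (Rl_refl h b))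
  have hsv : Inf (Sm e J v) (Sm e J s) := hs
  have hne : s ≠ v := by
    rintro rfl
    exact H _ _ hsv (Rl_refl h s)
  obtain ⟨w, hw, c, d, hcd⟩ := ret h (R s) (hno s) (R v) hsv (fun a ha hne' => hsrc a ha hne')
  have h1 : Rl e s w := ⟨c, fun h3 => hcd (by rw [h3, zero_mul, zero_mul])⟩
  have h2 : Rl e w s := ⟨d, fun h3 => hcd (by
    have h4 : e s * c * e w * d * e s = e s * c * (e w * d * e s) := by simp only [mul_assoc]
    rw [h4, h3, mul_zero])⟩
  by_cases hwv : w = v
  · subst hwv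
    exact H _ _ hsv h2
  · have h3 := hf s w hne hwv (Ne.symm hw) h1
    have h4 := hf w s hwv hne hw h2
    omega

end

end Pool.Agent.SVR
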