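import Pool.Agent.SVR.Fb

/-!
# SVR/Pdc: products in the Ext algebra
-/

set_option autoImplicit false

open CategoryTheory Abelian Pool.Agent.PathAlg

universe u

namespace Pool.Agent.SVR

variable {Λ : Type u} [Ring Λ] {V : Type} {e : V → Λ} {J : Ideal Λ}

/-- `Pd T d U x y n ξ`: the class `ξ` of degree `n` from `T x` to `T y` is a product of classes of degrees between `1` and `d`
between the modules `T z`; the vertices before the last one are in `U` -/
inductive Pd (T : V → ModuleCat.{u} Λ) (d : ℕ) (U : Set V) (x : V) : (y : V) → (n : ℕ) → Ext (T x) (T y) n → Prop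
  | one : Pd T d U x x 0 (Ext.mk₀ (𝟙 (T x)))
  | snoc {z y : V} {n i m : ℕ} {ζ : Ext (T x) (T z) n} (hz : z ∈ U) (hi : 1 ≤ i) (hid : i ≤ d) (β : Ext (T z) (T y) i)
      (hζ : Pd T d U x z n ζ) (hm : n + i = m) : Pd T d U x y m (ζ.comp β hm)

variable {T : V → ModuleCat.{u} Λ} {d : ℕ}

theorem Pd.mono {U U' : Set V} (hU : U ⊆ U') {x y : V} {n : ℕ} {ξ : Ext (T x) (T y) n} (h : Pd T d U x y n ξ) : Pd T d U' x y n ξ := by
  induction h with
  | one => exact Pd.one
  | snoc hz hi hid β _ hm ih => exact Pd.snoc (hU hz) hi hid β ih hm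

/-- the first occurrence of a vertex -/
theorem Pd.split {U : Set V} (a : V) {x y : V} {n : ℕ} {ξ : Ext (T x) (T y) n} (h : Pd T d U x y n ξ) :
    Pd T d (U \ {a}) x y n ξ ∨ ∃ (p q : ℕ) (hpq : p + q = n) (ξ₁ : Ext (T x) (T a) p) (ξ₂ : Ext (T a) (T y) q),
      Pd T d (U \ {a}) x a p ξ₁ ∧ Pd T d U a y q ξ₂ ∧ ξ = ξ₁.comp ξ₂ hpq := by
  induction h with
  | one => exact Or.inl Pd.one
  | @snoc z y n i m ζ hz hi hid β hζ hm ih =>
    subst hm
    rcases ih with h1 | ⟨p, q, hpq, ξ₁, ξ₂, h1, h2, h3⟩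
    · by_cases hza : z = a
      · subst hza
        refine Or.inr ⟨n, i, rfl, ζ, β, h1, ?_, rfl⟩
        have h4 := Pd.snoc (T := T) (d := d) (U := U) (x := z) hz hi hid β Pd.one (zero_add i)
        rwa [Ext.mk₀_id_comp] at h4
      · have hz2 : z ∈ U \ {a} := ⟨hz, hza⟩
        exact Or.inl (Pd.snoc hz2 hi hid β h1 rfl)
    · subst hpq
      refine Or.inr ⟨p, q + i, by omega, ξ₁, ξ₂.comp β rfl, h1, Pd.snoc hz hi hid β h2 rfl, ?_⟩
      rw [h3]
      exact Ext.comp_assoc _ _ _ _ _ (by omega)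

theorem comp_ne_left {X Y Z : ModuleCat.{u} Λ} {p q n : ℕ} {a : Ext X Y p} {b : Ext Y Z q} {h : p + q = n} (hab : a.comp b h ≠ 0) :
    a ≠ 0 := by
  rintro rfl
  exact hab (by rw [Ext.zero_comp])

theorem comp_ne_right {X Y Z : ModuleCat.{u} Λ} {p q n : ℕ} {a : Ext X Y p} {b : Ext Y Z q} {h : p + q = n} (hab : a.comp b h ≠ 0) :
    b ≠ 0 := by
  rintro rfl
  exact hab (by rw [Ext.comp_zero])

/-- **Products are short if no vertex has late self-extensions.** -/
theorem Pd.bound {D : ℕ} (hD : ∀ z m, D ≤ m → ∀ ξ : Ext (T z) (T z) m, ξ = 0) (U : Finset V) {x y : V} {n : ℕ}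
    {ξ : Ext (T x) (T y) n} (h : Pd T d (U : Set V) x y n ξ) (hξ : ξ ≠ 0) : n ≤ U.card * (D + d) := by
  classical
  induction U using Finset.strongInduction generalizing x y n with
  | H U ih =>
    cases h with
    | one => exact Nat.zero_le _
    | @snoc z _ n i m ζ hz hi hid β hζ hm =>
      subst hm
      have hz' : z ∈ U := hz
      have hlt : U.erase z ⊂ U := Finset.erase_ssubset hz'
      have hset : ((U.erase z : Finset V) : Set V) = (U : Set V) \ {z} := by
        ext w
        simp [and_comm]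
      have hcard : (U.erase z).card + 1 = U.card := Finset.card_erase_add_one hz'
      have hζ0 := comp_ne_left hξ
      rcases Pd.split z hζ with h1 | ⟨p, q, hpq, ξ₁, ξ₂, h1, h2, h3⟩
      · rw [← hset] at h1
        have h4 := ih _ hlt h1 hζ0
        have h5 : U.card * (D + d) = (U.erase z).card * (D + d) + (D + d) := by rw [← hcard]; ring
        omega
      · rw [← hset] at h1
        rw [h3] at hζ0
        have h4 := ih _ hlt h1 (comp_ne_left hζ0)
        have h5 : q < D := by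
          by_contra hq
          exact comp_ne_right hζ0 (hD z q (not_lt.1 hq) _)
        have h6 : U.card * (D + d) = (U.erase z).card * (D + d) + (D + d) := by rw [← hcard]; ring
        omega

/-- **Long products give a recurring vertex.** -/
theorem Pd.long [Fintype V] (hlong : ∀ m : ℕ, ∃ n, m ≤ n ∧ ∃ (x y : V) (ξ : Ext (T x) (T y) n), Pd T d Set.univ x y n ξ ∧ ξ ≠ 0) :
    ∃ z, ∀ m : ℕ, ∃ n, m ≤ n ∧ Nontrivial (Ext (T z) (T z) n) := by
  classical
  by_contra hc
  push Not at hc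
  choose D hD using hc
  have h1 : ∀ z m, (Finset.univ.sup D) ≤ m → ∀ ξ : Ext (T z) (T z) m, ξ = 0 := by
    intro z m hm ξ
    have h2 := hD z m ((Finset.le_sup (Finset.mem_univ z)).trans hm)
    exact Subsingleton.elim _ _
  obtain ⟨n, hn, x, y, ξ, hP, hξ⟩ := hlong ((Finset.univ : Finset V).card * (Finset.univ.sup D + d) + 1)
  have h2 := Pd.bound h1 Finset.univ (by rwa [Finset.coe_univ]) hξ
  omega

end Pool.Agent.SVR
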