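import Pool.Agent.SVR.Std
import Pool.Agent.SVR.Pdc

/-!
# SVR/Cub: rings with `J^3 = 0`
-/

set_option autoImplicit false

open CategoryTheory Abelian Pool.Agent.PathAlg

universe u

namespace Pool.Agent.SVR

variable {Λ : Type u} [Ring Λ] {V : Type} [Fintype V] {e : V → Λ} {J : Ideal Λ}

section
variable {A B C : Type u} [AddCommGroup A] [Module Λ A] [AddCommGroup B] [Module Λ B] [AddCommGroup C] [Module Λ C]
  {i : A →ₗ[Λ] B} {p : B →ₗ[Λ] C}

/-- the connecting map is injective -/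
theorem conn_inj (hi : Function.Injective i) (hp : Function.Surjective p) (hex : LinearMap.range i = LinearMap.ker p)
    (hP : Module.Projective Λ B) {S : ModuleCat.{u} Λ} (hv : ∀ (f : B →ₗ[Λ] S) (a : A), f (i a) = 0) {j k : ℕ} (hk : 1 + j = k)
    (ξ : Ext (ModuleCat.of Λ A) S j) (hξ : (exa_ses hi hp hex).extClass.comp ξ hk = 0) : ξ = 0 := by
  have hproj : Projective (ModuleCat.of Λ B) := (IsProjective.iff_projective (R := Λ) B).1 hP
  obtain ⟨y, hy⟩ := Ext.contravariant_sequence_exact₁ (exa_ses hi hp hex) S ξ hk hξ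
  cases j with
  | zero =>
    obtain ⟨g, rfl⟩ := Ext.addEquiv₀.symm.surjective y
    rw [← hy]
    have h2 : (Ext.mk₀ (ModuleCat.ofHom i)).comp (Ext.mk₀ g) (zero_add 0) = Ext.mk₀ (ModuleCat.ofHom i ≫ g) := Ext.mk₀_comp_mk₀ _ _
    have h3 : ModuleCat.ofHom i ≫ g = 0 := by
      ext a
      exact hv g.hom a
    rw [h3, Ext.mk₀_zero] at h2
    exact h2
  | succ j =>
    have hB : Subsingleton (Ext (ModuleCat.of Λ B) S (j + 1)) := Ext.subsingleton_of_projective _ _ _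
    have hy0 : y = 0 := Subsingleton.elim _ _
    rw [← hy, hy0, Ext.comp_zero]

end

/-- a retraction gives an injective map on Ext groups -/
theorem retr_inj {X Y S : ModuleCat.{u} Λ} (i : X →ₗ[Λ] Y) (p : Y →ₗ[Λ] X) (hpi : ∀ w, p (i w) = w) {j : ℕ} (ξ : Ext X S j)
    (hξ : (Ext.mk₀ (ModuleCat.ofHom p)).comp ξ (zero_add j) = 0) : ξ = 0 := by
  have h1 : (Ext.mk₀ (ModuleCat.ofHom i)).comp ((Ext.mk₀ (ModuleCat.ofHom p)).comp ξ (zero_add j)) (zero_add j) = ξ := by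
    rw [← Ext.comp_assoc _ _ _ (zero_add 0) (zero_add j) (by omega), Ext.mk₀_comp_mk₀]
    have h2 : ModuleCat.ofHom i ≫ ModuleCat.ofHom p = 𝟙 X := by
      ext w
      exact hpi w
    rw [h2]
    exact Ext.mk₀_id_comp ξ
  rw [← h1, hξ, Ext.comp_zero]

/-- `S_z` is built into the resolution of `S_x`, shifted by `n` -/
def Wr (e : V → Λ) (J : Ideal Λ) (n : ℕ) (x z : V) : Prop :=
  ∀ (m : ℕ) (y : V), Nontrivial (Ext (Sm e J z) (Sm e J y) m) → Nontrivial (Ext (Sm e J x) (Sm e J y) (n + m))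

omit [Fintype V] in
theorem Wr.trans {n n' : ℕ} {x z w : V} (h : Wr e J n x z) (h' : Wr e J n' z w) : Wr e J (n + n') x w := by
  intro m y hm
  rw [Nat.add_assoc]
  exact h _ _ (h' _ _ hm)

theorem Wr.loop (h : Vr e J) {n : ℕ} (hn : 1 ≤ n) {x : V} (hx : Wr e J n x x) : Inf (Sm e J x) (Sm e J x) := by
  have key : ∀ k, Nontrivial (Ext (Sm e J x) (Sm e J x) (k * n)) := by
    intro k
    induction k with
    | zero =>
      rw [Nat.zero_mul, exa_hom]
      refine ⟨LinearMap.id, fun h0 => ?_⟩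
      have := h.simple x
      have : Nontrivial (Sm e J x) := IsSimpleModule.nontrivial Λ _
      obtain ⟨s, hs⟩ := exists_ne (0 : Sm e J x)
      exact hs (congrArg (fun F : Sm e J x →ₗ[Λ] Sm e J x => F s) h0)
    | succ k ih =>
      have h1 := hx _ _ ih
      rw [Nat.succ_mul, Nat.add_comm]
      exact h1
  intro m
  exact ⟨m * n, Nat.le_mul_of_pos_right m hn, key m⟩

/-- the strand -/
structure Str (e : V → Λ) (J : Ideal Λ) (x y0 : V) (n : ℕ) where
  M : ModuleCat.{u} Λ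
  fin : Module.Finite Λ M
  sq : ∀ a ∈ J, ∀ b ∈ J, ∀ m : M, a • b • m = 0
  c : Ext (Sm e J x) M n
  cinj : ∀ (y : V) (j k : ℕ) (hk : n + j = k) (ξ : Ext M (Sm e J y) j), c.comp ξ hk = 0 → ξ = 0
  prod : ∀ (y : V) (f : M →ₗ[Λ] Sm e J y) (w : V) (j k : ℕ) (hk : n + j = k) (η : Ext (Sm e J y) (Sm e J w) j),
    (c.comp (Ext.mk₀ (ModuleCat.ofHom f)) (add_zero n)).comp η hk ≠ 0 →
      ∃ ζ : Ext (Sm e J x) (Sm e J y) n, Pd (Sm e J) 1 Set.univ x y n ζ ∧ ζ.comp η hk ≠ 0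
  inf : Inf M (Sm e J y0)

/-- the start of the strand -/
theorem str_zero [IsArtinianRing Λ] [IsNoetherianRing Λ] (h : Vr e J) {x y0 : V} (hy0 : Inf (Sm e J x) (Sm e J y0)) :
    Nonempty (Str e J x y0 0) := by
  have hk : ∀ a ∈ J, ∀ t : Sm e J x, a • t = 0 := fun a ha t => h.kill (h.simple x) ha t
  refine ⟨{
    M := Sm e J x
    fin := by
      show Module.Finite Λ (Λ ⧸ Lz e J x)
      infer_instance
    sq := fun a ha b hb m => by rw [hk b hb, smul_zero]
    c := Ext.mk₀ (𝟙 _)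
    cinj := fun y j k hk ξ hξ => by
      obtain rfl : j = k := by omega
      rw [← hξ]
      exact (Ext.mk₀_id_comp ξ).symm
    prod := ?_
    inf := hy0 }⟩
  intro y f w j k hk' η hη
  have hf : f ≠ 0 := by
    rintro rfl
    apply hη
    have h1 : (ModuleCat.ofHom (0 : Sm e J x →ₗ[Λ] Sm e J y)) = 0 := rfl
    rw [h1, Ext.mk₀_zero, Ext.comp_zero, Ext.zero_comp]
  have hxy : x = y := by
    by_contra hne
    apply hf
    refine LinearMap.ext fun s => ?_
    obtain ⟨a, rfl⟩ := Submodule.Quotient.mk_surjective _ s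
    have h1 : (Submodule.Quotient.mk a : Λ ⧸ Lz e J x) = a • e x • (Submodule.Quotient.mk 1 : Λ ⧸ Lz e J x) := by
      have h3 : a • e x • (Submodule.Quotient.mk 1 : Λ ⧸ Lz e J x) = Submodule.Quotient.mk (a * (e x * 1)) := rfl
      rw [h3, Submodule.Quotient.eq, mul_one]
      have h4 : a - a * e x = a * (1 - e x) := by rw [mul_sub, mul_one]
      rw [h4]
      exact h.one_sub_mem x a
    show f (Submodule.Quotient.mk a : Λ ⧸ Lz e J x) = 0
    rw [h1]
    have h2 : f (a • e x • (Submodule.Quotient.mk 1 : Λ ⧸ Lz e J x)) = a • e x • f (Submodule.Quotient.mk 1 : Λ ⧸ Lz e J x) := by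
      exact (map_smul f a (e x • (Submodule.Quotient.mk 1 : Λ ⧸ Lz e J x))).trans (congrArg (a • ·) (map_smul f (e x) _))
    rw [h2, h.Sm_ne hne, smul_zero]
  subst hxy
  obtain rfl : j = k := by omega
  have hη0 : η ≠ 0 := by
    rintro rfl
    exact hη (by rw [Ext.comp_zero])
  exact ⟨Ext.mk₀ (𝟙 _), Pd.one, by
    have h1 : (Ext.mk₀ (𝟙 (Sm e J x))).comp η (zero_add j) = η := Ext.mk₀_id_comp η
    rw [h1]
    exact hη0⟩

section art
variable [IsArtinianRing Λ] [IsNoetherianRing Λ]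

/-- **The step of the strand.** -/
theorem str_succ (h : Vr e J) (h3 : ∀ a ∈ J, ∀ b ∈ J, ∀ c ∈ J, a * b * c = 0) {x y0 : V}
    (hW : ∀ n z, 1 ≤ n → Wr e J n x z → ¬ Inf (Sm e J z) (Sm e J y0)) {n : ℕ} (s : Str e J x y0 n) :
    Nonempty (Str e J x y0 (n + 1)) := by
  obtain ⟨M, fin, sq, c, cinj, prod, inf⟩ := s
  obtain ⟨t⟩ := exists_stp h h3 M sq
  obtain ⟨P, K, M', L, finM', finL, π, cov, ι, inj, ex, i, p, pi, ρ, l, ρl, ex', kL, kM, rad, ext⟩ := t
  have hs1 := exa_ses inj cov.2.1 ex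
  have hv : ∀ (y : V) (f : P →ₗ[Λ] Sm e J y) (a : K), f (ι a) = 0 := by
    intro y f a
    have h1 : ι a ∈ LinearMap.ker π := by
      rw [← ex]
      exact ⟨a, rfl⟩
    exact cover_kill cov (h.simple y) f ⟨ι a, h1⟩
  have hE : ∀ (y : V) (j k : ℕ) (hk : 1 + j = k) (ξ : Ext K (Sm e J y) j), hs1.extClass.comp ξ hk = 0 → ξ = 0 := by
    intro y j k hk ξ hξ
    exact conn_inj inj cov.2.1 ex cov.1 (hv y) hk ξ hξ
  refine ⟨{
    M := M'
    fin := finM'
    sq := kM
    c := c.comp (hs1.extClass.comp (Ext.mk₀ (ModuleCat.ofHom p)) (add_zero 1)) rfl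
    cinj := ?_
    prod := ?_
    inf := ?_ }⟩
  · intro y j k hk ξ hξ
    apply retr_inj i p pi
    apply hE y j (1 + j) rfl
    apply cinj y (1 + j) k (by omega)
    rw [← hξ, Ext.comp_assoc (a₂₃ := 1 + j) _ _ _ _ rfl (by omega), Ext.comp_assoc (a₂₃ := j) _ _ _ _ (zero_add j) (by omega)]
  · intro y f w j k hk η hη
    obtain ⟨g, hg⟩ := ext y f
    -- the morphism of short exact sequences
    let κ : K →ₗ[Λ] Rd J P := LinearMap.codRestrict (Rd J P) ι rad
    have hker : LinearMap.ker π ≤ Rd J P := by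
      intro v hv'
      rw [← ex] at hv'
      obtain ⟨v, rfl⟩ := hv'
      exact rad v
    let q0 : (P ⧸ LinearMap.ker π) →ₗ[Λ] (P ⧸ Rd J P) := Submodule.mapQ _ _ LinearMap.id hker
    let q : M →ₗ[Λ] (P ⧸ Rd J P) := q0 ∘ₗ (π.quotKerEquivOfSurjective cov.2.1).symm.toLinearMap
    have hq : ∀ v : P, q (π v) = (Rd J P).mkQ v := by
      intro v
      show q0 ((π.quotKerEquivOfSurjective cov.2.1).symm (π v)) = _
      have h1 : (π.quotKerEquivOfSurjective cov.2.1).symm (π v) = (LinearMap.ker π).mkQ v := by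
        rw [LinearEquiv.symm_apply_eq]
        rfl
      rw [h1]
      rfl
    have hs2 := exa_ses (i := (Rd J P).subtype) (p := (Rd J P).mkQ) (Submodule.injective_subtype _)
      (Submodule.mkQ_surjective _) (by rw [Submodule.range_subtype, Submodule.ker_mkQ])
    let φ : ShortComplex.mk (ModuleCat.ofHom ι) (ModuleCat.ofHom π) (exa_zero ex) ⟶
        ShortComplex.mk (ModuleCat.ofHom (Rd J P).subtype) (ModuleCat.ofHom (Rd J P).mkQ)
          (exa_zero (by rw [Submodule.range_subtype, Submodule.ker_mkQ])) :=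
      { τ₁ := ModuleCat.ofHom κ
        τ₂ := 𝟙 _
        τ₃ := ModuleCat.ofHom q
        comm₁₂ := by
          ext v
          rfl
        comm₂₃ := by
          ext v
          exact (hq v).symm }
    have hnat := ShortComplex.ShortExact.extClass_naturality hs1 hs2 φ
    have hnat' : hs1.extClass.comp (Ext.mk₀ (ModuleCat.ofHom κ)) (add_zero 1) =
        (Ext.mk₀ (ModuleCat.ofHom q)).comp hs2.extClass (zero_add 1) := hnat
    let θ : Ext (ModuleCat.of Λ (P ⧸ Rd J P)) (Sm e J y) 1 := hs2.extClass.comp (Ext.mk₀ (ModuleCat.ofHom g)) (add_zero 1)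
    have h4 : (hs1.extClass.comp (Ext.mk₀ (ModuleCat.ofHom p)) (add_zero 1)).comp (Ext.mk₀ (ModuleCat.ofHom f)) (add_zero 1) =
        (Ext.mk₀ (ModuleCat.ofHom q)).comp θ (zero_add 1) := by
      have h5 : ModuleCat.ofHom p ≫ ModuleCat.ofHom f = ModuleCat.ofHom κ ≫ ModuleCat.ofHom g := by
        ext v
        exact (hg v).symm
      calc (hs1.extClass.comp (Ext.mk₀ (ModuleCat.ofHom p)) (add_zero 1)).comp (Ext.mk₀ (ModuleCat.ofHom f)) (add_zero 1)
          = hs1.extClass.comp ((Ext.mk₀ (ModuleCat.ofHom p)).comp (Ext.mk₀ (ModuleCat.ofHom f)) (zero_add 0)) (add_zero 1) :=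
            Ext.comp_assoc _ _ _ _ _ (by omega)
        _ = hs1.extClass.comp ((Ext.mk₀ (ModuleCat.ofHom κ)).comp (Ext.mk₀ (ModuleCat.ofHom g)) (zero_add 0)) (add_zero 1) := by
            rw [Ext.mk₀_comp_mk₀, h5, ← Ext.mk₀_comp_mk₀]
        _ = (hs1.extClass.comp (Ext.mk₀ (ModuleCat.ofHom κ)) (add_zero 1)).comp (Ext.mk₀ (ModuleCat.ofHom g)) (add_zero 1) :=
            (Ext.comp_assoc _ _ _ _ _ (by omega)).symm
        _ = ((Ext.mk₀ (ModuleCat.ofHom q)).comp hs2.extClass (zero_add 1)).comp (Ext.mk₀ (ModuleCat.ofHom g)) (add_zero 1) := by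
            rw [hnat']
        _ = _ := Ext.comp_assoc _ _ _ _ _ (by omega)
    -- the decomposition of the top
    have finP : Module.Finite Λ (P ⧸ Rd J P) := by
      have : Function.Surjective q := by
        intro v
        obtain ⟨v, rfl⟩ := (Rd J P).mkQ_surjective v
        exact ⟨π v, hq v⟩
      exact Module.Finite.of_surjective q this
    have hkT : ∀ a ∈ J, ∀ v : P ⧸ Rd J P, a • v = 0 := by
      intro a ha v
      obtain ⟨v, rfl⟩ := (Rd J P).mkQ_surjective v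
      rw [← map_smul, Submodule.mkQ_apply, Submodule.Quotient.mk_eq_zero]
      exact Submodule.subset_span ⟨a, ha, v, rfl⟩
    obtain ⟨N, z, pp, qq, hdec⟩ := sem_dec h hkT
    have hid : 𝟙 (ModuleCat.of Λ (P ⧸ Rd J P)) = ∑ r, ModuleCat.ofHom (pp r) ≫ ModuleCat.ofHom (qq r) := by
      apply ModuleCat.hom_ext
      refine LinearMap.ext fun v => ?_
      rw [ModuleCat.hom_sum]
      rw [LinearMap.sum_apply]
      exact (hdec v).symm
    have h5 : (c.comp (hs1.extClass.comp (Ext.mk₀ (ModuleCat.ofHom p)) (add_zero 1)) rfl).comp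
        (Ext.mk₀ (ModuleCat.ofHom f)) (add_zero (n + 1)) =
        ∑ r, (c.comp (Ext.mk₀ (ModuleCat.ofHom (pp r ∘ₗ q))) (add_zero n)).comp
          ((Ext.mk₀ (ModuleCat.ofHom (qq r))).comp θ (zero_add 1)) rfl := by
      calc _ = c.comp ((hs1.extClass.comp (Ext.mk₀ (ModuleCat.ofHom p)) (add_zero 1)).comp (Ext.mk₀ (ModuleCat.ofHom f))
              (add_zero 1)) rfl := Ext.comp_assoc _ _ _ _ _ (by omega)
        _ = c.comp ((Ext.mk₀ (ModuleCat.ofHom q)).comp θ (zero_add 1)) rfl := by rw [h4]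
        _ = c.comp ((Ext.mk₀ (ModuleCat.ofHom q)).comp ((Ext.mk₀ (𝟙 _)).comp θ (zero_add 1)) (zero_add 1)) rfl := by
            rw [Ext.mk₀_id_comp]
        _ = ∑ r, c.comp ((Ext.mk₀ (ModuleCat.ofHom q)).comp
              ((Ext.mk₀ (ModuleCat.ofHom (pp r) ≫ ModuleCat.ofHom (qq r))).comp θ (zero_add 1)) (zero_add 1)) rfl := by
            rw [hid, Ext.mk₀_sum, Ext.sum_comp, Ext.comp_sum, Ext.comp_sum]
        _ = _ := by
            refine Finset.sum_congr rfl fun r _ => ?_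
            have h6 : (ModuleCat.ofHom (pp r ∘ₗ q) : M ⟶ Sm e J (z r)) = ModuleCat.ofHom q ≫ ModuleCat.ofHom (pp r) := rfl
            rw [h6, ← Ext.mk₀_comp_mk₀, ← Ext.mk₀_comp_mk₀]
            rw [Ext.comp_assoc (a₂₃ := 1) _ _ _ _ (zero_add 1) (by omega), Ext.comp_assoc (a₂₃ := 1) _ _ _ _ (zero_add 1) (by omega),
              Ext.comp_assoc (a₂₃ := 1) _ _ _ _ (zero_add 1) (by omega)]
    rw [h5, Ext.sum_comp] at hη
    obtain ⟨r, -, hr⟩ := Finset.exists_ne_zero_of_sum_ne_zero hη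
    rw [Ext.comp_assoc (a₂₃ := 1 + j) _ _ _ _ rfl (by omega)] at hr
    obtain ⟨ζ, hζ, hζη⟩ := prod (z r) (pp r ∘ₗ q) w (1 + j) k (by omega) _ hr
    refine ⟨ζ.comp ((Ext.mk₀ (ModuleCat.ofHom (qq r))).comp θ (zero_add 1)) rfl, Pd.snoc (Set.mem_univ _) le_rfl le_rfl _ hζ rfl, ?_⟩
    rw [Ext.comp_assoc (a₂₃ := 1 + j) _ _ _ _ rfl (by omega)]
    exact hζη
  · have h4 : Inf K (Sm e J y0) := (inf_shift inj cov.2.1 ex cov.1).1 inf
    have h5 : Function.Injective i := fun a b hab => by rw [← pi a, ← pi b, hab]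
    have h6 : Function.Surjective ρ := fun w => ⟨l w, ρl w⟩
    rcases inf_mid h5 h6 ex' h4 with h7 | h7
    · exact h7
    · exfalso
      have hfl : IsFiniteLength Λ L := isFiniteLength_iff_isNoetherian_isArtinian.2 ⟨inferInstance, inferInstance⟩
      obtain ⟨z, ⟨v, hv'⟩, h8⟩ := h.filt hfl h7
      obtain ⟨f, g, hgf⟩ := sem_retract h kL hv'
      refine hW (n + 1) z (by omega) ?_ h8
      intro m y hm
      obtain ⟨ξ, hξ⟩ := exists_ne (0 : Ext (Sm e J z) (Sm e J y) m)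
      refine ⟨⟨c.comp (hs1.extClass.comp ((Ext.mk₀ (ModuleCat.ofHom (g ∘ₗ ρ))).comp ξ (zero_add m)) rfl) (by omega), 0, fun h9 => ?_⟩⟩
      apply hξ
      apply retr_inj (l ∘ₗ f) (g ∘ₗ ρ) (fun w => by
        show g (ρ (l (f w))) = w
        rw [ρl]
        exact congrArg (fun F : Sm e J z →ₗ[Λ] Sm e J z => F w) hgf)
      apply hE y m (1 + m) rfl
      exact cinj y (1 + m) _ (by omega) _ h9

omit [IsArtinianRing Λ] [IsNoetherianRing Λ] in
/-- a nonzero product in every degree -/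
theorem str_prod (h : Vr e J) {x y0 : V} {n : ℕ} (s : Str e J x y0 n) :
    ∃ (y : V) (ζ : Ext (Sm e J x) (Sm e J y) n), Pd (Sm e J) 1 Set.univ x y n ζ ∧ ζ ≠ 0 := by
  obtain ⟨M, fin, sq, c, cinj, prod, inf⟩ := s
  have h1 : ∃ (y : V) (f : M →ₗ[Λ] Sm e J y), f ≠ 0 := by
    by_contra hc
    push Not at hc
    have h2 : Gen e ∅ M = ⊤ := h.gen_of_hom (M := M) (A := ∅) fun y _ f => hc y f
    have h3 : Gen e ∅ M = ⊥ := by
      unfold Gen
      rw [Submodule.span_eq_bot]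
      rintro w ⟨a, ha, -⟩
      exact absurd ha (Set.notMem_empty a)
    rw [h3] at h2
    have h4 : Subsingleton M := Submodule.subsingleton_iff Λ |>.1 (subsingleton_of_bot_eq_top h2)
    obtain ⟨j, -, hj⟩ := inf 0
    exact ext_sub hj
  obtain ⟨y, f, hf⟩ := h1
  have h2 : (c.comp (Ext.mk₀ (ModuleCat.ofHom f)) (add_zero n)).comp (Ext.mk₀ (𝟙 (Sm e J y))) (add_zero n) ≠ 0 := by
    rw [Ext.comp_mk₀_id]
    intro h3
    have h4 := cinj y 0 n (add_zero n) _ h3
    have h5 : ModuleCat.ofHom f = 0 := by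
      apply Ext.addEquiv₀.symm.injective
      rw [map_zero]
      exact h4
    apply hf
    refine LinearMap.ext fun w => ?_
    exact congrArg (fun F : M ⟶ Sm e J y => F.hom w) h5
  obtain ⟨ζ, hζ, hζ2⟩ := prod y f y 0 n (add_zero n) _ h2
  rw [Ext.comp_mk₀_id] at hζ2
  exact ⟨y, ζ, hζ, hζ2⟩

/-- **Rings with `J^3 = 0`.** -/
theorem cub (h : Vr e J) (h3 : ∀ a ∈ J, ∀ b ∈ J, ∀ c ∈ J, a * b * c = 0) {x y : V} (hxy : Inf (Sm e J x) (Sm e J y)) :
    ∃ z, Inf (Sm e J z) (Sm e J z) := by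
  by_contra hc
  push Not at hc
  let r : V → V → Prop := fun z x => ∃ n, 1 ≤ n ∧ Wr e J n x z
  have htr : IsTrans V r := ⟨by
    rintro a b c ⟨n, hn, h1⟩ ⟨m, hm, h2⟩
    exact ⟨m + n, by omega, h2.trans h1⟩⟩
  have hirr : Std.Irrefl r := ⟨by
    rintro a ⟨n, hn, h1⟩
    exact hc a (h1.loop h hn)⟩
  have hwf : WellFounded r := Finite.wellFounded_of_trans_of_irrefl r
  revert y
  induction x using hwf.induction with
  | _ x ih =>
    intro y hxy
    have hstr : ∀ n, Nonempty (Str e J x y n) := by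
      intro n
      induction n with
      | zero => exact str_zero h hxy
      | succ n ihn =>
        obtain ⟨s⟩ := ihn
        exact str_succ h h3 (fun m z hm hz hinf => ih z ⟨m, hm, hz⟩ hinf) s
    obtain ⟨z, hz⟩ := Pd.long (T := Sm e J) (d := 1) (fun m => by
      obtain ⟨s⟩ := hstr m
      obtain ⟨w, ζ, h1, h2⟩ := str_prod h s
      exact ⟨m, le_rfl, x, w, ζ, h1, h2⟩)
    exact hc z hz

end art

end Pool.Agent.SVR
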