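import Mathlib

/-!
# SVR/Comb: the combinatorial part: at most four vertices
-/

set_option autoImplicit false

namespace Pool.Agent.SVR

theorem comb_prop {rxc rac rbx rba rbc rcx rca fxc fax fac fbx fba fbc fcx fca rx rax : Prop}
    (h1 : fxc → ¬ rxc) (h5 : fba → ¬ rba) (h6 : fbc → ¬ rbc) (h7 : fcx → ¬ rcx)
    (b1 : fba ∨ (fca ∧ fxc)) (b3 : fxc → fac ∨ fbc) (b5 : fac → (fxc ∧ fax) ∨ (fbc ∧ fax ∧ rbx)) (b11 : fcx)
    (c3 : fxc → rca ∨ rac ∨ rbc) (c4 : fax → fac ∧ (rxc ∨ rcx))
    (c8 : fbc → (fbx ∧ (rcx ∨ rxc)) ∨ (fba ∧ (rca ∨ rac)))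
    (ts : ¬ (¬ rba ∧ (fxc → ¬ rbc))) : False := by
  grind

/-- **At most four vertices.** -/
theorem comb {V : Type} [Fintype V] (hV : Fintype.card V ≤ 4) {R F : V → V → Prop} (hR : ∀ x, R x x)
    (H : ∀ x y, F x y → ¬ R x y)
    (B1 : ∀ x y, F x y → ∃ z y', F z y ∧ y' ≠ y ∧ F x y' ∧ R z y')
    (B2 : ∀ x y, F x y → ∃ y', y' ≠ y ∧ F x y' ∧ (R y y' ∨ R y' y))
    (TS : ∀ x y, F x y → (∀ y', F x y' → y' ≠ y → ¬ R y y') → (∀ w, w ≠ y → ¬ (R y w ∧ R w y)) → False) (x y : V) :
    ¬ F x y := by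
  classical
  intro hxy
  obtain ⟨a, b, hab, fxa, fxb, rab⟩ : ∃ a b, a ≠ b ∧ F x a ∧ F x b ∧ R a b := by
    obtain ⟨y', hne, h1, h2 | h2⟩ := B2 x y hxy
    · exact ⟨y, y', hne.symm, hxy, h1, h2⟩
    · exact ⟨y', y, hne, h1, hxy, h2⟩
  obtain ⟨c, y', fcb, hy'b, hxy', rcy'⟩ := B1 x b fxb
  have hii : ∀ i, ¬ F i i := fun i h => H i i h (hR i)
  have nxa : x ≠ a := by rintro rfl; exact hii _ fxa
  have nxb : x ≠ b := by rintro rfl; exact hii _ fxb
  have ncx : c ≠ x := by rintro rfl; exact H _ _ hxy' rcy'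
  have ncb : c ≠ b := by rintro rfl; exact hii _ fcb
  have nca : c ≠ a := by rintro rfl; exact H _ _ fcb rab
  have hall : ∀ v, v = x ∨ v = a ∨ v = b ∨ v = c := by
    intro v
    by_contra hv
    push Not at hv
    obtain ⟨v1, v2, v3, v4⟩ := hv
    have h5 : ({v, x, a, b, c} : Finset V).card = 5 := by
      rw [Finset.card_insert_of_notMem, Finset.card_insert_of_notMem, Finset.card_insert_of_notMem, Finset.card_insert_of_notMem,
        Finset.card_singleton]
      · simp [ncb.symm]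
      · simp [hab, nca.symm]
      · simp [nxa, nxb, ncx.symm]
      · simp [v1, v2, v3, v4]
    have h6 := Finset.card_le_univ ({v, x, a, b, c} : Finset V)
    omega
  have rxa : ¬ R x a := H _ _ fxa
  have rxb : ¬ R x b := H _ _ fxb
  have rcb : ¬ R c b := H _ _ fcb
  have fab : ¬ F a b := fun h => H _ _ h rab
  have fxx := hii x
  have faa := hii a
  have fbb := hii b
  have fcc := hii c
  refine comb_prop (rxc := R x c) (rac := R a c) (rbx := R b x) (rba := R b a) (rbc := R b c) (rcx := R c x) (rca := R c a)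
    (fxc := F x c) (fax := F a x) (fac := F a c) (fbx := F b x) (fba := F b a) (fbc := F b c) (fcx := F c x) (fca := F c a)
    (rx := True) (rax := R a x) (H x c) (H b a) (H b c) (H c x) ?_ ?_ ?_ ?_ ?_ ?_ ?_ ?_
  · obtain ⟨z, w, h1, h2, h3, h4⟩ := B1 x a fxa
    rcases hall z with rfl | rfl | rfl | rfl
    · exact absurd h4 (H _ _ h3)
    · exact absurd h1 faa
    · exact Or.inl h1
    · rcases hall w with rfl | rfl | rfl | rfl
      · exact absurd h3 fxx
      · exact absurd rfl h2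
      · exact absurd h4 rcb
      · exact Or.inr ⟨h1, h3⟩
  · intro fxc
    obtain ⟨z, w, h1, h2, h3, h4⟩ := B1 x c fxc
    rcases hall z with rfl | rfl | rfl | rfl
    · exact absurd h4 (H _ _ h3)
    · exact Or.inl h1
    · exact Or.inr h1
    · exact absurd h1 fcc
  · intro fac
    obtain ⟨z, w, h1, h2, h3, h4⟩ := B1 a c fac
    rcases hall z with rfl | rfl | rfl | rfl
    · rcases hall w with rfl | rfl | rfl | rfl
      · exact Or.inl ⟨h1, h3⟩
      · exact absurd h3 faa
      · exact absurd h3 fab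
      · exact absurd rfl h2
    · exact absurd h4 (H _ _ h3)
    · rcases hall w with rfl | rfl | rfl | rfl
      · exact Or.inr ⟨h1, h3, h4⟩
      · exact absurd h3 faa
      · exact absurd h3 fab
      · exact absurd rfl h2
    · exact absurd h1 fcc
  · obtain ⟨z, w, h1, h2, h3, h4⟩ := B1 c b fcb
    rcases hall z with rfl | rfl | rfl | rfl
    · rcases hall w with rfl | rfl | rfl | rfl
      · exact h3
      · exact absurd h4 rxa
      · exact absurd rfl h2
      · exact absurd h3 fcc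
    · exact absurd h1 fab
    · exact absurd h1 fbb
    · exact absurd h4 (H _ _ h3)
  · intro fxc
    obtain ⟨w, h2, h3, h4⟩ := B2 x c fxc
    rcases hall w with rfl | rfl | rfl | rfl
    · exact absurd h3 fxx
    · exact h4.elim Or.inl fun h => Or.inr (Or.inl h)
    · exact h4.elim (fun h => absurd h rcb) fun h => Or.inr (Or.inr h)
    · exact absurd rfl h2
  · intro fax
    obtain ⟨w, h2, h3, h4⟩ := B2 a x fax
    rcases hall w with rfl | rfl | rfl | rfl
    · exact absurd rfl h2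
    · exact absurd h3 faa
    · exact absurd h3 fab
    · exact ⟨h3, h4⟩
  · intro fbc
    obtain ⟨w, h2, h3, h4⟩ := B2 b c fbc
    rcases hall w with rfl | rfl | rfl | rfl
    · exact Or.inl ⟨h3, h4⟩
    · exact Or.inr ⟨h3, h4⟩
    · exact absurd h3 fbb
    · exact absurd rfl h2
  · rintro ⟨rba, hbc⟩
    refine TS x b fxb ?_ ?_
    · intro w h3 h2 h4
      rcases hall w with rfl | rfl | rfl | rfl
      · exact fxx h3
      · exact rba h4
      · exact h2 rfl
      · exact hbc h3 h4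
    · intro w h2 h3
      rcases hall w with rfl | rfl | rfl | rfl
      · exact rxb h3.2
      · exact rba h3.1
      · exact h2 rfl
      · exact rcb h3.2

end Pool.Agent.SVR
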