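import Pool.Agent.SVR.Crn

/-!
# SVR/CrnV: a vertex with a loop and without returning paths recurs
-/

set_option autoImplicit false

open CategoryTheory Abelian Pool.Agent.PathAlg

universe u

namespace Pool.Agent.SVR

variable {Λ : Type u} [Ring Λ] {V : Type} [Fintype V] {e : V → Λ} {J : Ideal Λ} {e0 : Λ}

/-- the image of `J` in the quotient ring -/
def Jc (e0 : Λ) (J : Ideal Λ) : Ideal (Bc e0) where
  carrier := {b | ∃ j ∈ J, qc e0 j = b}
  add_mem' := by
    rintro _ _ ⟨j, hj, rfl⟩ ⟨j', hj', rfl⟩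
    exact ⟨j + j', J.add_mem hj hj', map_add _ _ _⟩
  zero_mem' := ⟨0, J.zero_mem, map_zero _⟩
  smul_mem' := by
    rintro b _ ⟨j, hj, rfl⟩
    obtain ⟨a, rfl⟩ := Ideal.Quotient.mk_surjective b
    exact ⟨a * j, J.mul_mem_left a hj, map_mul _ _ _⟩

theorem crn_vr (h : Vr e J) {y : V} (hc : Crn (e y)) : Vr (fun _ : Unit => (1 : Bc (e y))) (Jc (e y) J) where
  idem := fun _ => mul_one _
  orth := fun x x' hx => absurd (Subsingleton.elim x x') hx
  sum := by simp
  two := by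
    rintro _ b ⟨j, hj, rfl⟩
    obtain ⟨a, rfl⟩ := Ideal.Quotient.mk_surjective b
    exact ⟨j * a, h.two j a hj, map_mul _ _ _⟩
  nil := by
    obtain ⟨m, hm⟩ := h.nil
    refine ⟨m, fun l hl hlJ => ?_⟩
    have key : ∀ l : List (Bc (e y)), (∀ a ∈ l, a ∈ Jc (e y) J) → ∃ l' : List Λ, l'.length = l.length ∧ (∀ a ∈ l', a ∈ J) ∧
        l = l'.map (qc (e y)) := by
      intro l
      induction l with
      | nil => intro _; exact ⟨[], rfl, by simp, rfl⟩
      | cons b l ih =>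
        intro hb
        obtain ⟨l', h1, h2, h3⟩ := ih fun a ha => hb a (List.mem_cons_of_mem _ ha)
        obtain ⟨j, hj, hjb⟩ := hb b (List.mem_cons_self)
        refine ⟨j :: l', by simp [h1], ?_, by rw [h3, List.map_cons, hjb]⟩
        intro a ha
        rcases List.mem_cons.1 ha with h4 | h4
        · rw [h4]; exact hj
        · exact h2 a h4
    obtain ⟨l', h1, h2, h3⟩ := key l hlJ
    rw [h3, ← map_list_prod, hm l' (by rw [h1, hl]) h2, map_zero]
  off := fun x x' _ hx => absurd (Subsingleton.elim x x') hx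
  loc := by
    intro _ b hb
    obtain ⟨a, rfl⟩ := Ideal.Quotient.mk_surjective b
    have h1 : e y * a * e y ∉ J := by
      intro h2
      apply hb
      refine ⟨e y * a * e y, h2, ?_⟩
      rw [hc.q_eae, mul_one, one_mul]
    obtain ⟨c, hcc⟩ := h.loc y a h1
    refine ⟨qc (e y) c, ?_⟩
    have h2 : qc (e y) (c * (e y * a * e y)) = 1 := by rw [hcc, hc.q_e]
    rw [map_mul, hc.q_eae] at h2
    rw [mul_one, one_mul]
    exact h2
  ne := by
    rintro _ ⟨j, hj, h1⟩
    have h2 : qc (e y) j = qc (e y) (e y) := by rw [h1, hc.q_e]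
    have h3 := hc.ker' h2
    rw [hc.idem, hc.idem] at h3
    apply h.ne y
    rw [← h3]
    exact h.two _ _ (J.mul_mem_left _ hj)

/-- the base of the induction -/
theorem crn_base (h : Vr e J) {y : V} (hc : Crn (e y)) :
    Pr (e y) (Sm e J y) (Sm (fun _ : Unit => (1 : Bc (e y))) (Jc (e y) J) ()) := by
  let L' := Lz (fun _ : Unit => (1 : Bc (e y))) (Jc (e y) J) ()
  let f : (Λ ⧸ Lz e J y) →ₛₗ[qc (e y)] (Bc (e y) ⧸ L') :=
    Submodule.mapQ (Lz e J y) L' (qc (e y)).toSemilinearMap (by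
      intro a ha
      show qc (e y) a * 1 ∈ Jc (e y) J
      have h1 : a * e y ∈ J := ha
      refine ⟨a * e y, h1, ?_⟩
      rw [map_mul, hc.q_e])
  have hf : ∀ a : Λ, f (Submodule.Quotient.mk a) = Submodule.Quotient.mk (qc (e y) a) := fun a => rfl
  have hwd : ∀ a a' : Λ, (Submodule.Quotient.mk (qc (e y) a) : Bc (e y) ⧸ L') = Submodule.Quotient.mk (qc (e y) a') →
      (Submodule.Quotient.mk (e y * a * e y) : Λ ⧸ Lz e J y) = Submodule.Quotient.mk (e y * a' * e y) := by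
    intro a a' haa
    rw [Submodule.Quotient.eq] at haa ⊢
    have h1 : (qc (e y) a - qc (e y) a') * 1 ∈ Jc (e y) J := haa
    obtain ⟨j, hj, h2⟩ := h1
    rw [mul_one, ← map_sub] at h2
    have h3 := hc.ker' h2
    show (e y * a * e y - e y * a' * e y) * e y ∈ J
    have h4 : (e y * a * e y - e y * a' * e y) * e y = e y * (a - a') * e y := by
      rw [sub_mul, mul_assoc _ (e y) (e y), mul_assoc _ (e y) (e y), hc.idem, mul_sub, sub_mul]
    rw [h4, ← h3]
    exact h.two _ _ (J.mul_mem_left _ hj)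
  have hsurj : ∀ z : Bc (e y) ⧸ L', ∃ a : Λ, z = Submodule.Quotient.mk (qc (e y) a) := by
    intro z
    obtain ⟨b, rfl⟩ := Submodule.Quotient.mk_surjective _ z
    obtain ⟨a, rfl⟩ := Ideal.Quotient.mk_surjective b
    exact ⟨a, rfl⟩
  choose r hr using hsurj
  have hs0 : ∀ a : Λ, (Submodule.Quotient.mk (e y * r (Submodule.Quotient.mk (qc (e y) a)) * e y) : Λ ⧸ Lz e J y) =
      Submodule.Quotient.mk (e y * a * e y) := fun a => hwd _ _ (hr _).symm
  let s : (Bc (e y) ⧸ L') →+ (Λ ⧸ Lz e J y) := AddMonoidHom.mk' (fun z => Submodule.Quotient.mk (e y * r z * e y)) (by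
    intro z z'
    obtain ⟨a, ha⟩ : ∃ a, z = Submodule.Quotient.mk (qc (e y) a) := ⟨_, hr z⟩
    obtain ⟨a', ha'⟩ : ∃ a, z' = Submodule.Quotient.mk (qc (e y) a) := ⟨_, hr z'⟩
    subst ha
    subst ha'
    rw [hs0, hs0, ← Submodule.Quotient.mk_add, ← map_add, hs0, ← Submodule.Quotient.mk_add, mul_add, add_mul])
  have hs : ∀ a : Λ, s (Submodule.Quotient.mk (qc (e y) a)) = Submodule.Quotient.mk (e y * a * e y) := hs0
  refine ⟨f, s, ?_, ?_⟩
  · intro a z
    obtain ⟨b, rfl⟩ : ∃ a, z = Submodule.Quotient.mk (qc (e y) a) := ⟨_, hr z⟩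
    have h1 : qc (e y) a • (Submodule.Quotient.mk (qc (e y) b) : Bc (e y) ⧸ L') = Submodule.Quotient.mk (qc (e y) (a * b)) := by
      rw [map_mul]
      rfl
    rw [h1, hs, hs, hc.mul]
    rfl
  · intro z
    obtain ⟨b, rfl⟩ : ∃ a, z = Submodule.Quotient.mk (qc (e y) a) := ⟨_, hr z⟩
    rw [hs]
    show f (Submodule.Quotient.mk (e y * b * e y)) = _
    rw [hf, hc.q_eae]

/-- **A vertex with a loop and without returning paths.** -/
theorem cyc_ne [IsArtinianRing Λ] [IsNoetherianRing Λ] (h : Vr e J) {y : V} (hret : ∀ a b, e y * a * (1 - e y) * b * e y = 0)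
    (hJ : ∃ c, e y * c * e y ∈ J ∧ e y * c * e y ≠ 0) (R : MinRes (Sm e J y)) (n : ℕ) : ∃ v : R.N n, e y • v ≠ 0 := by
  have hc : Crn (e y) := ⟨h.idem y, hret⟩
  have hV := crn_vr h hc
  have hn : IsNoetherianRing (Bc (e y)) := isNoetherianRing_of_surjective Λ _ (qc (e y)) Ideal.Quotient.mk_surjective
  have ha : IsArtinianRing (Bc (e y)) := inferInstance
  have hfin : Module.Finite (Bc (e y)) (Sm (fun _ : Unit => (1 : Bc (e y))) (Jc (e y) J) ()) := by
    show Module.Finite (Bc (e y)) (Bc (e y) ⧸ Lz (fun _ : Unit => (1 : Bc (e y))) (Jc (e y) J) ())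
    infer_instance
  obtain ⟨R'⟩ := exists_minRes (Sm (fun _ : Unit => (1 : Bc (e y))) (Jc (e y) J) ())
  have h1 := lcl_ne hV (by
    obtain ⟨c, hcJ, hc0⟩ := hJ
    refine ⟨qc (e y) (e y * c * e y), ⟨_, hcJ, rfl⟩, fun h2 => hc0 ?_⟩
    have h3 := hc.ker h2
    rw [← mul_assoc, ← mul_assoc, hc.idem, mul_assoc _ (e y) (e y), hc.idem] at h3
    exact h3) R' n
  obtain ⟨w, hw⟩ := exists_ne (0 : R'.N n)
  obtain ⟨f, s, hs, hfs⟩ := hc.res R R' (crn_base h hc) n
  refine ⟨s w, fun h2 => hw ?_⟩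
  have h3 := hs (e y) w
  rw [hc.q_e, one_smul, hc.idem, hc.idem, h2] at h3
  rw [← hfs w, h3, map_zero]

end Pool.Agent.SVR
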