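import Pool.Agent.SVR.Spl
import Pool.Agent.SVR.CrnV
import Pool.Agent.SVR.Comb

/-!
# SVR/Abs: rings with at most four vertices in which no vertex recurs
-/

set_option autoImplicit false

open CategoryTheory Abelian Pool.Agent.PathAlg

universe u

namespace Pool.Agent.SVR

variable {Λ : Type u} [Ring Λ] {V : Type} [Fintype V] {e : V → Λ} {J : Ideal Λ}

/-- `e x Λ e y ≠ 0` -/
def Rl (e : V → Λ) (x y : V) : Prop := ∃ c, e x * c * e y ≠ 0

theorem Rl_refl (h : Vr e J) (x : V) : Rl e x x := by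
  refine ⟨1, ?_⟩
  rw [mul_one, h.idem]
  intro h1
  exact h.ne x (by rw [h1]; exact J.zero_mem)

section
variable [IsArtinianRing Λ] [IsNoetherianRing Λ]

/-- **The block condition.** -/
theorem blk (h : Vr e J) {M : ModuleCat.{u} Λ} (R : MinRes M) {K : Set V} (hK : K ⊆ Av e J M)
    (hsep : ∀ a ∈ K, ∀ b ∈ Av e J M, b ∉ K → ¬ Rl e a b ∧ ¬ Rl e b a) {y : V} (hyK : y ∈ K) :
    ∃ z, (∃ a ∈ K, Rl e z a) ∧ Inf (Sm e J z) (Sm e J y) := by
  have hy : y ∈ Av e J M := hK hyK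
  have hKL : Orth e K (Av e J M \ K) := by
    intro a ha b hb c
    obtain ⟨h1, h2⟩ := hsep a ha b hb.1 hb.2
    constructor
    · by_contra hc
      exact h1 ⟨c, hc⟩
    · by_contra hc
      exact h2 ⟨c, hc⟩
  obtain ⟨z, ⟨a, ha, c, hc⟩, h3⟩ := block h R hKL (by rw [Set.union_diff_cancel hK]) (y := y) (fun h1 => h1.2 hyK) hy
  exact ⟨z, ⟨a, ha, c, hc⟩, h3⟩

/-- **A source of the top of the tail has a nonzero returning path.** -/
theorem ret (h : Vr e J) {y : V} (Ry : MinRes (Sm e J y)) (hno : ∃ m, ∀ n, m ≤ n → ∀ v : Ry.N n, e y • v = 0)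
    {M : ModuleCat.{u} Λ} (R : MinRes M) (hy : Inf M (Sm e J y)) (hs : ∀ a, Inf M (Sm e J a) → a ≠ y → ¬ Rl e y a) :
    ∃ w, w ≠ y ∧ ∃ c d, e y * c * e w * d * e y ≠ 0 := by
  by_contra hc
  push Not at hc
  have h1 := src h R hy (fun a ha hne c => by
    by_contra h2
    exact hs a ha hne ⟨c, h2⟩)
  have hret : ∀ a b, e y * a * (1 - e y) * b * e y = 0 := by
    classical
    intro a b
    have h2 : (1 : Λ) - e y = ∑ w ∈ Finset.univ.erase y, e w := by
      rw [← h.sum, ← Finset.add_sum_erase _ _ (Finset.mem_univ y)]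
      abel
    rw [h2, Finset.mul_sum, Finset.sum_mul, Finset.sum_mul]
    exact Finset.sum_eq_zero fun w hw => hc w (Finset.ne_of_mem_erase hw) a b
  obtain ⟨m, hm⟩ := hno
  obtain ⟨v, hv⟩ := cyc_ne h hret h1 Ry m
  exact hv (hm m le_rfl v)

/-- **At most four vertices.** -/
theorem abs4 (h : Vr e J) (hV : Fintype.card V ≤ 4) (R : ∀ x, MinRes (Sm e J x))
    (hno : ∀ x, ∃ m, ∀ n, m ≤ n → ∀ v : (R x).N n, e x • v = 0) (x y : V) : ¬ Inf (Sm e J x) (Sm e J y) := by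
  have H : ∀ x y, Inf (Sm e J x) (Sm e J y) → ¬ Rl e x y := by
    rintro x y h1 ⟨c, hc⟩
    exact hc (norec_rel h (R x) (hno x) h1 c)
  refine comb (F := fun x y => Inf (Sm e J x) (Sm e J y)) (R := Rl e) hV (Rl_refl h) H ?_ ?_ ?_ x y
  · intro x y hxy
    obtain ⟨z, ⟨a, ha, hza⟩, h3⟩ := blk h (R x) (K := Av e J (Sm e J x)) le_rfl
      (fun a _ b hb hb' => absurd hb hb') (y := y) hxy
    refine ⟨z, a, h3, ?_, ha, hza⟩
    rintro rfl
    exact H _ _ h3 hza
  · intro x y hxy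
    by_contra hc
    push Not at hc
    obtain ⟨z, ⟨a, ha, hza⟩, h3⟩ := blk h (R x) (K := {y}) (by rintro _ rfl; exact hxy)
      (by
        rintro _ rfl b hb hb'
        exact hc b hb' hb) (y := y) rfl
    have hay : a = y := ha
    subst hay
    exact H _ _ h3 hza
  · intro x y hxy h1 h2
    obtain ⟨w, hw, c, d, hcd⟩ := ret h (R y) (hno y) (R x) hxy (fun a ha hne => h1 a ha hne)
    refine h2 w hw ⟨⟨c, fun h3 => hcd ?_⟩, ⟨d, fun h3 => hcd ?_⟩⟩
    · rw [h3, zero_mul, zero_mul]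
    · have h4 : e y * c * e w * d * e y = e y * c * (e w * d * e y) := by simp only [mul_assoc]
      rw [h4, h3, mul_zero]

end

end Pool.Agent.SVR
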