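import Pool.Agent.SVR.Abs

/-!
# SVR/Arr: walks of arrows with zero products
-/

set_option autoImplicit false

open CategoryTheory Abelian Pool.Agent.PathAlg

universe u

namespace Pool.Agent.SVR

variable {Λ : Type u} [Ring Λ] {V : Type} [Fintype V] {e : V → Λ} {J : Ideal Λ}

/-- the power `J^k`, generated by the products of lists of length `k` -/
def Jp (J : Ideal Λ) (k : ℕ) : Ideal Λ := Ideal.span {x | ∃ l : List Λ, l.length = k ∧ (∀ a ∈ l, a ∈ J) ∧ x = l.prod}

theorem Jp_right (htwo : ∀ a b, a ∈ J → a * b ∈ J) {k : ℕ} (hk : 1 ≤ k) {a : Λ} (ha : a ∈ Jp J k) (b : Λ) : a * b ∈ Jp J k := by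
  induction ha using Submodule.span_induction with
  | mem x hx =>
    obtain ⟨l, hl, hlJ, rfl⟩ := hx
    obtain ⟨l', c, rfl⟩ : ∃ l' c, l = l' ++ [c] := by
      rcases List.eq_nil_or_concat l with h1 | ⟨l', c, h1⟩
      · rw [h1] at hl
        simp at hl
        omega
      · exact ⟨l', c, by rw [h1]; simp⟩
    refine Submodule.subset_span ⟨l' ++ [c * b], ?_, ?_, ?_⟩
    · simpa using hl
    · intro a ha
      rcases List.mem_append.1 ha with h1 | h1
      · exact hlJ a (List.mem_append_left _ h1)
      · rw [List.mem_singleton.1 h1]
        exact htwo _ _ (hlJ c (List.mem_append_right _ (List.mem_singleton.2 rfl)))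
    · simp [mul_assoc]
  | zero => rw [zero_mul]; exact Ideal.zero_mem _
  | add x y _ _ hx hy => rw [add_mul]; exact Ideal.add_mem _ hx hy
  | smul c x _ hx => rw [smul_eq_mul, mul_assoc]; exact Ideal.mul_mem_left _ _ hx

theorem Jp_mul_right {k : ℕ} {a b : Λ} (ha : a ∈ Jp J k) (hb : b ∈ J) : a * b ∈ Jp J (k + 1) := by
  induction ha using Submodule.span_induction with
  | mem x hx =>
    obtain ⟨l, hl, hlJ, rfl⟩ := hx
    refine Submodule.subset_span ⟨l ++ [b], ?_, ?_, ?_⟩
    · simp [hl]
    · intro a ha
      rcases List.mem_append.1 ha with h1 | h1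
      · exact hlJ a h1
      · rw [List.mem_singleton.1 h1]; exact hb
    · simp
  | zero => rw [zero_mul]; exact Ideal.zero_mem _
  | add x y _ _ hx hy => rw [add_mul]; exact Ideal.add_mem _ hx hy
  | smul c x _ hx => rw [smul_eq_mul, mul_assoc]; exact Ideal.mul_mem_left _ _ hx

theorem Jp_mul_left (htwo : ∀ a b, a ∈ J → a * b ∈ J) {k : ℕ} {a b : Λ} (ha : a ∈ J) (hb : b ∈ Jp J k) : a * b ∈ Jp J (k + 1) := by
  induction hb using Submodule.span_induction generalizing a with
  | mem x hx =>
    obtain ⟨l, hl, hlJ, rfl⟩ := hx
    refine Submodule.subset_span ⟨a :: l, ?_, ?_, ?_⟩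
    · simp [hl]
    · intro c hc
      rcases List.mem_cons.1 hc with h1 | h1
      · rw [h1]; exact ha
      · exact hlJ c h1
    · simp
  | zero => rw [mul_zero]; exact Ideal.zero_mem _
  | add x y _ _ hx hy => rw [mul_add]; exact Ideal.add_mem _ (hx ha) (hy ha)
  | smul c x _ hx => rw [smul_eq_mul, ← mul_assoc]; exact hx (htwo _ _ ha)

/-- **Existence of an arrow.** -/
theorem arrow (h : Vr e J) {x y : V} (hxy : x ≠ y) (hR : Rl e y x) (hth : ∀ z, Rl e y z → Rl e z x → z = x ∨ z = y) :
    ∃ a, e y * a * e x ∉ Jp J 2 := by
  classical
  by_contra hc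
  push Not at hc
  have key : ∀ k, 1 ≤ k → ∀ a, e y * a * e x ∈ Jp J k := by
    intro k hk
    induction k, hk using Nat.le_induction with
    | base =>
      intro a
      exact Submodule.subset_span ⟨[e y * a * e x], rfl, fun b hb => by
        rw [List.mem_singleton.1 hb]
        exact h.off y x a (Ne.symm hxy), by simp⟩
    | succ k hk ih =>
      have h2 : ∀ b, b ∈ Jp J 2 → e y * b * e x ∈ Jp J (k + 1) := by
        intro b hb
        have h3 : ∀ c, c * b ∈ Jp J 2 → e y * (c * b) * e x ∈ Jp J (k + 1) := by
          induction hb using Submodule.span_induction with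
          | mem w hw =>
            intro c _
            obtain ⟨l, hl, hlJ, rfl⟩ := hw
            obtain ⟨p, q, rfl⟩ : ∃ p q, l = [p, q] := List.length_eq_two.1 hl
            have hp : p ∈ J := hlJ p (by simp)
            have hq : q ∈ J := hlJ q (by simp)
            have h4 : e y * (c * [p, q].prod) * e x = ∑ z, (e y * (c * p) * e z) * (e z * q * e x) := by
              have h5 : e y * (c * [p, q].prod) * e x = e y * (c * p) * (∑ z, e z) * (q * e x) := by
                rw [h.sum, mul_one]
                simp [mul_assoc]
              rw [h5, Finset.mul_sum, Finset.sum_mul]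
              refine Finset.sum_congr rfl fun z _ => ?_
              have h6 : e z = e z * e z := (h.idem z).symm
              calc e y * (c * p) * e z * (q * e x) = e y * (c * p) * (e z * e z) * (q * e x) := by rw [h.idem]
                _ = _ := by simp only [mul_assoc]
            rw [h4]
            refine Ideal.sum_mem _ fun z _ => ?_
            by_cases hz1 : Rl e y z
            · by_cases hz2 : Rl e z x
              · rcases hth z hz1 hz2 with rfl | rfl
                · exact Jp_mul_right (ih _) (h.two _ _ (J.mul_mem_left _ hq))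
                · exact Jp_mul_left h.two (h.two _ _ (J.mul_mem_left _ (J.mul_mem_left _ hp))) (ih _)
              · unfold Rl at hz2
                push Not at hz2
                rw [hz2 q, mul_zero]
                exact Ideal.zero_mem _
            · unfold Rl at hz1
              push Not at hz1
              rw [hz1 (c * p), zero_mul]
              exact Ideal.zero_mem _
          | zero =>
            intro c _
            rw [mul_zero, mul_zero, zero_mul]
            exact Ideal.zero_mem _
          | add w w' _ _ hw hw' =>
            intro c _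
            rw [mul_add, mul_add, add_mul]
            refine Ideal.add_mem _ (hw c ?_) (hw' c ?_)
            · refine Ideal.mul_mem_left _ _ ?_
              assumption
            · refine Ideal.mul_mem_left _ _ ?_
              assumption
          | smul c' w _ hw =>
            intro c _
            rw [smul_eq_mul, ← mul_assoc c]
            refine hw (c * c') ?_
            refine Ideal.mul_mem_left _ _ ?_
            assumption
        have h4 := h3 1 (by rw [one_mul]; exact hb)
        rwa [one_mul] at h4
      intro a
      have h3 := h2 _ (hc a)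
      have h4 : e y * (e y * a * e x) * e x = e y * a * e x := by
        rw [mul_assoc (e y) (e y * a * e x), mul_assoc (e y * a), h.idem, ← mul_assoc, ← mul_assoc, h.idem]
      rwa [h4] at h3
  obtain ⟨m, hm⟩ := h.nil
  obtain ⟨c, hc'⟩ := hR
  apply hc'
  have h1 := key (m + 1) (by omega) c
  have h2 : Jp J (m + 1) ≤ ⊥ := by
    refine Submodule.span_le.2 ?_
    rintro w ⟨l, hl, hlJ, rfl⟩
    cases l with
    | nil => simp at hl
    | cons a l =>
      rw [List.length_cons] at hl
      rw [List.prod_cons, hm l (by omega) (fun b hb => hlJ b (List.mem_cons_of_mem _ hb)), mul_zero]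
      exact Submodule.zero_mem _
  exact h2 h1

end Pool.Agent.SVR
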