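import Pool.Agent.SVR.Top

/-!
# SVR/Cov: projective covers and minimal resolutions over an artinian ring
-/

set_option autoImplicit false

open CategoryTheory Abelian Pool.Agent.PathAlg

universe u

namespace Pool.Agent.SVR

variable {Λ : Type u} [Ring Λ]

/-- a direct summand of a projective module of finite length covers the image -/
theorem cov_aux {F : Type u} [AddCommGroup F] [Module Λ F] [IsArtinian Λ F] [IsNoetherian Λ F] {M : Type u}
    [AddCommGroup M] [Module Λ M] (hF : Module.Projective Λ F) (π : F →ₗ[Λ] M) (hπ : Function.Surjective π) :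
    ∃ (P : Type u) (_ : AddCommGroup P) (_ : Module Λ P) (_ : Module.Finite Λ P) (ρ : P →ₗ[Λ] M),
      Module.Projective Λ P ∧ Function.Surjective ρ ∧ ∀ N : Submodule Λ P, N ⊔ LinearMap.ker ρ = ⊤ → N = ⊤ := by
  let 𝒮 : Set (Submodule Λ F) := {P | (∃ s : F →ₗ[Λ] P, ∀ p : P, s p = p) ∧ ∀ m, ∃ p ∈ P, π p = m}
  have hne : 𝒮.Nonempty := by
    refine ⟨⊤, ⟨LinearMap.codRestrict ⊤ LinearMap.id (fun _ => trivial), fun p => rfl⟩, fun m => ?_⟩
    obtain ⟨p, hp⟩ := hπ m
    exact ⟨p, trivial, hp⟩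
  obtain ⟨P, ⟨⟨s, hs⟩, hP⟩, hmin⟩ := WellFounded.has_min (wellFounded_lt (α := Submodule Λ F)) 𝒮 hne
  let ρ : P →ₗ[Λ] M := π ∘ₗ P.subtype
  have hρ : Function.Surjective ρ := by
    intro m
    obtain ⟨p, hp, h⟩ := hP m
    exact ⟨⟨p, hp⟩, h⟩
  have hPp : Module.Projective Λ P := Module.Projective.of_split P.subtype s (by
    ext p
    exact congrArg Subtype.val (hs p))
  refine ⟨P, inferInstance, inferInstance, inferInstance, ρ, hPp, hρ, ?_⟩
  intro N hN
  have hsN : Function.Surjective (ρ ∘ₗ N.subtype) := by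
    intro m
    obtain ⟨p, rfl⟩ := hρ m
    have hp : p ∈ N ⊔ LinearMap.ker ρ := by rw [hN]; trivial
    obtain ⟨a, ha, b, hb, rfl⟩ := Submodule.mem_sup.1 hp
    refine ⟨⟨a, ha⟩, ?_⟩
    show ρ a = ρ (a + b)
    rw [map_add, LinearMap.mem_ker.1 hb, add_zero]
  obtain ⟨h, hh⟩ := Module.projective_lifting_property (ρ ∘ₗ N.subtype) ρ hsN
  let g : Module.End Λ P := N.subtype ∘ₗ h
  have hg : ∀ p, ρ (g p) = ρ p := fun p => congrArg (fun f : P →ₗ[Λ] M => f p) hh
  have hgN : ∀ p, g p ∈ N := fun p => (h p).2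
  obtain ⟨k, hk⟩ := Filter.eventually_atTop.1 (LinearMap.eventually_isCompl_ker_pow_range_pow g)
  have hc := hk (k + 1) (Nat.le_succ k)
  have hgk : ∀ (j : ℕ) (p : P), ρ ((g ^ j) p) = ρ p := by
    intro j
    induction j with
    | zero => intro p; rfl
    | succ j ih =>
      intro p
      rw [pow_succ, Module.End.mul_apply, ih, hg]
  let R : Submodule Λ P := LinearMap.range (g ^ (k + 1))
  have hRN : R ≤ N := by
    rintro _ ⟨p, rfl⟩
    rw [pow_succ', Module.End.mul_apply]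
    exact hgN _
  let pr : P →ₗ[Λ] R := Submodule.projectionOnto R (LinearMap.ker (g ^ (k + 1))) hc.symm
  have hpr : ∀ r : R, pr r = r := fun r => Submodule.projectionOnto_apply_left hc.symm r
  let R' : Submodule Λ F := R.map P.subtype
  have hR' : R' ∈ 𝒮 := by
    refine ⟨⟨LinearMap.codRestrict R' (P.subtype ∘ₗ R.subtype ∘ₗ pr ∘ₗ s) fun x => ⟨(pr (s x) : P), (pr (s x)).2, rfl⟩, ?_⟩, ?_⟩
    · rintro ⟨_, p, hp, rfl⟩
      apply Subtype.ext
      show ((pr (s (p : F)) : P) : F) = p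
      rw [hs p]
      exact congrArg (fun q : R => ((q : P) : F)) (hpr ⟨p, hp⟩)
    · intro m
      obtain ⟨p, rfl⟩ := hρ m
      exact ⟨((g ^ (k + 1)) p : P), ⟨_, ⟨p, rfl⟩, rfl⟩, hgk (k + 1) p⟩
  have hle : R' ≤ P := by
    rintro _ ⟨p, _, rfl⟩
    exact p.2
  have hR'P : R' = P := by
    by_contra hne'
    exact hmin R' hR' (lt_of_le_of_ne hle hne')
  rw [eq_top_iff]
  intro p _
  have h1 : (p : F) ∈ R' := by rw [hR'P]; exact p.2
  obtain ⟨q, hq, hqp⟩ := h1
  have h2 : q = p := Subtype.ext hqp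
  rw [← h2]
  exact hRN hq

/-- projective covers exist -/
theorem exists_cover [IsArtinianRing Λ] [IsNoetherianRing Λ] (M : ModuleCat.{u} Λ) [Module.Finite Λ M] :
    ∃ (P : ModuleCat.{u} Λ) (_ : Module.Finite Λ P) (π : P →ₗ[Λ] M), IsProjectiveCover π := by
  obtain ⟨n, f, hf⟩ := Module.Finite.exists_fin' Λ M
  obtain ⟨P, i1, i2, i3, ρ, h1, h2, h3⟩ := cov_aux (F := Fin n → Λ) inferInstance f hf
  exact ⟨ModuleCat.of Λ P, i3, ρ, h1, h2, h3⟩

/-- minimal projective resolutions -/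
structure MinRes (M : ModuleCat.{u} Λ) where
  N : ℕ → ModuleCat.{u} Λ
  P : ℕ → ModuleCat.{u} Λ
  π : ∀ n, P n →ₗ[Λ] N n
  ι : ∀ n, N (n + 1) →ₗ[Λ] P n
  finN : ∀ n, Module.Finite Λ (N n)
  finP : ∀ n, Module.Finite Λ (P n)
  cov : ∀ n, IsProjectiveCover (π n)
  inj : ∀ n, Function.Injective (ι n)
  ex : ∀ n, LinearMap.range (ι n) = LinearMap.ker (π n)
  e0 : M ≃ₗ[Λ] N 0

theorem exists_minRes [IsArtinianRing Λ] [IsNoetherianRing Λ] (M : ModuleCat.{u} Λ) [hM : Module.Finite Λ M] :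
    Nonempty (MinRes M) := by
  choose P hP π hπ using fun (M : {M : ModuleCat.{u} Λ // Module.Finite Λ M}) =>
    @exists_cover Λ _ _ _ M.1 M.2
  let nx : {M : ModuleCat.{u} Λ // Module.Finite Λ M} → {M : ModuleCat.{u} Λ // Module.Finite Λ M} := fun M =>
    ⟨ModuleCat.of Λ (LinearMap.ker (π M)), by
      have := hP M
      show Module.Finite Λ (LinearMap.ker (π M))
      infer_instance⟩
  let N : ℕ → {M : ModuleCat.{u} Λ // Module.Finite Λ M} := fun n => nx^[n] ⟨M, hM⟩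
  have hN : ∀ n, N (n + 1) = nx (N n) := fun n => Function.iterate_succ_apply' nx n _
  have key : ∀ (A B : {M : ModuleCat.{u} Λ // Module.Finite Λ M}), A = nx B →
      ∃ ι : A.1 →ₗ[Λ] P B, Function.Injective ι ∧ LinearMap.range ι = LinearMap.ker (π B) := by
    rintro _ B rfl
    exact ⟨(LinearMap.ker (π B)).subtype, Submodule.injective_subtype _, Submodule.range_subtype _⟩
  choose ι hι using fun n => key (N (n + 1)) (N n) (hN n)
  exact ⟨{
    N := fun n => (N n).1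
    P := fun n => P (N n)
    π := fun n => π (N n)
    ι := ι
    finN := fun n => (N n).2
    finP := fun n => hP (N n)
    cov := fun n => hπ (N n)
    inj := fun n => (hι n).1
    ex := fun n => (hι n).2
    e0 := LinearEquiv.refl Λ M }⟩

/-- the kernel of the cover -/
noncomputable def MinRes.kerEquiv {M : ModuleCat.{u} Λ} (R : MinRes M) (n : ℕ) : R.N (n + 1) ≃ₗ[Λ] LinearMap.ker (R.π n) :=
  (LinearEquiv.ofInjective (R.ι n) (R.inj n)).trans (LinearEquiv.ofEq _ _ (R.ex n))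

theorem MinRes.syz {M : ModuleCat.{u} Λ} (R : MinRes M) (n : ℕ) : IsSyzygy n M (R.N n) := by
  induction n with
  | zero => exact ⟨R.e0⟩
  | succ n ih => exact ⟨R.N n, R.P n, ih, R.π n, R.cov n, ⟨(R.kerEquiv n).symm⟩⟩

theorem MinRes.uniq {M : ModuleCat.{u} Λ} (R : MinRes M) (n : ℕ) {N' : ModuleCat.{u} Λ} (h : IsSyzygy n M N') :
    Nonempty (N' ≃ₗ[Λ] R.N n) := by
  induction n generalizing N' with
  | zero =>
    obtain ⟨e⟩ := h
    exact ⟨e.symm.trans R.e0⟩
  | succ n ih =>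
    obtain ⟨M', P, h', π, hπ, ⟨g⟩⟩ := h
    obtain ⟨e⟩ := ih h'
    obtain ⟨f⟩ := cover_unique π (R.π n) hπ (R.cov n) e
    exact ⟨g.symm.trans (f.trans (R.kerEquiv n).symm)⟩

end Pool.Agent.SVR
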