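import Pool.Agent.SVR.Lcl

/-!
# SVR/Crn: a vertex without returning paths through the other vertices
-/

set_option autoImplicit false

open CategoryTheory Abelian Pool.Agent.PathAlg

universe u

namespace Pool.Agent.SVR

variable {Λ : Type u} [Ring Λ]

/-- the two-sided ideal generated by `1 - e0` -/
def Tc (e0 : Λ) : Ideal Λ where
  carrier := {a | ∀ c d, e0 * c * a * d * e0 = 0}
  add_mem' := fun {a b} ha hb c d => by
    have h1 := ha c d
    have h2 := hb c d
    rw [mul_add, add_mul, add_mul, h1, h2, add_zero]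
  zero_mem' := fun c d => by rw [mul_zero, zero_mul, zero_mul]
  smul_mem' := fun r a ha c d => by
    have h1 := ha (c * r) d
    rw [smul_eq_mul, ← h1]
    simp only [mul_assoc]

instance (e0 : Λ) : (Tc e0).IsTwoSided := ⟨fun {a} r ha c d => by
  have h1 := ha c (r * d)
  rw [← h1]
  simp only [mul_assoc]⟩

/-- the quotient ring -/
abbrev Bc (e0 : Λ) : Type u := Λ ⧸ Tc e0

/-- the quotient map -/
abbrev qc (e0 : Λ) : Λ →+* Bc e0 := Ideal.Quotient.mk (Tc e0)

/-- `e0` is idempotent and there is no path from `e0` to `e0` through `1 - e0` -/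
structure Crn (e0 : Λ) : Prop where
  idem : e0 * e0 = e0
  ret : ∀ a b, e0 * a * (1 - e0) * b * e0 = 0

variable {e0 : Λ}

theorem Crn.q_e (h : Crn e0) : qc e0 e0 = 1 := by
  rw [← map_one (qc e0), eq_comm, ← sub_eq_zero, ← map_sub]
  exact Ideal.Quotient.eq_zero_iff_mem.2 (fun c d => h.ret c d)

theorem Crn.q_eae (h : Crn e0) (a : Λ) : qc e0 (e0 * a * e0) = qc e0 a := by
  rw [map_mul, map_mul, h.q_e, one_mul, mul_one]

theorem Crn.ker (_h : Crn e0) {a : Λ} (ha : qc e0 a = 0) : e0 * a * e0 = 0 := by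
  have h1 := (Ideal.Quotient.eq_zero_iff_mem.1 ha) 1 1
  rw [mul_one, mul_one] at h1
  exact h1

theorem Crn.ker' (h : Crn e0) {a a' : Λ} (ha : qc e0 a = qc e0 a') : e0 * a * e0 = e0 * a' * e0 := by
  have h1 : qc e0 (a - a') = 0 := by rw [map_sub, ha, sub_self]
  have h2 := h.ker h1
  rw [mul_sub, sub_mul] at h2
  exact sub_eq_zero.1 h2

theorem Crn.mul (h : Crn e0) (a b : Λ) : e0 * (a * b) * e0 = (e0 * a * e0) * (e0 * b * e0) := by
  have h1 : e0 * (a * b) * e0 = e0 * a * (1 - e0) * b * e0 + e0 * a * e0 * b * e0 := by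
    rw [mul_sub, mul_one, sub_mul, sub_mul]
    simp only [mul_assoc]
    abel
  rw [h1, h.ret, zero_add]
  simp only [mul_assoc]
  rw [← mul_assoc e0 e0, h.idem]

/-- the additive group `e0 M` -/
def CrS (e0 : Λ) (M : Type u) [AddCommGroup M] [Module Λ M] : AddSubgroup M where
  carrier := {m | e0 • m = m}
  add_mem' := fun {a b} ha hb => by
    have h1 : e0 • a = a := ha
    have h2 : e0 • b = b := hb
    show e0 • (a + b) = a + b
    rw [smul_add, h1, h2]
  zero_mem' := smul_zero _
  neg_mem' := fun {a} ha => by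
    have h1 : e0 • a = a := ha
    show e0 • (-a) = -a
    rw [smul_neg, h1]

/-- the action of `Λ` -/
def Crn.act (h : Crn e0) (M : Type u) [AddCommGroup M] [Module Λ M] : Λ →+* AddMonoid.End (CrS e0 M) where
  toFun a :=
    { toFun := fun m => ⟨(e0 * a * e0) • m.1, by
        show e0 • ((e0 * a * e0) • m.1) = (e0 * a * e0) • m.1
        rw [smul_smul, ← mul_assoc, ← mul_assoc, h.idem]⟩
      map_zero' := Subtype.ext (smul_zero _)
      map_add' := fun m m' => Subtype.ext (smul_add _ _ _) }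
  map_one' := by
    ext m
    show (e0 * 1 * e0) • m.1 = m.1
    rw [mul_one, h.idem]
    exact m.2
  map_mul' := fun a b => by
    ext m
    show (e0 * (a * b) * e0) • m.1 = (e0 * a * e0) • (e0 * b * e0) • m.1
    rw [h.mul, smul_smul]
  map_zero' := by
    ext m
    show (e0 * 0 * e0) • m.1 = 0
    rw [mul_zero, zero_mul, zero_smul]
  map_add' := fun a b => by
    ext m
    show (e0 * (a + b) * e0) • m.1 = (e0 * a * e0) • m.1 + (e0 * b * e0) • m.1
    rw [mul_add, add_mul, add_smul]

/-- the action of the quotient ring -/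
def Crn.actB (h : Crn e0) (M : Type u) [AddCommGroup M] [Module Λ M] : Bc e0 →+* AddMonoid.End (CrS e0 M) :=
  Ideal.Quotient.lift (Tc e0) (h.act M) fun a ha => by
    ext m
    show (e0 * a * e0) • m.1 = 0
    have h1 := ha 1 1
    rw [mul_one, mul_one] at h1
    rw [h1, zero_smul]

/-- `e0 M` is a module over the quotient ring -/
@[reducible] def Crn.mod (h : Crn e0) (M : Type u) [AddCommGroup M] [Module Λ M] : Module (Bc e0) (CrS e0 M) :=
  Module.compHom _ (h.actB M)

/-- `Y` is a summand of `e0 M` -/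
def Pr (e0 : Λ) (M Y : Type u) [AddCommGroup M] [Module Λ M] [AddCommGroup Y] [Module (Bc e0) Y] : Prop :=
  ∃ (f : M →ₛₗ[qc e0] Y) (s : Y →+ M), (∀ a y, s (qc e0 a • y) = (e0 * a * e0) • s y) ∧ ∀ y, f (s y) = y

theorem Pr.congr {M Y M' Y' : Type u} [AddCommGroup M] [Module Λ M] [AddCommGroup Y] [Module (Bc e0) Y]
    [AddCommGroup M'] [Module Λ M'] [AddCommGroup Y'] [Module (Bc e0) Y'] (h : Pr e0 M Y) (eM : M ≃ₗ[Λ] M')
    (eY : Y ≃ₗ[Bc e0] Y') : Pr e0 M' Y' := by
  obtain ⟨f, s, h1, h2⟩ := h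
  refine ⟨(eY.toLinearMap.comp f).comp eM.symm.toLinearMap,
    (eM.toLinearMap.toAddMonoidHom.comp s).comp eY.symm.toLinearMap.toAddMonoidHom, ?_, ?_⟩
  · intro a y
    show eM (s (eY.symm (qc e0 a • y))) = (e0 * a * e0) • eM (s (eY.symm y))
    rw [map_smul, h1, map_smul]
  · intro y
    show eY (f (eM.symm (eM (s (eY.symm y))))) = y
    rw [eM.symm_apply_apply, h2, eY.apply_symm_apply]

/-- **The induction step.** -/
theorem Crn.step (h : Crn e0) {M Y P Q : Type u} [AddCommGroup M] [Module Λ M] [AddCommGroup Y] [Module (Bc e0) Y]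
    [AddCommGroup P] [Module Λ P] [AddCommGroup Q] [Module (Bc e0) Q] [IsNoetherian (Bc e0) Q] (hPr : Pr e0 M Y)
    (hP : Module.Projective Λ P) {π : P →ₗ[Λ] M} (hπ : Function.Surjective π) (hQ : Module.Projective (Bc e0) Q)
    {π' : Q →ₗ[Bc e0] Y} (hπ' : Function.Surjective π')
    (hsup : ∀ N : Submodule (Bc e0) Q, N ⊔ LinearMap.ker π' = ⊤ → N = ⊤) :
    Pr e0 (LinearMap.ker π) (LinearMap.ker π') := by
  obtain ⟨f, s, hs, hfs⟩ := hPr
  -- the map F
  obtain ⟨F, hF⟩ : ∃ F : P →ₛₗ[qc e0] Q, ∀ p, π' (F p) = f (π p) := by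
    let iQ : Module Λ Q := Module.compHom Q (qc e0)
    let iY : Module Λ Y := Module.compHom Y (qc e0)
    let πL : Q →ₗ[Λ] Y :=
      { toFun := π'
        map_add' := π'.map_add
        map_smul' := fun a x => π'.map_smul (qc e0 a) x }
    let fL : P →ₗ[Λ] Y :=
      { toFun := fun p => f (π p)
        map_add' := fun x y => by rw [map_add, map_add]
        map_smul' := fun a x => by
          rw [π.map_smul, f.map_smulₛₗ]
          rfl }
    obtain ⟨G, hG⟩ := Module.projective_lifting_property πL fL hπ'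
    refine ⟨{ toFun := G, map_add' := G.map_add, map_smul' := fun a x => G.map_smul a x }, fun p => ?_⟩
    exact congrArg (fun H : P →ₗ[Λ] Y => H p) hG
  -- the map S
  let iP := h.mod P
  let iM := h.mod M
  have hsm : ∀ y, e0 • s y = s y := by
    intro y
    have h1 := hs 1 y
    rw [map_one, one_smul, mul_one, h.idem] at h1
    exact h1.symm
  let sB : Y →ₗ[Bc e0] CrS e0 M :=
    { toFun := fun y => ⟨s y, hsm y⟩
      map_add' := fun x y => Subtype.ext (s.map_add x y)
      map_smul' := fun b y => by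
        obtain ⟨a, rfl⟩ := Ideal.Quotient.mk_surjective b
        exact Subtype.ext (hs a y) }
  let πB : CrS e0 P →ₗ[Bc e0] CrS e0 M :=
    { toFun := fun p => ⟨π p.1, by
        show e0 • π p.1 = π p.1
        have h1 : e0 • p.1 = p.1 := p.2
        rw [← map_smul, h1]⟩
      map_add' := fun x y => Subtype.ext (π.map_add _ _)
      map_smul' := fun b y => by
        obtain ⟨a, rfl⟩ := Ideal.Quotient.mk_surjective b
        exact Subtype.ext (π.map_smul (e0 * a * e0) y.1) }
  have hπB : Function.Surjective πB := by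
    rintro ⟨m, hm⟩
    obtain ⟨p, rfl⟩ := hπ m
    refine ⟨⟨e0 • p, ?_⟩, Subtype.ext ?_⟩
    · show e0 • e0 • p = e0 • p
      rw [smul_smul, h.idem]
    · show π (e0 • p) = π p
      rw [map_smul]
      exact hm
  obtain ⟨S, hS⟩ := Module.projective_lifting_property πB (sB ∘ₗ π') hπB
  have hS' : ∀ y, π (S y).1 = s (π' y) := fun y =>
    congrArg (fun H : Q →ₗ[Bc e0] CrS e0 M => (H y).1) hS
  have hSs : ∀ a y, (S (qc e0 a • y)).1 = (e0 * a * e0) • (S y).1 := by
    intro a y
    rw [map_smul]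
    rfl
  -- the endomorphism θ
  let θ : Q →ₗ[Bc e0] Q :=
    { toFun := fun y => F (S y).1
      map_add' := fun x y => by
        rw [map_add]
        exact F.map_add _ _
      map_smul' := fun b y => by
        obtain ⟨a, rfl⟩ := Ideal.Quotient.mk_surjective b
        show F (S (qc e0 a • y)).1 = qc e0 a • F (S y).1
        rw [hSs, F.map_smulₛₗ, h.q_eae] }
  have hθ : ∀ y, π' (θ y) = π' y := by
    intro y
    show π' (F (S y).1) = π' y
    rw [hF, hS', hfs]
  have hθs : Function.Surjective θ := by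
    rw [← LinearMap.range_eq_top]
    apply hsup
    rw [eq_top_iff]
    intro y _
    have h1 : y = θ y + (y - θ y) := by abel
    rw [h1]
    refine Submodule.add_mem_sup ⟨y, rfl⟩ ?_
    rw [LinearMap.mem_ker, map_sub, hθ, sub_self]
  have hθi : Function.Injective θ := IsNoetherian.injective_of_surjective_endomorphism θ hθs
  let E : Q ≃ₗ[Bc e0] Q := LinearEquiv.ofBijective θ ⟨hθi, hθs⟩
  have hE : ∀ y, π' (E.symm y) = π' y := by
    intro y
    rw [← hθ (E.symm y)]
    congr 1
    exact E.apply_symm_apply y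
  let F' : P →ₛₗ[qc e0] Q := E.symm.toLinearMap.comp F
  have hF'S : ∀ y, F' (S y).1 = y := fun y => E.symm_apply_apply y
  have hF' : ∀ p, π' (F' p) = f (π p) := fun p => by
    show π' (E.symm (F p)) = f (π p)
    rw [hE, hF]
  refine ⟨{ toFun := fun v => ⟨F' v.1, ?_⟩, map_add' := ?_, map_smul' := ?_ },
    { toFun := fun w => ⟨(S w.1).1, ?_⟩, map_zero' := ?_, map_add' := ?_ }, ?_, ?_⟩
  · rw [LinearMap.mem_ker, hF', LinearMap.mem_ker.1 v.2, map_zero]
  · intro v v'
    exact Subtype.ext (F'.map_add _ _)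
  · intro a v
    exact Subtype.ext (F'.map_smulₛₗ a v.1)
  · rw [LinearMap.mem_ker, hS', LinearMap.mem_ker.1 w.2, map_zero]
  · apply Subtype.ext
    show (S 0).1 = 0
    rw [map_zero]
    rfl
  · intro w w'
    apply Subtype.ext
    show (S (w.1 + w'.1)).1 = (S w.1).1 + (S w'.1).1
    rw [map_add]
    rfl
  · intro a w
    exact Subtype.ext (hSs a w.1)
  · intro w
    exact Subtype.ext (hF'S w.1)

/-- **The syzygies over the corner are summands.** -/
theorem Crn.res (h : Crn e0) {M : ModuleCat.{u} Λ} {Y : ModuleCat.{u} (Bc e0)} [IsNoetherianRing (Bc e0)] (R : MinRes M) (R' : MinRes Y)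
    (hPr : Pr e0 M Y) (n : ℕ) : Pr e0 (R.N n) (R'.N n) := by
  induction n with
  | zero => exact hPr.congr R.e0 R'.e0
  | succ n ih =>
    have := R'.finP n
    have h1 := h.step ih (R.cov n).1 (R.cov n).2.1 (R'.cov n).1 (R'.cov n).2.1 (R'.cov n).2.2
    exact h1.congr (R.kerEquiv n).symm (R'.kerEquiv n).symm

end Pool.Agent.SVR
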