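import Pool.Agent.PathAlg.Cover

/-!
# SVR/ExA: Ext groups and minimal syzygies
-/

set_option autoImplicit false

open CategoryTheory Abelian Pool.Agent.PathAlg

universe u

namespace Pool.Agent.SVR

variable {Λ : Type u} [Ring Λ]

/-- infinitely many groups `Ext^n(M, S)` are nonzero -/
def Inf (M S : ModuleCat.{u} Λ) : Prop := ∀ m : ℕ, ∃ n, m ≤ n ∧ Nontrivial (Ext M S n)

section ses
variable {A B C : Type u} [AddCommGroup A] [Module Λ A] [AddCommGroup B] [Module Λ B] [AddCommGroup C] [Module Λ C]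
  {i : A →ₗ[Λ] B} {p : B →ₗ[Λ] C}

theorem exa_zero (hex : LinearMap.range i = LinearMap.ker p) : ModuleCat.ofHom i ≫ ModuleCat.ofHom p = 0 := by
  ext x
  have : i x ∈ LinearMap.ker p := by rw [← hex]; exact ⟨x, rfl⟩
  exact this

theorem exa_ses (hi : Function.Injective i) (hp : Function.Surjective p) (hex : LinearMap.range i = LinearMap.ker p) :
    (ShortComplex.mk (ModuleCat.ofHom i) (ModuleCat.ofHom p) (exa_zero hex)).ShortExact := by
  refine ShortComplex.ShortExact.mk' ?_ ?_ ?_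
  · rw [ShortComplex.moduleCat_exact_iff]
    intro x hx
    have : x ∈ LinearMap.ker p := hx
    rw [← hex] at this
    exact this
  · rw [ModuleCat.mono_iff_injective]; exact hi
  · rw [ModuleCat.epi_iff_surjective]; exact hp

/-- the middle term -/
theorem exa_mid (hi : Function.Injective i) (hp : Function.Surjective p) (hex : LinearMap.range i = LinearMap.ker p)
    {S : ModuleCat.{u} Λ} {n : ℕ} (h : Nontrivial (Ext (ModuleCat.of Λ B) S n)) :
    Nontrivial (Ext (ModuleCat.of Λ A) S n) ∨ Nontrivial (Ext (ModuleCat.of Λ C) S n) := by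
  by_contra hc
  rw [not_or, not_nontrivial_iff_subsingleton, not_nontrivial_iff_subsingleton] at hc
  obtain ⟨hA, hC⟩ := hc
  obtain ⟨x, hx⟩ := exists_ne (0 : Ext (ModuleCat.of Λ B) S n)
  obtain ⟨y, hy⟩ := Ext.contravariant_sequence_exact₂ (exa_ses hi hp hex) S x (Subsingleton.elim _ _)
  have hy0 : y = 0 := Subsingleton.elim _ _
  rw [hy0, Ext.comp_zero] at hy
  exact hx hy.symm

/-- shift by a projective module -/
theorem exa_shift (hi : Function.Injective i) (hp : Function.Surjective p) (hex : LinearMap.range i = LinearMap.ker p)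
    (hP : Module.Projective Λ B) {S : ModuleCat.{u} Λ} {n : ℕ} :
    Nontrivial (Ext (ModuleCat.of Λ C) S (n + 2)) ↔ Nontrivial (Ext (ModuleCat.of Λ A) S (n + 1)) := by
  have hproj : Projective (ModuleCat.of Λ B) := (IsProjective.iff_projective (R := Λ) B).1 hP
  have hs := exa_ses hi hp hex
  have hB : ∀ m, Subsingleton (Ext (ModuleCat.of Λ B) S (m + 1)) := fun m => Ext.subsingleton_of_projective _ _ _
  constructor
  · intro h
    obtain ⟨x, hx⟩ := exists_ne (0 : Ext (ModuleCat.of Λ C) S (n + 2))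
    obtain ⟨y, hy⟩ := Ext.contravariant_sequence_exact₃ hs S x
      (@Subsingleton.elim _ (hB (n + 1)) _ _) (n₀ := n + 1) (by omega)
    refine ⟨⟨y, 0, fun h0 => hx ?_⟩⟩
    rw [← hy, h0, Ext.comp_zero]
  · intro h
    obtain ⟨x, hx⟩ := exists_ne (0 : Ext (ModuleCat.of Λ A) S (n + 1))
    refine ⟨⟨hs.extClass.comp x (show 1 + (n + 1) = n + 2 by omega), 0, fun h0 => hx ?_⟩⟩
    obtain ⟨y, hy⟩ := Ext.contravariant_sequence_exact₁ hs S x _ h0
    rw [← hy, @Subsingleton.elim _ (hB n) y 0, Ext.comp_zero]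

/-- the first Ext group -/
theorem exa_one (hi : Function.Injective i) (hp : Function.Surjective p) (hex : LinearMap.range i = LinearMap.ker p)
    (hP : Module.Projective Λ B) {S : ModuleCat.{u} Λ} (hv : ∀ (f : B →ₗ[Λ] S) (a : A), f (i a) = 0) :
    Nontrivial (Ext (ModuleCat.of Λ C) S 1) ↔ ∃ f : A →ₗ[Λ] S, f ≠ 0 := by
  have hproj : Projective (ModuleCat.of Λ B) := (IsProjective.iff_projective (R := Λ) B).1 hP
  have hs := exa_ses hi hp hex
  have hB : ∀ m, Subsingleton (Ext (ModuleCat.of Λ B) S (m + 1)) := fun m => Ext.subsingleton_of_projective _ _ _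
  constructor
  · intro h
    obtain ⟨x, hx⟩ := exists_ne (0 : Ext (ModuleCat.of Λ C) S 1)
    obtain ⟨y, hy⟩ := Ext.contravariant_sequence_exact₃ hs S x
      (@Subsingleton.elim _ (hB 0) _ _) (n₀ := 0) (by omega)
    obtain ⟨f, rfl⟩ := Ext.addEquiv₀.symm.surjective y
    refine ⟨f.hom, fun h0 => hx ?_⟩
    have hf : f = 0 := by
      ext a
      exact congrArg (fun g : A →ₗ[Λ] S => g a) h0
    rw [← hy, hf, map_zero, Ext.comp_zero]
  · rintro ⟨f, hf⟩
    refine ⟨⟨hs.extClass.comp (Ext.mk₀ (ModuleCat.ofHom f)) (show 1 + 0 = 1 by omega), 0, fun h0 => hf ?_⟩⟩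
    obtain ⟨y, hy⟩ := Ext.contravariant_sequence_exact₁ hs S (Ext.mk₀ (ModuleCat.ofHom f)) _ h0
    obtain ⟨g, rfl⟩ := Ext.addEquiv₀.symm.surjective y
    have h1 : ModuleCat.ofHom i ≫ g = ModuleCat.ofHom f := by
      apply Ext.addEquiv₀.symm.injective
      have h2 : (Ext.mk₀ (ModuleCat.ofHom i)).comp (Ext.mk₀ g) (zero_add 0) = Ext.mk₀ (ModuleCat.ofHom f) := hy
      rw [Ext.mk₀_comp_mk₀] at h2
      exact h2
    ext a
    have h3 := congrArg (fun F : ModuleCat.of Λ A ⟶ S => F.hom a) h1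
    have h4 : g.hom (i a) = f a := h3
    rw [← h4]
    exact hv g.hom a

end ses

/-- `Ext^0` -/
theorem exa_hom {M S : ModuleCat.{u} Λ} : Nontrivial (Ext M S 0) ↔ ∃ f : M →ₗ[Λ] S, f ≠ 0 := by
  constructor
  · intro h
    obtain ⟨x, hx⟩ := exists_ne (0 : Ext M S 0)
    obtain ⟨f, rfl⟩ := Ext.addEquiv₀.symm.surjective x
    refine ⟨f.hom, fun h0 => hx ?_⟩
    have hf : f = 0 := by
      ext a
      exact congrArg (fun g : M →ₗ[Λ] S => g a) h0
    rw [hf, map_zero]
  · rintro ⟨f, hf⟩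
    refine ⟨⟨Ext.mk₀ (ModuleCat.ofHom f), 0, fun h0 => hf ?_⟩⟩
    have h1 : ModuleCat.ofHom f = (0 : M ⟶ S) := by
      apply Ext.addEquiv₀.symm.injective
      rw [map_zero]
      exact h0
    ext a
    exact congrArg (fun F : M ⟶ S => F.hom a) h1

/-- Ext groups and isomorphisms -/
theorem exa_iso {M N S : ModuleCat.{u} Λ} (e : M ≃ₗ[Λ] N) {n : ℕ} (h : Nontrivial (Ext M S n)) :
    Nontrivial (Ext N S n) := by
  obtain ⟨x, hx⟩ := exists_ne (0 : Ext M S n)
  let F : M ≅ N := e.toModuleIso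
  refine ⟨⟨(Ext.mk₀ F.inv).comp x (zero_add n), 0, fun h0 => hx ?_⟩⟩
  have h1 : (Ext.mk₀ F.hom).comp ((Ext.mk₀ F.inv).comp x (zero_add n)) (zero_add n) = x := by
    rw [Ext.mk₀_comp_mk₀_assoc, F.hom_inv_id, Ext.mk₀_id_comp]
  rw [← h1, h0, Ext.comp_zero]

theorem exa_iso_iff {M N S : ModuleCat.{u} Λ} (e : M ≃ₗ[Λ] N) {n : ℕ} :
    Nontrivial (Ext M S n) ↔ Nontrivial (Ext N S n) := ⟨exa_iso e, exa_iso e.symm⟩

theorem inf_iso {M N S : ModuleCat.{u} Λ} (e : M ≃ₗ[Λ] N) : Inf M S ↔ Inf N S := by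
  constructor
  · intro h m
    obtain ⟨n, hn, h1⟩ := h m
    exact ⟨n, hn, exa_iso e h1⟩
  · intro h m
    obtain ⟨n, hn, h1⟩ := h m
    exact ⟨n, hn, exa_iso e.symm h1⟩

section ses
variable {A B C : Type u} [AddCommGroup A] [Module Λ A] [AddCommGroup B] [Module Λ B] [AddCommGroup C] [Module Λ C]
  {i : A →ₗ[Λ] B} {p : B →ₗ[Λ] C}

theorem inf_mid (hi : Function.Injective i) (hp : Function.Surjective p) (hex : LinearMap.range i = LinearMap.ker p)
    {S : ModuleCat.{u} Λ} (h : Inf (ModuleCat.of Λ B) S) :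
    Inf (ModuleCat.of Λ A) S ∨ Inf (ModuleCat.of Λ C) S := by
  by_contra hc
  rw [not_or] at hc
  unfold Inf at hc
  push Not at hc
  obtain ⟨⟨m, hm⟩, m', hm'⟩ := hc
  obtain ⟨n, hn, h1⟩ := h (max m m')
  rcases exa_mid hi hp hex h1 with h2 | h2
  · exact not_nontrivial_iff_subsingleton.2 (hm n ((le_max_left _ _).trans hn)) h2
  · exact not_nontrivial_iff_subsingleton.2 (hm' n ((le_max_right _ _).trans hn)) h2

theorem inf_shift (hi : Function.Injective i) (hp : Function.Surjective p) (hex : LinearMap.range i = LinearMap.ker p)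
    (hP : Module.Projective Λ B) {S : ModuleCat.{u} Λ} : Inf (ModuleCat.of Λ C) S ↔ Inf (ModuleCat.of Λ A) S := by
  constructor
  · intro h m
    obtain ⟨n, hn, h1⟩ := h (m + 2)
    obtain ⟨n', rfl⟩ : ∃ n', n = n' + 2 := ⟨n - 2, by omega⟩
    exact ⟨n' + 1, by omega, (exa_shift hi hp hex hP).1 h1⟩
  · intro h m
    obtain ⟨n, hn, h1⟩ := h (m + 1)
    obtain ⟨n', rfl⟩ : ∃ n', n = n' + 1 := ⟨n - 1, by omega⟩
    exact ⟨n' + 2, by omega, (exa_shift hi hp hex hP).2 h1⟩

end ses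

/-- a map from the cover to a simple module kills the kernel -/
theorem cover_kill {M P : ModuleCat.{u} Λ} {π : P →ₗ[Λ] M} (h : IsProjectiveCover π) {S : ModuleCat.{u} Λ}
    (hS : IsSimpleModule Λ S) (f : P →ₗ[Λ] S) (a : LinearMap.ker π) : f a = 0 := by
  by_contra ha
  have h1 : (LinearMap.ker π).map f = ⊤ := by
    refine (eq_bot_or_eq_top _).resolve_left fun h0 => ha ?_
    have h2 : f a ∈ (LinearMap.ker π).map f := ⟨a, a.2, rfl⟩
    rw [h0] at h2
    exact h2
  have h2 : LinearMap.ker f ⊔ LinearMap.ker π = ⊤ := by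
    rw [eq_top_iff]
    intro x _
    have h3 : f x ∈ (LinearMap.ker π).map f := by rw [h1]; trivial
    obtain ⟨y, hy, hxy⟩ := h3
    have h4 : x = (x - y) + y := by abel
    rw [h4]
    refine Submodule.add_mem_sup ?_ hy
    rw [LinearMap.mem_ker, map_sub, hxy, sub_self]
  have h3 := h.2.2 _ h2
  have h4 : (a : P) ∈ LinearMap.ker f := by rw [h3]; trivial
  exact ha h4

/-- syzygies and Ext groups -/
theorem syz_ext {M N : ModuleCat.{u} Λ} {n : ℕ} (h : IsSyzygy n M N) (S : ModuleCat.{u} Λ) (k : ℕ) :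
    Nontrivial (Ext M S (n + (k + 1))) ↔ Nontrivial (Ext N S (k + 1)) := by
  induction n generalizing N k with
  | zero =>
    obtain ⟨e⟩ := h
    rw [zero_add]
    exact exa_iso_iff e
  | succ n ih =>
    obtain ⟨M', P, hM', π, hπ, ⟨e⟩⟩ := h
    have h1 := ih hM' (k + 1)
    rw [show n + 1 + (k + 1) = n + (k + 1 + 1) by omega, h1]
    have h2 := exa_shift (i := (LinearMap.ker π).subtype) (p := π) (Submodule.injective_subtype _) hπ.2.1
      (Submodule.range_subtype _) hπ.1 (S := S) (n := k)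
    rw [show k + 1 + 1 = k + 2 by omega]
    exact h2.trans (exa_iso_iff e)

/-- syzygies and Ext groups: the top of the syzygy -/
theorem syz_hom {M N : ModuleCat.{u} Λ} {n : ℕ} (h : IsSyzygy n M N) {S : ModuleCat.{u} Λ} (hS : IsSimpleModule Λ S) :
    Nontrivial (Ext M S n) ↔ ∃ f : N →ₗ[Λ] S, f ≠ 0 := by
  cases n with
  | zero =>
    obtain ⟨e⟩ := h
    exact (exa_iso_iff e).trans exa_hom
  | succ n =>
    obtain ⟨M', P, hM', π, hπ, ⟨e⟩⟩ := h
    rw [show n + 1 = n + (0 + 1) by omega, syz_ext hM' S 0]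
    have h2 := exa_one (i := (LinearMap.ker π).subtype) (p := π) (Submodule.injective_subtype _) hπ.2.1
      (Submodule.range_subtype _) hπ.1 (S := S) (fun f a => cover_kill hπ hS f a)
    rw [zero_add]
    refine h2.trans ?_
    constructor
    · rintro ⟨f, hf⟩
      refine ⟨f ∘ₗ e.symm.toLinearMap, fun h0 => hf ?_⟩
      ext a
      have h3 := congrArg (fun g : N →ₗ[Λ] S => g (e a)) h0
      simpa using h3
    · rintro ⟨f, hf⟩
      refine ⟨f ∘ₗ e.toLinearMap, fun h0 => hf ?_⟩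
      ext a
      have h3 := congrArg (fun g : LinearMap.ker π →ₗ[Λ] S => g (e.symm a)) h0
      simpa using h3

theorem inf_syz {M N : ModuleCat.{u} Λ} {n : ℕ} (h : IsSyzygy n M N) {S : ModuleCat.{u} Λ} : Inf M S ↔ Inf N S := by
  constructor
  · intro h1 m
    obtain ⟨q, hq, h2⟩ := h1 (n + m + 1)
    obtain ⟨q', rfl⟩ : ∃ q', q = n + (q' + 1) := ⟨q - n - 1, by omega⟩
    exact ⟨q' + 1, by omega, (syz_ext h S q').1 h2⟩
  · intro h1 m
    obtain ⟨q, hq, h2⟩ := h1 (m + 1)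
    obtain ⟨q', rfl⟩ : ∃ q', q = q' + 1 := ⟨q - 1, by omega⟩
    exact ⟨n + (q' + 1), by omega, (syz_ext h S q').2 h2⟩

end Pool.Agent.SVR
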