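import Pool.Agent.SVR.Abs

/-!
# SVR/Fb: a syzygy avoids the vertices of the top
-/

set_option autoImplicit false

open CategoryTheory Abelian Pool.Agent.PathAlg

universe u

namespace Pool.Agent.SVR

variable {Λ : Type u} [Ring Λ]

/-- pulling back along `b` is injective on the late Ext groups -/
def Kp (S : ModuleCat.{u} Λ) (m : ℕ) {A B : Type u} [AddCommGroup A] [Module Λ A] [AddCommGroup B] [Module Λ B] (b : A →ₗ[Λ] B) :
    Prop :=
  ∀ j, m ≤ j → ∀ ξ : Ext (ModuleCat.of Λ B) S j, (Ext.mk₀ (ModuleCat.ofHom b)).comp ξ (zero_add j) = 0 → ξ = 0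

section
variable {A B C A' B' C' : Type u} [AddCommGroup A] [Module Λ A] [AddCommGroup B] [Module Λ B] [AddCommGroup C] [Module Λ C]
  [AddCommGroup A'] [Module Λ A'] [AddCommGroup B'] [Module Λ B'] [AddCommGroup C'] [Module Λ C']
  {i : A →ₗ[Λ] B} {p : B →ₗ[Λ] C} {i' : A' →ₗ[Λ] B'} {p' : B' →ₗ[Λ] C'}

theorem kp_step (hi : Function.Injective i) (hp : Function.Surjective p) (hex : LinearMap.range i = LinearMap.ker p)
    (hP : Module.Projective Λ B) (hi' : Function.Injective i') (hp' : Function.Surjective p')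
    (hex' : LinearMap.range i' = LinearMap.ker p') {b : C' →ₗ[Λ] C} {g : B' →ₗ[Λ] B} {b1 : A' →ₗ[Λ] A}
    (h1 : ∀ w, i (b1 w) = g (i' w)) (h2 : ∀ w, p (g w) = b (p' w)) {S : ModuleCat.{u} Λ} {m : ℕ} (hb : Kp S m b) :
    Kp S (m + 1) b1 := by
  intro j hj ξ hξ
  have hproj : Projective (ModuleCat.of Λ B) := (IsProjective.iff_projective (R := Λ) B).1 hP
  have hs := exa_ses hi hp hex
  have hs' := exa_ses hi' hp' hex'
  let φ : ShortComplex.mk (ModuleCat.ofHom i') (ModuleCat.ofHom p') (exa_zero hex') ⟶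
      ShortComplex.mk (ModuleCat.ofHom i) (ModuleCat.ofHom p) (exa_zero hex) :=
    { τ₁ := ModuleCat.ofHom b1
      τ₂ := ModuleCat.ofHom g
      τ₃ := ModuleCat.ofHom b
      comm₁₂ := by
        ext w
        exact h1 w
      comm₂₃ := by
        ext w
        exact h2 w }
  have hnat := ShortComplex.ShortExact.extClass_naturality hs' hs φ
  have h3 : hs.extClass.comp ξ (show 1 + j = j + 1 by omega) = 0 := by
    apply hb (j + 1) (by omega)
    have h4 : (Ext.mk₀ (ModuleCat.ofHom b)).comp (hs.extClass.comp ξ (show 1 + j = j + 1 by omega)) (zero_add (j + 1)) =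
        ((Ext.mk₀ (ModuleCat.ofHom b)).comp hs.extClass (zero_add 1)).comp ξ (show 1 + j = j + 1 by omega) := by
      rw [Ext.comp_assoc]
      omega
    rw [h4]
    have h5 : (Ext.mk₀ (ModuleCat.ofHom b)).comp hs.extClass (zero_add 1) =
        hs'.extClass.comp (Ext.mk₀ (ModuleCat.ofHom b1)) (add_zero 1) := hnat.symm
    rw [h5, Ext.comp_assoc _ _ _ (add_zero 1) (zero_add j) (by omega), hξ, Ext.comp_zero]
  obtain ⟨y, hy⟩ := Ext.contravariant_sequence_exact₁ hs S ξ _ h3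
  obtain ⟨j', rfl⟩ : ∃ j', j = j' + 1 := ⟨j - 1, by omega⟩
  have hB : Subsingleton (Ext (ModuleCat.of Λ B) S (j' + 1)) := Ext.subsingleton_of_projective _ _ _
  have hy0 : y = 0 := Subsingleton.elim _ _
  rw [← hy, hy0, Ext.comp_zero]

theorem kp_sub {b : B →ₗ[Λ] C'} (hi : Function.Injective i) (hp : Function.Surjective p)
    (hex : LinearMap.range i = LinearMap.ker p) {S : ModuleCat.{u} Λ} {m : ℕ} (hb : Kp S m b)
    (hS : ¬ Inf (ModuleCat.of Λ C) S) : ∃ m', Kp S m' (b ∘ₗ i) := by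
  have hs := exa_ses hi hp hex
  unfold Inf at hS
  push Not at hS
  obtain ⟨m', hm'⟩ := hS
  refine ⟨max m m', ?_⟩
  intro j hj ξ hξ
  apply hb j ((le_max_left _ _).trans hj)
  have h1 : (Ext.mk₀ (ModuleCat.ofHom i)).comp ((Ext.mk₀ (ModuleCat.ofHom b)).comp ξ (zero_add j)) (zero_add j) = 0 := by
    rw [← hξ, ← Ext.comp_assoc _ _ _ (zero_add 0) (zero_add j) (by omega), Ext.mk₀_comp_mk₀]
    rfl
  obtain ⟨y, hy⟩ := Ext.contravariant_sequence_exact₂ hs S _ h1
  have hC := hm' j ((le_max_right _ _).trans hj)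
  have hy0 : y = 0 := Subsingleton.elim _ _
  rw [← hy, hy0, Ext.comp_zero]

end

variable {V : Type} [Fintype V] {e : V → Λ} {J : Ideal Λ}

theorem fb_ind [IsArtinianRing Λ] [IsNoetherianRing Λ] (h : Vr e J) {M : ModuleCat.{u} Λ} (R : MinRes M) {K : Set V}
    (hM : Gen e K (R.N 0) = ⊤) {S : ModuleCat.{u} Λ} (hS : ∀ z, z ∉ K → (∃ k ∈ K, Rl e z k) → ¬ Inf (Sm e J z) S) (n : ℕ) :
    ∃ (D : ModuleCat.{u} Λ) (_ : Module.Finite Λ D) (b : D →ₗ[Λ] R.N n) (m : ℕ), Gen e K D = ⊤ ∧ Kp S m b := by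
  induction n with
  | zero =>
    refine ⟨R.N 0, R.finN 0, LinearMap.id, 0, hM, ?_⟩
    intro j _ ξ hξ
    have h1 : (ModuleCat.ofHom (LinearMap.id : R.N 0 →ₗ[Λ] R.N 0)) = 𝟙 (R.N 0) := rfl
    rw [← hξ]
    exact (Ext.mk₀_id_comp ξ).symm
  | succ n ih =>
    obtain ⟨D, hD, b, m, hG, hb⟩ := ih
    obtain ⟨Q, hQ, π', hπ'⟩ := exists_cover D
    have hQG : Gen e K Q = ⊤ := gen_cover hπ' hG
    have hQp := hπ'.1
    obtain ⟨g, hg⟩ := Module.projective_lifting_property (R.π n) (b ∘ₗ π') (R.cov n).2.1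
    have hg' : ∀ w, R.π n (g w) = b (π' w) := fun w => congrArg (fun F : Q →ₗ[Λ] R.N n => F w) hg
    let N' : Submodule Λ Q := LinearMap.ker π'
    have hker : ∀ w : N', ∃ v : R.N (n + 1), R.ι n v = g w := by
      intro w
      have h1 : g w ∈ LinearMap.ker (R.π n) := by
        rw [LinearMap.mem_ker, hg', LinearMap.mem_ker.1 w.2, map_zero]
      rw [← R.ex n] at h1
      exact h1
    choose β hβ using hker
    let b1 : N' →ₗ[Λ] R.N (n + 1) :=
      { toFun := β
        map_add' := fun w w' => R.inj n (by rw [map_add, hβ, hβ, hβ, Submodule.coe_add, map_add])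
        map_smul' := fun c w => R.inj n (by
          rw [hβ, Submodule.coe_smul, map_smul, RingHom.id_apply, map_smul, hβ]) }
    have hb1 : Kp S (m + 1) b1 := kp_step (R.inj n) (R.cov n).2.1 (R.ex n) (R.cov n).1 (i' := N'.subtype) (p' := π')
      (Submodule.injective_subtype _) hπ'.2.1 (Submodule.range_subtype _) (g := g) (b1 := b1) hβ hg' hb
    let D' : Submodule Λ N' := Gen e K N'
    have hq : ¬ Inf (ModuleCat.of Λ (N' ⧸ D')) S := by
      intro hI
      have hfl : IsFiniteLength Λ (N' ⧸ D') := isFiniteLength_iff_isNoetherian_isArtinian.2 ⟨inferInstance, inferInstance⟩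
      obtain ⟨z, ⟨t, ht⟩, hz⟩ := h.filt hfl hI
      obtain ⟨w, rfl⟩ := Submodule.Quotient.mk_surjective _ t
      refine hS z ?_ ?_ hz
      · intro hzK
        apply ht
        rw [← Submodule.Quotient.mk_smul, Submodule.Quotient.mk_eq_zero]
        exact Gen_mem hzK w
      · by_contra hc
        push Not at hc
        apply ht
        have h1 : e z • (w : Q) = 0 := gen_supp (A := K) (fun a ha c => by
          have h2 := hc a ha
          unfold Rl at h2
          push Not at h2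
          exact h2 c) (by rw [hQG]; trivial)
        have h2 : e z • w = 0 := Subtype.ext h1
        rw [← Submodule.Quotient.mk_smul, h2]
        rfl
    obtain ⟨m', hm'⟩ := kp_sub (i := D'.subtype) (p := D'.mkQ) (b := b1) (Submodule.injective_subtype _)
      (Submodule.mkQ_surjective _) (by rw [Submodule.range_subtype, Submodule.ker_mkQ]) hb1 hq
    refine ⟨ModuleCat.of Λ D', inferInstanceAs (Module.Finite Λ D'), b1 ∘ₗ D'.subtype, m', ?_, hm'⟩
    exact gen_gen h.idem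

/-- **If a late syzygy avoids the vertices of the top, the module is built from the other vertices.** -/
theorem fb [IsArtinianRing Λ] [IsNoetherianRing Λ] (h : Vr e J) {M : ModuleCat.{u} Λ} (R : MinRes M) {K : Set V}
    (hM : Gen e K (R.N 0) = ⊤) {n : ℕ} (hn : ∀ k ∈ K, ∀ v : R.N n, e k • v = 0) {S : ModuleCat.{u} Λ} (hS : Inf M S) :
    ∃ z, z ∉ K ∧ (∃ k ∈ K, Rl e z k) ∧ Inf (Sm e J z) S := by
  by_contra hc
  push Not at hc
  obtain ⟨D, hD, b, m, hG, hb⟩ := fb_ind h R hM (S := S) (fun z hz ⟨k, hk, hzk⟩ => hc z hz ⟨k, hk, hzk⟩) n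
  have hb0 : b = 0 := by
    ext w
    have hw : w ∈ Gen e K D := by rw [hG]; trivial
    have hle : Gen e K D ≤ LinearMap.ker b := by
      refine Submodule.span_le.2 ?_
      rintro _ ⟨k, hk, w, rfl⟩
      show b (e k • w) = 0
      rw [map_smul, hn k hk]
    exact hle hw
  have h1 := (inf_syz (R.syz n) (S := S)).1 hS
  obtain ⟨j, hj, hnt⟩ := h1 m
  obtain ⟨ξ, hξ⟩ := exists_ne (0 : Ext (R.N n) S j)
  apply hξ
  apply hb j hj ξ
  subst hb0
  have h2 : (ModuleCat.ofHom (0 : D →ₗ[Λ] R.N n)) = 0 := rfl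
  show (Ext.mk₀ (ModuleCat.ofHom (0 : D →ₗ[Λ] R.N n))).comp ξ (zero_add j) = 0
  rw [h2, Ext.mk₀_zero, Ext.zero_comp]

end Pool.Agent.SVR
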