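import Pool.Agent.SVR.Quo

/-!
# SVR/Fd: `kQ / I` is finite-dimensional; infinite projective dimension
-/

set_option autoImplicit false

open CategoryTheory Abelian Pool.Agent.PathAlg

universe u

namespace Pool.Agent.SVR

section fin
variable {V : Type} [Fintype V] [Quiver.{0} V] [∀ p q : V, Finite (p ⟶ q)]

theorem fin_paths (n : ℕ) : {p : APath V | p.path.length = n}.Finite := by
  classical
  induction n with
  | zero =>
    refine (Set.finite_range (fun x : V => triv x)).subset ?_
    rintro ⟨a, b, p⟩ hp
    change p.length = 0 at hp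
    cases p with
    | nil => exact ⟨a, rfl⟩
    | cons p g => rw [Quiver.Path.length_cons] at hp; omega
  | succ n ih =>
    let Ar := Σ a b : V, (a ⟶ b)
    have hAr : Finite Ar := inferInstance
    let F : APath V × Ar → APath V := fun q =>
      if h : q.1.tgt = q.2.1 then ⟨q.1.src, q.2.2.1, (q.1.path.cast rfl h).cons q.2.2.2⟩ else q.1
    refine ((ih.prod (Set.finite_univ (α := Ar))).image F).subset ?_
    rintro ⟨a, b, p⟩ hp
    change p.length = n + 1 at hp
    cases p with
    | nil => rw [Quiver.Path.length_nil] at hp; omega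
    | @cons c _ p g =>
      rw [Quiver.Path.length_cons] at hp
      refine ⟨(⟨a, c, p⟩, ⟨c, b, g⟩), ⟨?_, trivial⟩, ?_⟩
      · show p.length = n
        omega
      · show (if h : c = c then (⟨a, b, (p.cast rfl h).cons g⟩ : APath V) else ⟨a, c, p⟩) = ⟨a, b, p.cons g⟩
        rw [dif_pos rfl]
        rfl

theorem fin_paths_lt (n : ℕ) : {p : APath V | p.path.length < n}.Finite := by
  have h1 : {p : APath V | p.path.length < n} = ⋃ i ∈ Finset.range n, {p : APath V | p.path.length = i} := by
    ext p
    simp
  rw [h1]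
  exact Set.Finite.biUnion (Finset.finite_toSet _) fun i _ => fin_paths i

end fin

variable {k : Type u} [Field k] {V : Type} [Fintype V] [Quiver.{0} V] [∀ p q : V, Finite (p ⟶ q)]
  {I : Ideal (PathAlgebra k V)} [I.IsTwoSided]

theorem quo_fd (hI : IsAdmissible I) : Module.Finite k (PathAlgebra k V ⧸ I) := by
  classical
  obtain ⟨m, hm2, hmI, -⟩ := hI
  have hS := (fin_paths_lt (V := V) m).image (fun p => (Ideal.Quotient.mk I (ofPath k p)))
  refine ⟨Submodule.fg_def.2 ⟨_, hS, ?_⟩⟩
  rw [eq_top_iff]
  intro b _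
  obtain ⟨f, rfl⟩ := Ideal.Quotient.mk_surjective b
  refine quo_ind (P := fun f => Ideal.Quotient.mk I f ∈ Submodule.span k
    ((fun p => (Ideal.Quotient.mk I (ofPath k p))) '' {p : APath V | p.path.length < m})) ?_ ?_ ?_ ?_ f
  · rw [map_zero]
    exact Submodule.zero_mem _
  · intro f g hf hg
    rw [map_add]
    exact Submodule.add_mem _ hf hg
  · intro c f hf
    have h1 : Ideal.Quotient.mk I (c • f) = c • Ideal.Quotient.mk I f := map_smul (Ideal.Quotient.mkₐ k I) c f
    rw [h1]
    exact Submodule.smul_mem _ _ hf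
  · intro p
    by_cases hp : p.path.length < m
    · exact Submodule.subset_span ⟨p, hp, rfl⟩
    · have h1 : Ideal.Quotient.mk I (ofPath k p) = 0 := by
        rw [Ideal.Quotient.eq_zero_iff_mem]
        refine hmI (quo_pow (by omega) ?_)
        exact Submodule.subset_span ⟨p, not_lt.1 hp, rfl⟩
      rw [h1]
      exact Submodule.zero_mem _

theorem quo_art (hI : IsAdmissible I) : IsArtinianRing (PathAlgebra k V ⧸ I) := by
  have := quo_fd hI
  exact IsArtinianRing.of_finite k _

theorem quo_noeth (hI : IsAdmissible I) : IsNoetherianRing (PathAlgebra k V ⧸ I) := by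
  have := quo_fd hI
  exact IsNoetherianRing.of_finite k _

section pd
variable {Λ : Type u} [Ring Λ] {W : Type} [Fintype W] {e : W → Λ} {J : Ideal Λ}

/-- a module of infinite projective dimension -/
theorem pd_inf [IsArtinianRing Λ] [IsNoetherianRing Λ] (h : Vr e J) {M : ModuleCat.{u} Λ} (R : MinRes M)
    (hM : projectiveDimension M = ⊤) : ∃ y, Inf M (Sm e J y) := by
  by_contra hc
  push Not at hc
  obtain ⟨m, hm⟩ := tail_gen h R
  have hA : Av e J M = ∅ := by
    ext y
    exact ⟨fun hy => hc y hy, fun hy => absurd hy (Set.notMem_empty y)⟩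
  have h1 := hm m le_rfl
  rw [hA] at h1
  have h2 : Gen e ∅ (R.N m) = ⊥ := by
    unfold Gen
    rw [Submodule.span_eq_bot]
    rintro x ⟨a, ha, -⟩
    exact absurd ha (Set.notMem_empty a)
  rw [h2] at h1
  have h3 : Subsingleton (R.N m) := Submodule.subsingleton_iff Λ |>.1 (subsingleton_of_bot_eq_top h1)
  -- downward induction
  have key : ∀ j, j ≤ m → HasProjectiveDimensionLT (R.N (m - j)) (j + 1) := by
    intro j
    induction j with
    | zero =>
      intro _
      have h4 : Limits.IsZero (R.N m) := by
        rw [ModuleCat.isZero_iff_subsingleton]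
        exact h3
      have h5 := h4.hasProjectiveDimensionLT_zero
      exact hasProjectiveDimensionLT_of_ge (R.N m) 0 1 (by omega)
    | succ j ih =>
      intro hj
      have h4 := ih (by omega)
      have h5 : m - j = (m - (j + 1)) + 1 := by omega
      rw [h5] at h4
      exact (hpd_shift (R.ι _) (R.π _) (R.inj _) (R.cov _).2.1 (R.ex _) (R.cov _).1 j).2 h4
  have h4 := key m le_rfl
  rw [Nat.sub_self] at h4
  have h5 : HasProjectiveDimensionLT M (m + 1) := hasProjectiveDimensionLT_of_iso R.e0.symm.toModuleIso (m + 1)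
  exact (projectiveDimension_ne_top_iff M).2 ⟨m, h5⟩ hM

end pd

end Pool.Agent.SVR
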