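import Pool.Agent.SVR.Fd

/-!
# SVR/Gl: infinite global dimension, recurrence of a vertex
-/

set_option autoImplicit false

open CategoryTheory Abelian Pool.Agent.PathAlg

universe u

namespace Pool.Agent.SVR

variable {Λ : Type u} [Ring Λ] {V : Type} [Fintype V] {e : V → Λ} {J : Ideal Λ}

/-- extensions of modules of finite length with bounded projective dimension -/
theorem pd_fl (h : Vr e J) {d : ℕ} (hd : ∀ x, HasProjectiveDimensionLT (Sm e J x) d) {M : Type u} [AddCommGroup M] [Module Λ M]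
    (hM : IsFiniteLength Λ M) : HasProjectiveDimensionLT (ModuleCat.of Λ M) d := by
  induction hM with
  | @of_subsingleton M _ _ _ =>
    have h4 : Limits.IsZero (ModuleCat.of Λ M) := by
      rw [ModuleCat.isZero_iff_subsingleton]
      infer_instance
    have h5 := h4.hasProjectiveDimensionLT_zero
    exact hasProjectiveDimensionLT_of_ge _ 0 d (by omega)
  | @of_simple_quotient M _ _ N _ _ ih =>
    have hT : IsSimpleModule Λ (M ⧸ N) := inferInstance
    have : Nontrivial (M ⧸ N) := IsSimpleModule.nontrivial Λ _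
    obtain ⟨t, ht⟩ := exists_ne (0 : M ⧸ N)
    obtain ⟨z, hz⟩ := h.exists_vertex ht
    obtain ⟨E⟩ := h.simple_iso hT hz
    have h1 := hd z
    have h2 : HasProjectiveDimensionLT (ModuleCat.of Λ (M ⧸ N)) d :=
      hasProjectiveDimensionLT_of_iso (E.symm.toModuleIso : Sm e J z ≅ ModuleCat.of Λ (M ⧸ N)) d
    have h3 := exa_ses (i := N.subtype) (p := N.mkQ)
      (Submodule.injective_subtype _) (Submodule.mkQ_surjective _) (by rw [Submodule.range_subtype, Submodule.ker_mkQ])
    exact h3.hasProjectiveDimensionLT_X₂ d ih h2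

section
variable [IsArtinianRing Λ] [IsNoetherianRing Λ]

theorem gl_inf (h : Vr e J) (hgl : ∀ d : ℕ, ∃ M : ModuleCat.{u} Λ, Module.Finite Λ M ∧ ¬ HasProjectiveDimensionLT M d) :
    ∃ x y, Inf (Sm e J x) (Sm e J y) := by
  classical
  by_contra hc
  push Not at hc
  have h1 : ∀ x, ∃ d : ℕ, HasProjectiveDimensionLT (Sm e J x) d := by
    intro x
    obtain ⟨R⟩ := exists_minRes (Sm e J x) (hM := by
      show Module.Finite Λ (Λ ⧸ Lz e J x)
      infer_instance)
    by_contra h2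
    push Not at h2
    obtain ⟨y, hy⟩ := pd_inf h R (by
      by_contra h3
      obtain ⟨d, hd⟩ := (projectiveDimension_ne_top_iff _).1 h3
      exact h2 _ hd)
    exact hc x y hy
  choose d hd using h1
  have h2 : ∀ x, HasProjectiveDimensionLT (Sm e J x) (∑ x, d x) := by
    intro x
    have h3 := hd x
    exact hasProjectiveDimensionLT_of_ge _ (d x) _ (Finset.single_le_sum (fun _ _ => Nat.zero_le _) (Finset.mem_univ x))
  obtain ⟨M, hM, hn⟩ := hgl (∑ x, d x)
  apply hn
  have h3 : IsFiniteLength Λ M := isFiniteLength_iff_isNoetherian_isArtinian.2 ⟨inferInstance, inferInstance⟩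
  exact pd_fl h h2 h3

omit [IsArtinianRing Λ] [IsNoetherianRing Λ] in
/-- a vertex with `e x Ω^n(S_x) ≠ 0` for infinitely many `n`, for one minimal resolution and for all syzygies -/
theorem rec_of (h : Vr e J) {x : V} (R : MinRes (Sm e J x)) (hx : ∀ m, ∃ n, m ≤ n ∧ ∃ v : R.N n, e x • v ≠ 0)
    {S : ModuleCat.{u} Λ} (hS : IsSimpleAt (e x) S) (m : ℕ) :
    ∃ n, m ≤ n ∧ (∃ N : ModuleCat.{u} Λ, IsSyzygy n S N) ∧ ∀ N : ModuleCat.{u} Λ, IsSyzygy n S N → ∃ v : N, e x • v ≠ 0 := by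
  obtain ⟨hS1, s, hs⟩ := hS
  obtain ⟨E⟩ := h.simple_iso hS1 hs
  let R' : MinRes S := { R with e0 := E.trans R.e0 }
  obtain ⟨n, hmn, v, hv⟩ := hx m
  refine ⟨n, hmn, ⟨_, R'.syz n⟩, ?_⟩
  intro N hN
  obtain ⟨F⟩ := R'.uniq n hN
  have F' : R.N n ≃ₗ[Λ] N := F.symm
  refine ⟨F' v, fun h1 => hv ?_⟩
  rw [← map_smul] at h1
  exact (map_eq_zero_iff F' F'.injective).1 h1

omit [IsArtinianRing Λ] [IsNoetherianRing Λ] in
theorem simpleAt_Sm (h : Vr e J) (x : V) : IsSimpleAt (e x) (Sm e J x) := ⟨h.simple x, h.Sm_self x⟩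

end

end Pool.Agent.SVR
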