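import Pool.Agent.SVR.Src

/-!
# SVR/Lcl: local rings: all syzygies of the simple module are nonzero
-/

set_option autoImplicit false

open CategoryTheory Abelian Pool.Agent.PathAlg

universe u

namespace Pool.Agent.SVR

variable {Λ : Type u} [Ring Λ] {J : Ideal Λ}

/-- an element of the socle -/
theorem lcl_soc (h : Vr (fun _ : Unit => (1 : Λ)) J) (hJ : ∃ c ∈ J, c ≠ 0) : ∃ w ∈ J, w ≠ 0 ∧ ∀ j ∈ J, w * j = 0 := by
  classical
  obtain ⟨m, hm⟩ := h.nil
  let Pr : ℕ → Prop := fun t => ∃ l : List Λ, l.length = t ∧ (∀ a ∈ l, a ∈ J) ∧ l.prod ≠ 0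
  have h1 : Pr 1 := by
    obtain ⟨c, hc, h0⟩ := hJ
    exact ⟨[c], rfl, by simpa using hc, by simpa using h0⟩
  have hb : ∀ t, Pr t → t < m := by
    rintro t ⟨l, hl, hlJ, hl0⟩
    by_contra hc
    apply hl0
    have h2 : l = l.take m ++ l.drop m := (List.take_append_drop m l).symm
    rw [h2, List.prod_append, hm (l.take m) (by rw [List.length_take]; omega) (fun a ha => hlJ a (List.mem_of_mem_take ha)), zero_mul]
  let t := Nat.findGreatest Pr m
  have ht : Pr t := Nat.findGreatest_spec (P := Pr) (hb 1 h1).le h1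
  have ht1 : 1 ≤ t := Nat.le_findGreatest (hb 1 h1).le h1
  have hmax : ¬ Pr (t + 1) := by
    intro hc
    have h2 := Nat.le_findGreatest (P := Pr) (hb _ hc).le hc
    change t + 1 ≤ t at h2
    omega
  obtain ⟨l, hl, hlJ, hl0⟩ := ht
  refine ⟨l.prod, ?_, hl0, ?_⟩
  · obtain ⟨a, l', rfl⟩ : ∃ a l', l = a :: l' := by
      cases l with
      | nil => simp at hl; omega
      | cons a l' => exact ⟨a, l', rfl⟩
    rw [List.prod_cons]
    exact h.two a _ (hlJ a (by simp))
  · intro j hj
    by_contra hc
    apply hmax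
    refine ⟨l ++ [j], by simp [hl], ?_, by simpa using hc⟩
    intro a ha
    rcases List.mem_append.1 ha with h2 | h2
    · exact hlJ a h2
    · rw [List.mem_singleton.1 h2]; exact hj

/-- **Local rings.** -/
theorem lcl_ne (h : Vr (fun _ : Unit => (1 : Λ)) J) (hJ : ∃ c ∈ J, c ≠ 0) (R : MinRes (Sm (fun _ : Unit => (1 : Λ)) J ())) (n : ℕ) :
    Nontrivial (R.N n) := by
  obtain ⟨w, hwJ, hw0, hw⟩ := lcl_soc h hJ
  have hsim := h.simple ()
  have htop : ∀ (P : Type u) [AddCommGroup P] [Module Λ P], Gen (fun _ : Unit => (1 : Λ)) Set.univ P = ⊤ := by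
    intro P _ _
    rw [eq_top_iff]
    intro p _
    exact Submodule.subset_span ⟨(), trivial, p, (one_smul _ _).symm⟩
  -- `w` kills the syzygies
  have hkill : ∀ n, ∀ v : R.N n, w • v = 0 := by
    intro n
    cases n with
    | zero =>
      intro v
      apply R.e0.symm.injective
      rw [map_smul, map_zero]
      exact h.kill hsim hwJ _
    | succ n =>
      intro v
      apply R.inj n
      rw [map_smul, map_zero]
      by_contra hc
      obtain ⟨a, -, g, hg, hgu⟩ := coord h.idem (R.cov n).1 (htop _) hc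
      apply hgu
      have h5 : R.π n (R.ι n v) = 0 := by
        have h6 : R.ι n v ∈ LinearMap.ker (R.π n) := by
          rw [← R.ex n]
          exact ⟨_, rfl⟩
        exact h6
      rw [map_smul, smul_eq_mul]
      exact hw _ (ker_rad h (a := ()) (R.cov n) g hg h5)
  induction n with
  | zero =>
    have : Nontrivial (Sm (fun _ : Unit => (1 : Λ)) J ()) := IsSimpleModule.nontrivial Λ _
    exact R.e0.symm.toEquiv.nontrivial
  | succ n ih =>
    by_contra hc
    rw [not_nontrivial_iff_subsingleton] at hc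
    -- the cover is an isomorphism
    have hinj : Function.Injective (R.π n) := by
      rw [← LinearMap.ker_eq_bot, ← R.ex n, LinearMap.range_eq_bot]
      ext v
      rw [Subsingleton.elim v 0, map_zero, map_zero]
    have hwP : ∀ p : R.P n, w • p = 0 := fun p => hinj (by rw [map_smul, map_zero]; exact hkill n _)
    -- a map onto the simple module
    have hf : ∃ f : R.N n →ₗ[Λ] Sm (fun _ : Unit => (1 : Λ)) J (), f ≠ 0 := by
      by_contra hno
      push Not at hno
      have := R.finN n
      have h1 := h.gen_of_hom (A := ∅) (M := R.N n) (fun y _ f => hno f)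
      have h2 : Gen (fun _ : Unit => (1 : Λ)) ∅ (R.N n) = ⊥ := by
        unfold Gen
        rw [Submodule.span_eq_bot]
        rintro x ⟨a, ha, -⟩
        exact absurd ha (Set.notMem_empty a)
      rw [h2] at h1
      exact not_subsingleton (R.N n) (Submodule.subsingleton_iff Λ |>.1 (subsingleton_of_bot_eq_top h1))
    obtain ⟨f, hf⟩ := hf
    obtain ⟨g, p, hgp⟩ := top_split h (R.cov n) hf
    rw [mul_one] at hgp
    apply hw0
    have h4 : w = g (w • p) := by rw [map_smul, hgp, smul_eq_mul, mul_one]
    rw [h4, hwP, map_zero]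

end Pool.Agent.SVR
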