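import Pool.Agent.SVR.Abs
import Pool.Agent.PathAlg.Example

/-!
# SVR/Quo: quotients of path algebras by admissible ideals
-/

set_option autoImplicit false

open CategoryTheory Abelian Pool.Agent.PathAlg

universe u

namespace Pool.Agent.SVR

variable {k : Type u} [Field k] {V : Type} [Fintype V] [Quiver.{0} V]

theorem quo_pow {n : ℕ} (hn : 1 ≤ n) : lenIdeal k (V := V) n ≤ arrowIdeal k V ^ n := by
  induction n, hn using Nat.le_induction with
  | base => rw [Submodule.pow_one, arrowIdeal_eq]
  | succ n hn ih =>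
    intro f hf
    have hf' : f ∈ lenSub k (V := V) (n + 1) := hf
    have hle : lenSub k (V := V) (n + 1) ≤ (arrowIdeal k V ^ (n + 1)).restrictScalars k := by
      rw [lenSub, Submodule.span_le]
      rintro _ ⟨⟨a, b, p⟩, hp, rfl⟩
      cases p with
      | nil =>
        change n + 1 ≤ 0 at hp
        omega
      | cons p g =>
        change n + 1 ≤ (p.cons g).length at hp
        rw [Quiver.Path.length_cons] at hp
        change ofPath k (⟨a, b, p.cons g⟩ : APath V) ∈ arrowIdeal k V ^ (n + 1)
        rw [ofPath_cons, Submodule.pow_succ' _ (by omega)]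
        refine Ideal.mul_mem_mul ?_ (ih ?_)
        · exact Ideal.subset_span ⟨arr g, by simp [arr], rfl⟩
        · exact Submodule.subset_span ⟨_, by
            show n ≤ p.length
            omega, rfl⟩
    exact hle hf'

theorem quo_coef {f : PathAlgebra k V} (hf : f ∈ lenSub k (V := V) 1) (x : V) : (pathBasis k V).repr f (triv x) = 0 := by
  classical
  induction hf using Submodule.span_induction with
  | mem f hf =>
    obtain ⟨p, hp, rfl⟩ := hf
    rw [ofPath, Module.Basis.repr_self, Finsupp.single_apply, if_neg]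
    rintro rfl
    simp [triv] at hp
  | zero => simp
  | add f g _ _ hf hg => rw [map_add, Finsupp.add_apply, hf, hg, add_zero]
  | smul c f _ hf => rw [map_smul, Finsupp.smul_apply, hf, smul_zero]

theorem quo_ind {P : PathAlgebra k V → Prop} (h0 : P 0) (ha : ∀ f g, P f → P g → P (f + g)) (hs : ∀ (c : k) f, P f → P (c • f))
    (hp : ∀ p : APath V, P (ofPath k p)) (f : PathAlgebra k V) : P f := by
  have hf : f ∈ Submodule.span k (Set.range (pathBasis k V)) := by
    rw [(pathBasis k V).span_eq]
    trivial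
  induction hf using Submodule.span_induction with
  | mem f hf =>
    obtain ⟨p, rfl⟩ := hf
    exact hp p
  | zero => exact h0
  | add f g _ _ hf hg => exact ha f g hf hg
  | smul c f _ hf => exact hs c f hf

/-- the trivial path -/
noncomputable abbrev tr (k : Type u) [Field k] {V : Type} [Quiver.{0} V] (x : V) : PathAlgebra k V := ofPath k (triv x)

omit [Fintype V] in
theorem tr_mul (x : V) (p : APath V) (h : p.tgt = x) : tr k x * ofPath k p = ofPath k p := by
  obtain ⟨a, b, p⟩ := p
  change b = x at h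
  subst h
  rw [tr, ofPath_mul_ofPath, triv, pathMul_of_eq]
  rfl

theorem tr_mul_ne (x : V) (p : APath V) (h : p.tgt ≠ x) : tr k x * ofPath k p = 0 := by
  rw [tr, ofPath_mul_ofPath, pathMul_of_ne]
  exact h

omit [Fintype V] in
theorem mul_tr (x : V) (p : APath V) (h : p.src = x) : ofPath k p * tr k x = ofPath k p := by
  obtain ⟨a, b, p⟩ := p
  change a = x at h
  subst h
  rw [tr, ofPath_mul_ofPath, triv, pathMul_of_eq, Quiver.Path.nil_comp]

theorem mul_tr_ne (x : V) (p : APath V) (h : p.src ≠ x) : ofPath k p * tr k x = 0 := by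
  rw [tr, ofPath_mul_ofPath, pathMul_of_ne]
  exact fun h1 => h h1.symm

theorem quo_off {x y : V} (hxy : x ≠ y) (f : PathAlgebra k V) : tr k x * f * tr k y ∈ lenSub k (V := V) 1 := by
  refine quo_ind (P := fun f => tr k x * f * tr k y ∈ lenSub k (V := V) 1) ?_ ?_ ?_ ?_ f
  · rw [mul_zero, zero_mul]
    exact Submodule.zero_mem _
  · intro f g hf hg
    rw [mul_add, add_mul]
    exact Submodule.add_mem _ hf hg
  · intro c f hf
    rw [mul_smul_comm, smul_mul_assoc]
    exact Submodule.smul_mem _ _ hf
  · intro p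
    by_cases h1 : p.tgt = x
    · rw [tr_mul x p h1]
      by_cases h2 : p.src = y
      · rw [mul_tr y p h2]
        refine Submodule.subset_span ⟨p, ?_, rfl⟩
        obtain ⟨a, b, p⟩ := p
        cases p with
        | nil => exact absurd (h1.symm.trans h2) hxy
        | cons p g =>
          show 1 ≤ (p.cons g).length
          rw [Quiver.Path.length_cons]
          omega
      · rw [mul_tr_ne y p h2]
        exact Submodule.zero_mem _
    · rw [tr_mul_ne x p h1, zero_mul]
      exact Submodule.zero_mem _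

theorem quo_diag (x : V) (f : PathAlgebra k V) : ∃ c : k, tr k x * f * tr k x - c • tr k x ∈ lenSub k (V := V) 1 := by
  refine quo_ind (P := fun f => ∃ c : k, tr k x * f * tr k x - c • tr k x ∈ lenSub k (V := V) 1) ?_ ?_ ?_ ?_ f
  · refine ⟨0, ?_⟩
    rw [mul_zero, zero_mul, zero_smul, sub_zero]
    exact Submodule.zero_mem _
  · rintro f g ⟨c, hc⟩ ⟨d, hd⟩
    refine ⟨c + d, ?_⟩
    have h1 : tr k x * (f + g) * tr k x - (c + d) • tr k x = (tr k x * f * tr k x - c • tr k x) + (tr k x * g * tr k x - d • tr k x) := by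
      rw [mul_add, add_mul, add_smul]
      abel
    rw [h1]
    exact Submodule.add_mem _ hc hd
  · rintro c f ⟨d, hd⟩
    refine ⟨c * d, ?_⟩
    rw [mul_smul_comm, smul_mul_assoc, mul_smul, ← smul_sub]
    exact Submodule.smul_mem _ _ hd
  · intro p
    by_cases h1 : p.tgt = x
    · rw [tr_mul x p h1]
      by_cases h2 : p.src = x
      · rw [mul_tr x p h2]
        obtain ⟨a, b, p⟩ := p
        cases p with
        | nil =>
          change a = x at h1
          subst h1
          refine ⟨1, ?_⟩
          rw [one_smul]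
          show ofPath k (triv a) - ofPath k (triv a) ∈ _
          rw [sub_self]
          exact Submodule.zero_mem _
        | cons p g =>
          refine ⟨0, ?_⟩
          rw [zero_smul, sub_zero]
          refine Submodule.subset_span ⟨_, ?_, rfl⟩
          show 1 ≤ (p.cons g).length
          rw [Quiver.Path.length_cons]
          omega
      · refine ⟨0, ?_⟩
        rw [mul_tr_ne x p h2, zero_smul, sub_zero]
        exact Submodule.zero_mem _
    · refine ⟨0, ?_⟩
      rw [tr_mul_ne x p h1, zero_mul, zero_smul, sub_zero]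
      exact Submodule.zero_mem _

/-- the radical of `kQ / I` -/
noncomputable def Jq (I : Ideal (PathAlgebra k V)) [I.IsTwoSided] : Ideal (PathAlgebra k V ⧸ I) where
  carrier := {b | ∃ r ∈ lenSub k (V := V) 1, Ideal.Quotient.mk I r = b}
  add_mem' := by
    rintro _ _ ⟨j, hj, rfl⟩ ⟨j', hj', rfl⟩
    exact ⟨j + j', Submodule.add_mem _ hj hj', map_add _ _ _⟩
  zero_mem' := ⟨0, Submodule.zero_mem _, map_zero _⟩
  smul_mem' := by
    rintro b _ ⟨j, hj, rfl⟩
    obtain ⟨a, rfl⟩ := Ideal.Quotient.mk_surjective b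
    exact ⟨a * j, (lenIdeal k (V := V) 1).mul_mem_left a hj, map_mul _ _ _⟩

variable {I : Ideal (PathAlgebra k V)} [I.IsTwoSided]

theorem quo_list (l : List (PathAlgebra k V ⧸ I)) (hl : ∀ a ∈ l, a ∈ Jq I) :
    ∃ r ∈ lenSub k (V := V) l.length, Ideal.Quotient.mk I r = l.prod := by
  induction l with
  | nil => exact ⟨1, mem_lenSub_zero k _, map_one _⟩
  | cons a l ih =>
    obtain ⟨r, hr, hrl⟩ := ih fun b hb => hl b (List.mem_cons_of_mem _ hb)
    obtain ⟨j, hj, hja⟩ := hl a List.mem_cons_self
    refine ⟨j * r, ?_, ?_⟩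
    · rw [List.length_cons, add_comm]
      exact lenSub_mul k 1 l.length j r hj hr
    · rw [map_mul, hja, hrl, List.prod_cons]

theorem quo_vr (hI : IsAdmissible I) : Vr (vertexIdem I) (Jq I) := by
  classical
  obtain ⟨m, hm2, hmI, hI2⟩ := hI
  have hidem : ∀ x, vertexIdem I x * vertexIdem I x = vertexIdem I x := by
    intro x
    unfold vertexIdem
    rw [← map_mul, tr_mul x (triv x) rfl]
  have htwo : ∀ a b : PathAlgebra k V ⧸ I, a ∈ Jq I → a * b ∈ Jq I := by
    rintro _ b ⟨j, hj, rfl⟩
    obtain ⟨a, rfl⟩ := Ideal.Quotient.mk_surjective b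
    exact ⟨j * a, (lenIdeal_two k (V := V) 1).mul_mem_of_left a hj, map_mul _ _ _⟩
  have hnil : ∀ l : List (PathAlgebra k V ⧸ I), l.length = m → (∀ a ∈ l, a ∈ Jq I) → l.prod = 0 := by
    intro l hl hlJ
    obtain ⟨r, hr, h1⟩ := quo_list l hlJ
    rw [hl] at hr
    rw [← h1]
    exact Ideal.Quotient.eq_zero_iff_mem.2 (hmI (quo_pow (by omega) hr))
  refine ⟨hidem, ?_, ?_, htwo, ⟨m, hnil⟩, ?_, ?_, ?_⟩
  · intro x y hxy
    unfold vertexIdem
    rw [← map_mul]
    have h1 : tr k x * ofPath k (triv y) = 0 := tr_mul_ne x (triv y) (fun h => hxy h.symm)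
    rw [h1, map_zero]
  · unfold vertexIdem
    rw [← map_sum, ← one_def, map_one]
  · intro x y a hxy
    obtain ⟨f, rfl⟩ := Ideal.Quotient.mk_surjective a
    exact ⟨_, quo_off hxy f, by rw [map_mul, map_mul]; rfl⟩
  · intro x a ha
    obtain ⟨f, rfl⟩ := Ideal.Quotient.mk_surjective a
    obtain ⟨c, hc⟩ := quo_diag x f
    obtain ⟨t, ht⟩ : ∃ t, t = vertexIdem I x * Ideal.Quotient.mk I f * vertexIdem I x := ⟨_, rfl⟩
    have h1 : t - c • vertexIdem I x ∈ Jq I := by
      refine ⟨_, hc, ?_⟩
      rw [map_sub, map_mul, map_mul, ht]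
      rfl
    rw [← ht] at ha ⊢
    have hc0 : c ≠ 0 := by
      rintro rfl
      rw [zero_smul, sub_zero] at h1
      exact ha h1
    -- the inverse
    obtain ⟨s, hs⟩ : ∃ s, s = -(c⁻¹ • (t - c • vertexIdem I x)) := ⟨_, rfl⟩
    have hsJ : s ∈ Jq I := by
      rw [hs]
      refine (Jq I).neg_mem ?_
      rw [Algebra.smul_def]
      exact (Jq I).mul_mem_left _ h1
    have hte : t * vertexIdem I x = t := by rw [ht, mul_assoc, hidem]
    have hse : s * vertexIdem I x = s := by
      rw [hs, neg_mul, smul_mul_assoc, sub_mul, hte, smul_mul_assoc, hidem]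
    have hts : t = c • ((1 - s) * vertexIdem I x) := by
      rw [sub_mul, one_mul, hse, hs, sub_neg_eq_add, smul_add, smul_smul, mul_inv_cancel₀ hc0, one_smul]
      abel
    have hsm : s ^ m = 0 := by
      rw [← List.prod_replicate]
      exact hnil _ (List.length_replicate) (fun a ha => by rw [List.eq_of_mem_replicate ha]; exact hsJ)
    refine ⟨c⁻¹ • ∑ i ∈ Finset.range m, s ^ i, ?_⟩
    rw [hts, smul_mul_assoc, mul_smul_comm, smul_smul, inv_mul_cancel₀ hc0, one_smul, ← mul_assoc]
    have h2 : (∑ i ∈ Finset.range m, s ^ i) * (1 - s) = 1 := by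
      have h3 := geom_sum_mul s m
      have h4 : (∑ i ∈ Finset.range m, s ^ i) * (1 - s) = -((∑ i ∈ Finset.range m, s ^ i) * (s - 1)) := by
        rw [← mul_neg, neg_sub]
      rw [h4, h3, hsm]
      abel
    rw [h2, one_mul]
  · rintro x ⟨r, hr, h1⟩
    have h2 : tr k x - r ∈ I := by
      rw [← Ideal.Quotient.eq_zero_iff_mem, map_sub, h1]
      exact sub_self _
    have h3 : tr k x - r ∈ lenSub k (V := V) 1 := by
      have h4 := hI2 h2
      rw [Submodule.pow_succ, Submodule.pow_one] at h4
      have h5 : tr k x - r ∈ arrowIdeal k V :=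
        (Ideal.mul_le.2 (fun a _ b hb => (arrowIdeal k V).mul_mem_left a hb) : arrowIdeal k V * arrowIdeal k V ≤ arrowIdeal k V) h4
      rw [arrowIdeal_eq] at h5
      exact h5
    have h4 : tr k x ∈ lenSub k (V := V) 1 := by
      have h5 := Submodule.add_mem _ h3 hr
      rw [sub_add_cancel] at h5
      exact h5
    have h5 := quo_coef h4 x
    rw [tr, ofPath, Module.Basis.repr_self, Finsupp.single_apply, if_pos rfl] at h5
    exact one_ne_zero h5

end Pool.Agent.SVR
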