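import Pool.Agent.SVR.Fb

/-!
# SVR/Sem: modules killed by the radical
-/

set_option autoImplicit false

open CategoryTheory Abelian Pool.Agent.PathAlg

universe u

namespace Pool.Agent.SVR

variable {Λ : Type u} [Ring Λ] {V : Type} [Fintype V] {e : V → Λ} {J : Ideal Λ}

section
variable {T : Type u} [AddCommGroup T] [Module Λ T]

theorem sem_ker (h : Vr e J) (hT : ∀ a ∈ J, ∀ t : T, a • t = 0) {z : V} {t : T} (ht : e z • t ≠ 0) :
    LinearMap.ker (LinearMap.toSpanSingleton Λ T (e z • t)) = Lz e J z := by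
  ext a
  rw [LinearMap.mem_ker, LinearMap.toSpanSingleton_apply, smul_smul]
  constructor
  · intro ha
    by_contra hn
    obtain ⟨b, hb⟩ := h.out hn
    apply ht
    have h1 : e z • t = b • ((a * e z) • t) := by rw [smul_smul, ← mul_assoc, hb]
    rw [h1, ha, smul_zero]
  · intro ha
    exact hT _ ha t

/-- an injective map from the simple module of a vertex -/
theorem sem_inj (h : Vr e J) (hT : ∀ a ∈ J, ∀ t : T, a • t = 0) {z : V} {t : T} (ht : e z • t ≠ 0) :
    ∃ f : Sm e J z →ₗ[Λ] T, Function.Injective f ∧ e z • t ∈ LinearMap.range f := by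
  have hK := sem_ker h hT ht
  let f : (Λ ⧸ Lz e J z) →ₗ[Λ] T := (Lz e J z).liftQ (LinearMap.toSpanSingleton Λ T (e z • t)) hK.ge
  refine ⟨f, ?_, ?_⟩
  · rw [← LinearMap.ker_eq_bot]
    exact Submodule.ker_liftQ_eq_bot _ _ _ hK.le
  · refine ⟨Submodule.Quotient.mk 1, ?_⟩
    show LinearMap.toSpanSingleton Λ T (e z • t) 1 = e z • t
    rw [LinearMap.toSpanSingleton_apply, one_smul]

/-- a module killed by the radical is semisimple -/
theorem sem_ss (h : Vr e J) (hT : ∀ a ∈ J, ∀ t : T, a • t = 0) : IsSemisimpleModule Λ T := by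
  apply IsSemisimpleModule.of_sSup_simples_eq_top
  rw [eq_top_iff]
  intro t _
  rw [← h.decomp t]
  refine Submodule.sum_mem _ fun z _ => ?_
  by_cases hz : e z • t = 0
  · rw [hz]; exact Submodule.zero_mem _
  · obtain ⟨f, hf, hr⟩ := sem_inj h hT hz
    have hs : IsSimpleModule Λ (LinearMap.range f) := by
      have := h.simple z
      exact IsSimpleModule.congr (LinearEquiv.ofInjective f hf).symm
    exact (le_sSup (a := LinearMap.range f) hs) hr

/-- the simple modules of the vertices in the support are direct summands -/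
theorem sem_retract (h : Vr e J) (hT : ∀ a ∈ J, ∀ t : T, a • t = 0) {z : V} {t : T} (ht : e z • t ≠ 0) :
    ∃ (f : Sm e J z →ₗ[Λ] T) (g : T →ₗ[Λ] Sm e J z), g ∘ₗ f = LinearMap.id := by
  obtain ⟨f, hf, -⟩ := sem_inj h hT ht
  have := sem_ss h hT
  obtain ⟨g, hg⟩ := IsSemisimpleModule.extension_property f hf (LinearMap.id : Sm e J z →ₗ[Λ] Sm e J z)
  exact ⟨f, g, hg⟩

/-- the decomposition of a finitely generated semisimple module -/
theorem sem_dec (h : Vr e J) (hT : ∀ a ∈ J, ∀ t : T, a • t = 0) [Module.Finite Λ T] :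
    ∃ (n : ℕ) (z : Fin n → V) (p : ∀ i, T →ₗ[Λ] Sm e J (z i)) (q : ∀ i, Sm e J (z i) →ₗ[Λ] T), ∀ t, ∑ i, q i (p i t) = t := by
  classical
  have := sem_ss h hT
  obtain ⟨n, S, E, hS⟩ := IsSemisimpleModule.exists_linearEquiv_fin_dfinsupp Λ T
  have h1 : ∀ i, ∃ z, Nonempty (S i ≃ₗ[Λ] Sm e J z) := by
    intro i
    have := hS i
    have : Nontrivial (S i) := IsSimpleModule.nontrivial Λ _
    obtain ⟨t, ht⟩ := exists_ne (0 : S i)
    obtain ⟨z, hz⟩ := h.exists_vertex ht
    exact ⟨z, h.simple_iso (hS i) hz⟩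
  choose z hz using h1
  let F : ∀ i, S i ≃ₗ[Λ] Sm e J (z i) := fun i => (hz i).some
  refine ⟨n, z, fun i => (F i).toLinearMap ∘ₗ DFinsupp.lapply i ∘ₗ E.toLinearMap,
    fun i => E.symm.toLinearMap ∘ₗ DFinsupp.lsingle i ∘ₗ (F i).symm.toLinearMap, fun t => ?_⟩
  have h2 : ∀ i, (E.symm.toLinearMap ∘ₗ DFinsupp.lsingle i ∘ₗ (F i).symm.toLinearMap)
      (((F i).toLinearMap ∘ₗ DFinsupp.lapply i ∘ₗ E.toLinearMap) t) = E.symm (DFinsupp.single i (E t i)) := by
    intro i
    show E.symm (DFinsupp.single i ((F i).symm (F i (E t i)))) = _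
    rw [LinearEquiv.symm_apply_apply]
  rw [Finset.sum_congr rfl fun i _ => h2 i, ← map_sum]
  have h3 : ∑ i, DFinsupp.single i (E t i) = E t := by
    ext1 j
    rw [DFinsupp.finset_sum_apply]
    rw [Finset.sum_eq_single j]
    · rw [DFinsupp.single_eq_same]
    · intro b _ hb
      exact DFinsupp.single_eq_of_ne (Ne.symm hb)
    · intro hj
      exact absurd (Finset.mem_univ j) hj
  rw [h3, LinearEquiv.symm_apply_apply]

/-- extension of maps over a semisimple quotient -/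
theorem sem_ext (h : Vr e J) {A B S : Type u} [AddCommGroup A] [Module Λ A] [AddCommGroup B] [Module Λ B] [AddCommGroup S]
    [Module Λ S] (i : A →ₗ[Λ] B) (Z : Submodule Λ B) (hZ : ∀ a ∈ J, ∀ b : B, a • b ∈ Z) (g : A →ₗ[Λ] S)
    (hg : ∀ a, i a ∈ Z → g a = 0) : ∃ g' : B →ₗ[Λ] S, ∀ a, g' (i a) = g a := by
  have hss : IsSemisimpleModule Λ (B ⧸ Z) := sem_ss h (by
    intro a ha b
    obtain ⟨b, rfl⟩ := Submodule.Quotient.mk_surjective _ b
    rw [← Submodule.Quotient.mk_smul, Submodule.Quotient.mk_eq_zero]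
    exact hZ a ha b)
  let N : Submodule Λ A := Z.comap i
  let f : (A ⧸ N) →ₗ[Λ] (B ⧸ Z) := Submodule.mapQ N Z i le_rfl
  have hf : Function.Injective f := by
    rw [← LinearMap.ker_eq_bot]
    show LinearMap.ker (N.liftQ (Z.mkQ ∘ₗ i) _) = ⊥
    refine Submodule.ker_liftQ_eq_bot _ _ _ ?_
    intro a ha
    rw [LinearMap.mem_ker, LinearMap.comp_apply, Submodule.mkQ_apply, Submodule.Quotient.mk_eq_zero] at ha
    exact ha
  let g0 : (A ⧸ N) →ₗ[Λ] S := N.liftQ g (by
    intro a ha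
    exact hg a ha)
  obtain ⟨h', hh⟩ := IsSemisimpleModule.extension_property f hf g0
  refine ⟨h' ∘ₗ Z.mkQ, fun a => ?_⟩
  have h1 := congrArg (fun F : (A ⧸ N) →ₗ[Λ] S => F (Submodule.Quotient.mk a)) hh
  exact h1

end

end Pool.Agent.SVR
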