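import Pool.Agent.SVR.Gl

/-!
# SVR/Slf: infinitely many self-extensions of a simple module
-/

set_option autoImplicit false

open CategoryTheory Abelian Pool.Agent.PathAlg

universe u

namespace Pool.Agent.SVR

variable {Λ : Type u} [Ring Λ] {V : Type} [Fintype V] {e : V → Λ} {J : Ideal Λ}

theorem rec_self (h : Vr e J) {x : V} (R : MinRes (Sm e J x)) (hx : Inf (Sm e J x) (Sm e J x))
    {S : ModuleCat.{u} Λ} (hS : IsSimpleAt (e x) S) (m : ℕ) :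
    ∃ n, m ≤ n ∧ (∃ N : ModuleCat.{u} Λ, IsSyzygy n S N) ∧
      ∀ N : ModuleCat.{u} Λ, IsSyzygy n S N → (∃ v : N, e x • v ≠ 0) ∧ ∃ f : N →ₗ[Λ] S, f ≠ 0 := by
  obtain ⟨hS1, s, hs⟩ := hS
  obtain ⟨E⟩ := h.simple_iso hS1 hs
  let R' : MinRes S := { R with e0 := E.trans R.e0 }
  obtain ⟨n, hmn, hn⟩ := hx m
  obtain ⟨f, hf⟩ := (syz_hom (R.syz n) (h.simple x)).1 hn
  refine ⟨n, hmn, ⟨_, R'.syz n⟩, ?_⟩
  intro N hN
  obtain ⟨F⟩ := R'.uniq n hN
  obtain ⟨v, hv⟩ : ∃ v, f v ≠ 0 := by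
    by_contra hc
    push Not at hc
    exact hf (LinearMap.ext hc)
  have h1 : e x • f v ≠ 0 := by
    intro h2
    apply hv
    rw [← h.decomp (f v)]
    refine Finset.sum_eq_zero fun z _ => ?_
    by_cases hz : z = x
    · rw [hz]; exact h2
    · exact h.Sm_ne hz _
  have F' : R.N n ≃ₗ[Λ] N := F.symm
  have E' : Sm e J x ≃ₗ[Λ] S := E.symm
  refine ⟨⟨F' v, fun h2 => h1 ?_⟩, ⟨E'.toLinearMap ∘ₗ f ∘ₗ F'.symm.toLinearMap, fun h2 => hv ?_⟩⟩
  · rw [← map_smul] at h2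
    have h3 : e x • v = 0 := (map_eq_zero_iff F' F'.injective).1 h2
    rw [← map_smul, h3, map_zero]
  · have h3 := congrArg (fun G : N →ₗ[Λ] S => G (F' v)) h2
    have h4 : E' (f (F'.symm (F' v))) = 0 := h3
    rw [LinearEquiv.symm_apply_apply] at h4
    exact (map_eq_zero_iff E' E'.injective).1 h4

end Pool.Agent.SVR
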