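import Pool.Agent.SVR.Tail

/-!
# SVR/Spl: the tail of the minimal resolution splits along the blocks of its top
-/

set_option autoImplicit false

open CategoryTheory Abelian Pool.Agent.PathAlg

universe u

namespace Pool.Agent.SVR

variable {Λ : Type u} [Ring Λ] {V : Type} {e : V → Λ} {J : Ideal Λ}

theorem Gen_mono {A B : Set V} (hAB : A ⊆ B) {M : Type*} [AddCommGroup M] [Module Λ M] : Gen e A M ≤ Gen e B M := by
  refine Submodule.span_mono ?_
  rintro x ⟨a, ha, m, rfl⟩
  exact ⟨a, hAB ha, m, rfl⟩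

theorem Gen_union {K L : Set V} {M : Type*} [AddCommGroup M] [Module Λ M] : Gen e (K ∪ L) M = Gen e K M ⊔ Gen e L M := by
  refine le_antisymm ?_ (sup_le (Gen_mono Set.subset_union_left) (Gen_mono Set.subset_union_right))
  refine Submodule.span_le.2 ?_
  rintro x ⟨a, ha | ha, m, rfl⟩
  · exact Submodule.mem_sup_left (Gen_mem ha m)
  · exact Submodule.mem_sup_right (Gen_mem ha m)

theorem Gen_map {A : Set V} {M N : Type*} [AddCommGroup M] [Module Λ M] [AddCommGroup N] [Module Λ N] (f : M →ₗ[Λ] N) :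
    (Gen e A M).map f ≤ Gen e A N := by
  unfold Gen
  rw [Submodule.map_span]
  refine Submodule.span_mono ?_
  rintro _ ⟨_, ⟨a, ha, m, rfl⟩, rfl⟩
  exact ⟨a, ha, f m, map_smul _ _ _⟩

theorem Gen_map_surj {A : Set V} {M N : Type*} [AddCommGroup M] [Module Λ M] [AddCommGroup N] [Module Λ N] (f : M →ₗ[Λ] N)
    (hf : Function.Surjective f) : (Gen e A M).map f = Gen e A N := by
  refine le_antisymm (Gen_map f) ?_
  refine Submodule.span_le.2 ?_
  rintro x ⟨a, ha, m, rfl⟩
  obtain ⟨p, rfl⟩ := hf m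
  exact ⟨e a • p, Gen_mem ha p, map_smul _ _ _⟩

theorem gen_gen (he : ∀ x, e x * e x = e x) {K : Set V} {M : Type*} [AddCommGroup M] [Module Λ M] :
    Gen e K (Gen e K M) = ⊤ := by
  have h1 : Gen e K M ≤ (Gen e K (Gen e K M)).map (Gen e K M).subtype := by
    refine Submodule.span_le.2 ?_
    rintro x ⟨a, ha, m, rfl⟩
    refine ⟨e a • ⟨e a • m, Gen_mem ha m⟩, Gen_mem ha _, ?_⟩
    show e a • e a • m = e a • m
    rw [smul_smul, he]
  rw [eq_top_iff]
  rintro ⟨x, hx⟩ _
  obtain ⟨w, hw, hwx⟩ := h1 hx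
  have h2 : w = ⟨x, hx⟩ := Subtype.ext hwx
  rw [← h2]
  exact hw

/-- no relation between the vertices of `K` and `L` -/
def Orth (e : V → Λ) (K L : Set V) : Prop := ∀ a ∈ K, ∀ b ∈ L, ∀ c, e a * c * e b = 0 ∧ e b * c * e a = 0

theorem Orth.symm {K L : Set V} (h : Orth e K L) : Orth e L K := fun a ha b hb c => (h b hb a ha c).symm

/-- a projective module splits -/
theorem disj_gen (he : ∀ x, e x * e x = e x) {P : Type u} [AddCommGroup P] [Module Λ P] (hP : Module.Projective Λ P) {K L : Set V}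
    (hG : Gen e (K ∪ L) P = ⊤) (hKL : Orth e K L) : Disjoint (Gen e K P) (Gen e L P) := by
  rw [Submodule.disjoint_def]
  intro u huK huL
  by_contra hu
  obtain ⟨a, ha, g, hg, hgu⟩ := coord he hP hG hu
  have key : ∀ (B : Set V), (∀ b ∈ B, ∀ c, e b * c * e a = 0) → u ∈ Gen e B P → g u = 0 := by
    intro B hB huB
    have h1 : Gen e B P ≤ LinearMap.ker g := by
      refine Submodule.span_le.2 ?_
      rintro x ⟨b, hb, m, rfl⟩
      show g (e b • m) = 0
      rw [map_smul, smul_eq_mul, ← hg m, ← mul_assoc]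
      exact hB b hb _
    exact h1 huB
  rcases ha with ha | ha
  · exact hgu (key L (fun b hb c => (hKL a ha b hb c).2) huL)
  · exact hgu (key K (fun b hb c => (hKL b hb a ha c).1) huK)

theorem proj_gen (he : ∀ x, e x * e x = e x) {P : Type u} [AddCommGroup P] [Module Λ P] (hP : Module.Projective Λ P) {K L : Set V}
    (hG : Gen e (K ∪ L) P = ⊤) (hKL : Orth e K L) : Module.Projective Λ (Gen e K P) := by
  have hc : IsCompl (Gen e K P) (Gen e L P) := by
    refine ⟨disj_gen he hP hG hKL, ?_⟩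
    rw [codisjoint_iff, ← Gen_union, hG]
  exact Module.Projective.of_split (Gen e K P).subtype (Submodule.projectionOnto _ _ hc) (by
    ext p
    simp)

section seq
variable {N' P N : Type u} [AddCommGroup N'] [Module Λ N'] [AddCommGroup P] [Module Λ P] [AddCommGroup N] [Module Λ N]
  {ι : N' →ₗ[Λ] P} {π : P →ₗ[Λ] N}

/-- the restricted maps -/
def resι (K : Set V) (ι : N' →ₗ[Λ] P) : Gen e K N' →ₗ[Λ] Gen e K P :=
  ι.restrict fun _ hx => Gen_map ι ⟨_, hx, rfl⟩

theorem resι_inj {K : Set V} (hι : Function.Injective ι) : Function.Injective (resι (e := e) K ι) := by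
  intro x y hxy
  have h1 : ι x = ι y := congrArg Subtype.val hxy
  exact Subtype.ext (hι h1)

theorem resπ_surj {K : Set V} (hπ : Function.Surjective π) : Function.Surjective (resι (e := e) K π) := by
  rintro ⟨y, hy⟩
  rw [← Gen_map_surj π hπ] at hy
  obtain ⟨x, hx, rfl⟩ := hy
  exact ⟨⟨x, hx⟩, rfl⟩

/-- the restricted sequence is exact -/
theorem res_ex (he : ∀ x, e x * e x = e x) (hP : Module.Projective Λ P) {K L : Set V}
    (hG : Gen e (K ∪ L) P = ⊤) (hG' : Gen e (K ∪ L) N' = ⊤) (hKL : Orth e K L) (hex : LinearMap.range ι = LinearMap.ker π) :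
    LinearMap.range (resι (e := e) K ι) = LinearMap.ker (resι (e := e) K π) := by
  ext ⟨p, hp⟩
  constructor
  · rintro ⟨x, hx⟩
    have h1 : ι x = p := congrArg Subtype.val hx
    have h2 : p ∈ LinearMap.ker π := by
      rw [← hex]
      exact ⟨x, h1⟩
    rw [LinearMap.mem_ker]
    exact Subtype.ext h2
  · intro hx
    have h1 : π p = 0 := congrArg Subtype.val hx
    have h2 : p ∈ LinearMap.range ι := by
      rw [hex]
      exact h1
    obtain ⟨v, hv⟩ := h2
    have h3 : v ∈ Gen e K N' ⊔ Gen e L N' := by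
      rw [← Gen_union, hG']
      trivial
    obtain ⟨a, ha, b, hb, rfl⟩ := Submodule.mem_sup.1 h3
    have h4 : ι b ∈ Gen e L P := Gen_map ι ⟨b, hb, rfl⟩
    have h5 : ι b ∈ Gen e K P := by
      have h6 : ι b = p - ι a := by rw [← hv, map_add]; abel
      rw [h6]
      exact (Gen e K P).sub_mem hp (Gen_map ι ⟨a, ha, rfl⟩)
    have h6 := (Submodule.disjoint_def.1 (disj_gen he hP hG hKL)) _ h5 h4
    refine ⟨⟨a, ha⟩, Subtype.ext ?_⟩
    show ι a = p
    rw [← hv, map_add, h6, add_zero]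

/-- the quotient splits -/
theorem disj_quot (he : ∀ x, e x * e x = e x) (hP : Module.Projective Λ P) {K L : Set V}
    (hG : Gen e (K ∪ L) P = ⊤) (hG' : Gen e (K ∪ L) N' = ⊤) (hKL : Orth e K L) (hex : LinearMap.range ι = LinearMap.ker π)
    (hπ : Function.Surjective π) : Disjoint (Gen e K N) (Gen e L N) := by
  rw [Submodule.disjoint_def]
  intro u huK huL
  rw [← Gen_map_surj π hπ] at huK huL
  obtain ⟨p, hp, hpu⟩ := huK
  obtain ⟨q, hq, hqu⟩ := huL
  have h1 : p - q ∈ LinearMap.range ι := by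
    rw [hex, LinearMap.mem_ker, map_sub, hpu, hqu, sub_self]
  obtain ⟨v, hv⟩ := h1
  have h3 : v ∈ Gen e K N' ⊔ Gen e L N' := by
    rw [← Gen_union, hG']
    trivial
  obtain ⟨a, ha, b, hb, rfl⟩ := Submodule.mem_sup.1 h3
  have h4 : p - ι a ∈ Gen e K P := (Gen e K P).sub_mem hp (Gen_map ι ⟨a, ha, rfl⟩)
  have h5 : p - ι a ∈ Gen e L P := by
    have h6 : p - ι a = q + ι b := by
      rw [map_add] at hv
      have h7 : p = ι a + ι b + q := by rw [hv]; abel
      rw [h7]
      abel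
    rw [h6]
    exact (Gen e L P).add_mem hq (Gen_map ι ⟨b, hb, rfl⟩)
  have h6 := (Submodule.disjoint_def.1 (disj_gen he hP hG hKL)) _ h4 h5
  have h7 : p = ι a := sub_eq_zero.1 h6
  rw [← hpu, h7]
  have h8 : ι a ∈ LinearMap.ker π := by
    rw [← hex]
    exact ⟨a, rfl⟩
  exact h8

end seq

variable [Fintype V]

/-- the part of the tail generated by `L` has no Ext groups with the simple modules outside `L` -/
theorem part_ext (h : Vr e J) {M : ModuleCat.{u} Λ} (R : MinRes M) {K L : Set V} (hKL : Orth e K L) {m : ℕ}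
    (hm : ∀ n, m ≤ n → Gen e (K ∪ L) (R.N n) = ⊤) {y : V} (hy : y ∉ K) (j : ℕ) :
    ∀ n, m ≤ n → ¬ Nontrivial (Ext (ModuleCat.of Λ (Gen e K (R.N n))) (Sm e J y) (j + 1)) := by
  induction j with
  | zero =>
    intro n hn hE
    have hGP := gen_cover (R.cov n) (hm n hn)
    have hproj := proj_gen h.idem (R.cov n).1 hGP hKL
    have h1 := (exa_one (i := resι (e := e) K (R.ι n)) (p := resι (e := e) K (R.π n)) (resι_inj (R.inj n)) (resπ_surj (R.cov n).2.1)
      (res_ex h.idem (R.cov n).1 hGP (hm (n + 1) (by omega)) hKL (R.ex n)) hproj (S := Sm e J y) ?_).1 hE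
    · obtain ⟨f, hf⟩ := h1
      exact hy (h.hom_vertex (A := K) (M := Gen e K (R.N (n + 1))) (gen_gen h.idem) f hf)
    · intro f a
      by_contra hc
      have hf : f ≠ 0 := by
        rintro rfl
        exact hc rfl
      exact hy (h.hom_vertex (A := K) (M := Gen e K (R.P n)) (gen_gen h.idem) f hf)
  | succ j ih =>
    intro n hn hE
    have hGP := gen_cover (R.cov n) (hm n hn)
    have hproj := proj_gen h.idem (R.cov n).1 hGP hKL
    have h1 := (exa_shift (i := resι (e := e) K (R.ι n)) (p := resι (e := e) K (R.π n)) (resι_inj (R.inj n)) (resπ_surj (R.cov n).2.1)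
      (res_ex h.idem (R.cov n).1 hGP (hm (n + 1) (by omega)) hKL (R.ex n)) hproj (S := Sm e J y) (n := j)).1 hE
    exact ih (n + 1) (by omega) h1

/-- **The block theorem.** -/
theorem block [IsArtinianRing Λ] [IsNoetherianRing Λ] (h : Vr e J) {M : ModuleCat.{u} Λ} (R : MinRes M) {K L : Set V}
    (hKL : Orth e K L) (hA : Av e J M = K ∪ L) {y : V} (hyL : y ∉ L) (hI : Inf M (Sm e J y)) :
    ∃ z, (∃ a ∈ K, ∃ c, e z * c * e a ≠ 0) ∧ Inf (Sm e J z) (Sm e J y) := by
  obtain ⟨m, hm⟩ := tail_gen h R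
  rw [hA] at hm
  have hf := R.finN m
  have hN : Inf (R.N m) (Sm e J y) := (inf_syz (R.syz m)).1 hI
  have hGP := gen_cover (R.cov m) (hm m le_rfl)
  have hd := disj_quot h.idem (R.cov m).1 hGP (hm (m + 1) (by omega)) hKL (R.ex m) (R.cov m).2.1
  have hc : IsCompl (Gen e L (R.N m)) (Gen e K (R.N m)) := by
    refine ⟨hd.symm, ?_⟩
    rw [codisjoint_iff, sup_comm, ← Gen_union, hm m le_rfl]
  have hK : Inf (ModuleCat.of Λ (Gen e K (R.N m))) (Sm e J y) := by
    rcases inf_mid (A := Gen e L (R.N m)) (B := R.N m) (C := (R.N m) ⧸ Gen e L (R.N m)) (i := (Gen e L (R.N m)).subtype)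
      (p := (Gen e L (R.N m)).mkQ) (Submodule.injective_subtype _) (Submodule.mkQ_surjective _)
      (by rw [Submodule.range_subtype, Submodule.ker_mkQ]) hN with h1 | h1
    · exfalso
      obtain ⟨n, hn, h2⟩ := h1 1
      obtain ⟨j, rfl⟩ : ∃ j, n = j + 1 := ⟨n - 1, by omega⟩
      exact part_ext h R hKL.symm (m := m) (by rw [Set.union_comm]; exact hm) hyL j m le_rfl h2
    · exact (inf_iso (M := ModuleCat.of Λ ((R.N m) ⧸ Gen e L (R.N m))) (N := ModuleCat.of Λ (Gen e K (R.N m)))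
        (Submodule.quotientEquivOfIsCompl _ _ hc)).1 h1
  obtain ⟨z, ⟨w, hw⟩, hz⟩ := h.filt (M := Gen e K (R.N m)) (isFiniteLength_iff_isNoetherian_isArtinian.2 ⟨inferInstance, inferInstance⟩) hK
  refine ⟨z, ?_, hz⟩
  by_contra hc
  push Not at hc
  have hw' : w ∈ Gen e K (Gen e K (R.N m)) := by
    rw [gen_gen h.idem]
    trivial
  exact hw (gen_supp hc hw')

end Pool.Agent.SVR
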