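import Pool.Agent.SVR.Tail

/-!
# SVR/Src: a source of the top of the tail has a loop
-/

set_option autoImplicit false

open CategoryTheory Abelian Pool.Agent.PathAlg

universe u

namespace Pool.Agent.SVR

variable {Λ : Type u} [Ring Λ] {V : Type} [Fintype V] {e : V → Λ} {J : Ideal Λ}

/-- the kernel of a projective cover is in the radical -/
theorem ker_rad (h : Vr e J) {P M : ModuleCat.{u} Λ} {π : P →ₗ[Λ] M} (hπ : IsProjectiveCover π) {a : V}
    (g : P →ₗ[Λ] Λ) (hg : ∀ w, g w * e a = g w) {u : P} (hu : π u = 0) : g u ∈ J := by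
  by_contra hn
  have h1 : g u ∉ Lz e J a := by
    intro h2
    have h3 : g u * e a ∈ J := h2
    rw [hg] at h3
    exact hn h3
  obtain ⟨b, hb⟩ := h.out h1
  have h2 : g (b • u) = e a := by rw [map_smul, smul_eq_mul, ← hb, mul_assoc, hg]
  have h3 : LinearMap.ker g ⊔ LinearMap.ker π = ⊤ := by
    rw [eq_top_iff]
    intro w _
    have h4 : w = (w - g w • b • u) + g w • b • u := by abel
    rw [h4]
    refine Submodule.add_mem_sup ?_ ?_
    · rw [LinearMap.mem_ker, map_sub, map_smul, h2, smul_eq_mul, hg, sub_self]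
    · rw [LinearMap.mem_ker, map_smul, map_smul, hu, smul_zero, smul_zero]
  have h4 := hπ.2.2 _ h3
  have h5 : b • u ∈ LinearMap.ker g := by rw [h4]; trivial
  rw [LinearMap.mem_ker, h2] at h5
  exact h.ne a (by rw [h5]; exact J.zero_mem)

/-- **A source of the top of the tail.** -/
theorem src (h : Vr e J) {M : ModuleCat.{u} Λ} (R : MinRes M) {y : V} (hy : Inf M (Sm e J y))
    (hs : ∀ a ∈ Av e J M, a ≠ y → ∀ c, e y * c * e a = 0) : ∃ c, e y * c * e y ∈ J ∧ e y * c * e y ≠ 0 := by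
  obtain ⟨m, hm⟩ := tail_gen h R
  obtain ⟨n', hn', hE⟩ := hy (m + 1)
  obtain ⟨n, rfl⟩ : ∃ n, n' = n + 1 := ⟨n' - 1, by omega⟩
  obtain ⟨f, hf⟩ := (syz_hom (R.syz (n + 1)) (h.simple y)).1 hE
  obtain ⟨v, hv⟩ : ∃ v, f v ≠ 0 := by
    by_contra hc
    push Not at hc
    exact hf (LinearMap.ext hc)
  have h1 : e y • f v ≠ 0 := by
    intro h2
    apply hv
    rw [← h.decomp (f v)]
    refine Finset.sum_eq_zero fun z _ => ?_
    by_cases hz : z = y
    · rw [hz]; exact h2
    · exact h.Sm_ne hz _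
  have h2 : R.ι n (e y • v) ≠ 0 := by
    intro h3
    apply h1
    have h4 : e y • v = 0 := R.inj n (by rw [h3, map_zero])
    rw [← map_smul, h4, map_zero]
  have hG := gen_cover (R.cov n) (hm n (by omega))
  obtain ⟨a, ha, g, hg, hgu⟩ := coord h.idem (R.cov n).1 hG h2
  have h3 : g (R.ι n (e y • v)) = e y * g (R.ι n (e y • v)) * e a := by
    rw [mul_assoc, hg, ← smul_eq_mul, ← map_smul, ← map_smul, smul_smul, h.idem]
  have h4 : a = y := by
    by_contra hne
    apply hgu
    rw [h3]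
    exact hs a ha hne _
  subst h4
  have h5 : R.π n (R.ι n (e a • v)) = 0 := by
    have h6 : R.ι n (e a • v) ∈ LinearMap.ker (R.π n) := by
      rw [← R.ex n]
      exact ⟨_, rfl⟩
    exact h6
  have h6 := ker_rad h (R.cov n) g hg h5
  refine ⟨g (R.ι n (e a • v)), ?_, ?_⟩
  · rw [← h3]; exact h6
  · rw [← h3]; exact hgu

end Pool.Agent.SVR
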