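import Pool.Agent.SVR.Wlk
import Pool.Agent.SVR.Sem

/-!
# SVR/Std: the step of the linear strand for rings with `J^3 = 0`
-/

set_option autoImplicit false

open CategoryTheory Abelian Pool.Agent.PathAlg

universe u

namespace Pool.Agent.SVR

variable {Λ : Type u} [Ring Λ] {V : Type} [Fintype V] {e : V → Λ} {J : Ideal Λ}

/-- the submodule `J (J P)` -/
def R2 (J : Ideal Λ) (M : Type*) [AddCommGroup M] [Module Λ M] : Submodule Λ M :=
  Submodule.span Λ {x | ∃ a ∈ J, ∃ b ∈ J, ∃ m : M, x = a • b • m}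

theorem R2_mem {M : Type*} [AddCommGroup M] [Module Λ M] (htwo : ∀ a b, a ∈ J → a * b ∈ J) {a : Λ} (ha : a ∈ J) {w : M}
    (hw : w ∈ Rd J M) : a • w ∈ R2 J M := by
  induction hw using Submodule.span_induction generalizing a with
  | mem x hx =>
    obtain ⟨b, hb, m, rfl⟩ := hx
    exact Submodule.subset_span ⟨a, ha, b, hb, m, rfl⟩
  | zero => rw [smul_zero]; exact Submodule.zero_mem _
  | add x y _ _ hx hy => rw [smul_add]; exact Submodule.add_mem _ (hx ha) (hy ha)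
  | smul c x _ hx => rw [smul_smul]; exact hx (htwo _ _ ha)

theorem R2_kill {M : Type*} [AddCommGroup M] [Module Λ M] (htwo : ∀ a b, a ∈ J → a * b ∈ J)
    (h3 : ∀ a ∈ J, ∀ b ∈ J, ∀ c ∈ J, a * b * c = 0) {a : Λ} (ha : a ∈ J) {w : M} (hw : w ∈ R2 J M) : a • w = 0 := by
  induction hw using Submodule.span_induction generalizing a with
  | mem x hx =>
    obtain ⟨b, hb, c, hc, m, rfl⟩ := hx
    rw [smul_smul, smul_smul, h3 a ha b hb c hc, zero_smul]
  | zero => rw [smul_zero]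
  | add x y _ _ hx hy => rw [smul_add, hx ha, hy ha, add_zero]
  | smul c x _ hx => rw [smul_smul]; exact hx (htwo _ _ ha)

/-- the step of the strand -/
structure Stp (e : V → Λ) (J : Ideal Λ) (M : ModuleCat.{u} Λ) where
  P : ModuleCat.{u} Λ
  K : ModuleCat.{u} Λ
  M' : ModuleCat.{u} Λ
  L : ModuleCat.{u} Λ
  finM' : Module.Finite Λ M'
  finL : Module.Finite Λ L
  π : P →ₗ[Λ] M
  cov : IsProjectiveCover π
  ι : K →ₗ[Λ] P
  inj : Function.Injective ι
  ex : LinearMap.range ι = LinearMap.ker π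
  i : M' →ₗ[Λ] K
  p : K →ₗ[Λ] M'
  pi : ∀ w, p (i w) = w
  ρ : K →ₗ[Λ] L
  l : L →ₗ[Λ] K
  ρl : ∀ w, ρ (l w) = w
  ex' : LinearMap.range i = LinearMap.ker ρ
  kL : ∀ a ∈ J, ∀ w : L, a • w = 0
  kM : ∀ a ∈ J, ∀ b ∈ J, ∀ w : M', a • b • w = 0
  rad : ∀ w, ι w ∈ Rd J P
  ext : ∀ (y : V) (f : M' →ₗ[Λ] Sm e J y), ∃ g : Rd J P →ₗ[Λ] Sm e J y, ∀ w, g ⟨ι w, rad w⟩ = f (p w)

theorem exists_stp [IsArtinianRing Λ] [IsNoetherianRing Λ] (h : Vr e J) (h3 : ∀ a ∈ J, ∀ b ∈ J, ∀ c ∈ J, a * b * c = 0)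
    (M : ModuleCat.{u} Λ) [Module.Finite Λ M] (hM : ∀ a ∈ J, ∀ b ∈ J, ∀ m : M, a • b • m = 0) : Nonempty (Stp e J M) := by
  obtain ⟨P, hP, π, hπ⟩ := exists_cover M
  let K : Submodule Λ P := LinearMap.ker π
  have hrad : ∀ w : K, (w : P) ∈ Rd J P := fun w => Rd_dual hπ.1 fun f => ker_val h hπ w.2 f
  have hR2K : R2 J P ≤ K := by
    refine Submodule.span_le.2 ?_
    rintro _ ⟨a, ha, b, hb, p, rfl⟩
    show π (a • b • p) = 0
    rw [map_smul, map_smul, hM a ha b hb]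
  -- `J K`
  let JK : Submodule Λ K := Rd J K
  let A : Submodule Λ K := (R2 J P).comap K.subtype
  have hJKA : JK ≤ A := by
    refine Submodule.span_le.2 ?_
    rintro _ ⟨a, ha, w, rfl⟩
    show a • (w : P) ∈ R2 J P
    exact R2_mem h.two ha (hrad w)
  have hkA : ∀ a ∈ J, ∀ w : A, a • w = 0 := by
    intro a ha w
    apply Subtype.ext
    apply Subtype.ext
    exact R2_kill h.two h3 ha w.2
  have hssA : IsSemisimpleModule Λ A := sem_ss h hkA
  let B : Submodule Λ A := JK.comap A.subtype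
  let L : Type u := A ⧸ B
  -- the section
  obtain ⟨σ, hσ⟩ := IsSemisimpleModule.lifting_property B.mkQ B.mkQ_surjective (LinearMap.id : (A ⧸ B) →ₗ[Λ] (A ⧸ B))
  have hσ' : ∀ w : A ⧸ B, B.mkQ (σ w) = w := fun w => congrArg (fun F : (A ⧸ B) →ₗ[Λ] (A ⧸ B) => F w) hσ
  -- the retraction
  obtain ⟨ρ, hρ⟩ := sem_ext h A.subtype JK (fun a ha b => Submodule.subset_span ⟨a, ha, b, rfl⟩) B.mkQ (fun a ha => by
    rw [Submodule.mkQ_apply, Submodule.Quotient.mk_eq_zero]
    exact ha)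
  let l : (A ⧸ B) →ₗ[Λ] K := A.subtype ∘ₗ σ
  have hρl : ∀ w, ρ (l w) = w := fun w => (hρ (σ w)).trans (hσ' w)
  let M' : Submodule Λ K := LinearMap.ker ρ
  let p : K →ₗ[Λ] M' := LinearMap.codRestrict M' (LinearMap.id - l ∘ₗ ρ) (fun w => by
    show ρ (w - l (ρ w)) = 0
    rw [map_sub, hρl, sub_self])
  have hp : ∀ w, ((p w : K)) = w - l (ρ w) := fun w => rfl
  refine ⟨{
    P := P
    K := ModuleCat.of Λ K
    M' := ModuleCat.of Λ M'
    L := ModuleCat.of Λ (A ⧸ B)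
    finM' := inferInstanceAs (Module.Finite Λ M')
    finL := inferInstanceAs (Module.Finite Λ (A ⧸ B))
    π := π
    cov := hπ
    ι := K.subtype
    inj := Submodule.injective_subtype _
    ex := Submodule.range_subtype _
    i := M'.subtype
    p := p
    pi := fun w => Subtype.ext (by
      show (w : K) - l (ρ (w : K)) = w
      rw [LinearMap.mem_ker.1 w.2, map_zero, sub_zero])
    ρ := ρ
    l := l
    ρl := hρl
    ex' := Submodule.range_subtype _
    kL := fun a ha w => by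
      obtain ⟨w, rfl⟩ := B.mkQ_surjective w
      rw [← map_smul, hkA a ha w, map_zero]
    kM := fun a ha b hb w => by
      apply Subtype.ext
      apply Subtype.ext
      show a • b • ((w : K) : P) = 0
      exact R2_kill h.two h3 ha (R2_mem h.two hb (hrad w))
    rad := hrad
    ext := ?_ }⟩
  intro y f
  -- the map kills `J (J P)`
  have hS : ∀ a ∈ J, ∀ t : Sm e J y, a • t = 0 := fun a ha t => h.kill (h.simple y) ha t
  have hfJK : ∀ w ∈ JK, f (p w) = 0 := by
    intro w hw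
    have hle : JK ≤ LinearMap.ker (f ∘ₗ p) := by
      refine Submodule.span_le.2 ?_
      rintro _ ⟨a, ha, w, rfl⟩
      show f (p (a • w)) = 0
      rw [map_smul, map_smul, hS a ha]
    exact hle hw
  have hfA : ∀ w : K, (w : P) ∈ R2 J P → f (p w) = 0 := by
    intro w hw
    have h1 : p (p w : K) = p w := by
      apply Subtype.ext
      rw [hp (p w : K), LinearMap.mem_ker.1 (p w).2, map_zero, sub_zero]
    rw [← h1]
    apply hfJK
    have h2 : (p w : K) ∈ A := by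
      rw [hp]
      exact A.sub_mem hw (σ (ρ w)).2
    have h3 : ρ (p w : K) = 0 := (p w).2
    have h4 : B.mkQ ⟨(p w : K), h2⟩ = 0 := by
      rw [← hρ]
      exact h3
    rw [Submodule.mkQ_apply, Submodule.Quotient.mk_eq_zero] at h4
    exact h4
  let κ : K →ₗ[Λ] Rd J P := LinearMap.codRestrict (Rd J P) K.subtype hrad
  obtain ⟨g, hg⟩ := sem_ext h κ ((R2 J P).comap (Rd J P).subtype) (fun a ha b => R2_mem h.two ha b.2) (f ∘ₗ p)
    (fun a ha => hfA a ha)
  exact ⟨g, fun w => hg w⟩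

end Pool.Agent.SVR
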