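import Pool.Agent.SVR.Cov

/-!
# SVR/Tail: the tail of the minimal resolution
-/

set_option autoImplicit false

open CategoryTheory Abelian Pool.Agent.PathAlg

universe u

namespace Pool.Agent.SVR

variable {Λ : Type u} [Ring Λ] {V : Type} [Fintype V] {e : V → Λ} {J : Ideal Λ}

/-- the vertices which occur infinitely often in the top of the syzygies -/
def Av (e : V → Λ) (J : Ideal Λ) (M : ModuleCat.{u} Λ) : Set V := {y | Inf M (Sm e J y)}

/-- the tail is generated by the `e a`, `a ∈ A` -/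
theorem tail_gen (h : Vr e J) {M : ModuleCat.{u} Λ} (R : MinRes M) :
    ∃ m, ∀ n, m ≤ n → Gen e (Av e J M) (R.N n) = ⊤ := by
  classical
  have h1 : ∀ y, ∃ m, y ∉ Av e J M → ∀ n, m ≤ n → ¬ Nontrivial (Ext M (Sm e J y) n) := by
    intro y
    by_cases hy : y ∈ Av e J M
    · exact ⟨0, fun h => absurd hy h⟩
    · have h2 : ¬ Inf M (Sm e J y) := hy
      unfold Inf at h2
      push Not at h2
      obtain ⟨m, hm⟩ := h2
      exact ⟨m, fun _ n hn => not_nontrivial_iff_subsingleton.2 (hm n hn)⟩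
  choose m hm using h1
  refine ⟨Finset.univ.sup m, fun n hn => ?_⟩
  have := R.finN n
  refine h.gen_of_hom (M := R.N n) fun y hy f => ?_
  by_contra hf
  have h3 := (syz_hom (R.syz n) (h.simple y)).2 ⟨f, hf⟩
  exact hm y hy n ((Finset.le_sup (Finset.mem_univ y)).trans hn) h3

omit [Fintype V] in
/-- the cover is generated by the same vertices -/
theorem gen_cover {P M : ModuleCat.{u} Λ} {π : P →ₗ[Λ] M} (hπ : IsProjectiveCover π) {A : Set V} (hM : Gen e A M = ⊤) :
    Gen e A P = ⊤ := by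
  apply hπ.2.2
  have h1 : (Gen e A P).map π = ⊤ := by
    rw [eq_top_iff, ← hM]
    refine Submodule.span_le.2 ?_
    rintro x ⟨a, ha, m, rfl⟩
    obtain ⟨p, rfl⟩ := hπ.2.1 m
    exact ⟨e a • p, Gen_mem ha p, map_smul _ _ _⟩
  rw [eq_top_iff]
  intro p _
  have h2 : π p ∈ (Gen e A P).map π := by rw [h1]; trivial
  obtain ⟨q, hq, hqp⟩ := h2
  have h3 : p = q + (p - q) := by abel
  rw [h3]
  refine Submodule.add_mem_sup hq ?_
  rw [LinearMap.mem_ker, map_sub, hqp, sub_self]

omit [Fintype V] in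
/-- coordinates of a projective module generated by the `e a`, `a ∈ A` -/
theorem coord (h : ∀ x, e x * e x = e x) {P : Type u} [AddCommGroup P] [Module Λ P] (hP : Module.Projective Λ P) {A : Set V}
    (hG : Gen e A P = ⊤) {u : P} (hu : u ≠ 0) :
    ∃ a ∈ A, ∃ g : P →ₗ[Λ] Λ, (∀ w, g w * e a = g w) ∧ g u ≠ 0 := by
  let σ : ((A × P) →₀ Λ) →ₗ[Λ] P := Finsupp.linearCombination Λ (fun q : A × P => e q.1 • q.2)
  have hσ : Function.Surjective σ := by
    rw [← LinearMap.range_eq_top, Finsupp.range_linearCombination, ← hG]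
    unfold Gen
    congr 1
    ext x
    constructor
    · rintro ⟨⟨a, p⟩, rfl⟩
      exact ⟨a, a.2, p, rfl⟩
    · rintro ⟨a, ha, p, rfl⟩
      exact ⟨(⟨a, ha⟩, p), rfl⟩
  obtain ⟨s, hs⟩ := Module.projective_lifting_property σ LinearMap.id hσ
  have hs' : ∀ w, σ (s w) = w := fun w => congrArg (fun F : P →ₗ[Λ] P => F w) hs
  by_contra hc
  push Not at hc
  apply hu
  rw [← hs' u]
  show Finsupp.linearCombination Λ (fun q : A × P => e q.1 • q.2) (s u) = 0
  rw [Finsupp.linearCombination_apply]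
  refine Finset.sum_eq_zero fun q _ => ?_
  let g : P →ₗ[Λ] Λ :=
    { toFun := fun w => s w q * e q.1
      map_add' := fun w w' => by rw [map_add, Finsupp.add_apply, add_mul]
      map_smul' := fun c w => by
        rw [map_smul, Finsupp.smul_apply, smul_eq_mul, mul_assoc]
        rfl }
  have hg := hc q.1 q.1.2 g (fun w => by
    show s w q * e q.1 * e q.1 = s w q * e q.1
    rw [mul_assoc, h])
  have hg' : s u q * e q.1 = 0 := hg
  show s u q • e q.1 • q.2 = 0
  rw [smul_smul, hg', zero_smul]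

omit [Fintype V] in
/-- if `e x` kills two consecutive syzygies then it kills the cover between them -/
theorem kill_cover {M : ModuleCat.{u} Λ} (R : MinRes M) {x : V} (hx : e x * e x = e x) {n : ℕ}
    (h0 : ∀ v : R.N n, e x • v = 0) (h1 : ∀ v : R.N (n + 1), e x • v = 0) (p : R.P n) : e x • p = 0 := by
  have h2 : e x • p ∈ LinearMap.ker (R.π n) := by
    rw [LinearMap.mem_ker, map_smul]
    exact h0 _
  rw [← R.ex n] at h2
  obtain ⟨v, hv⟩ := h2
  have h3 : e x • p = e x • (e x • p) := by rw [smul_smul, hx]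
  rw [h3, ← hv, ← map_smul, h1, map_zero]

/-- a summand of the cover -/
theorem top_split (h : Vr e J) {M P : ModuleCat.{u} Λ} {π : P →ₗ[Λ] M} (hπ : IsProjectiveCover π) {y : V}
    {f : M →ₗ[Λ] Sm e J y} (hf : f ≠ 0) : ∃ (g : P →ₗ[Λ] Λ) (p : P), g p * e y = e y := by
  have hS := h.simple y
  have hfs : Function.Surjective f := by
    rw [← LinearMap.range_eq_top]
    refine (eq_bot_or_eq_top _).resolve_left fun h0 => hf ?_
    exact LinearMap.range_eq_bot.1 h0
  have := hπ.1
  obtain ⟨g, hg⟩ := Module.projective_lifting_property (Lz e J y).mkQ (f ∘ₗ π) (Submodule.mkQ_surjective _)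
  have hg' : ∀ p, (Lz e J y).mkQ (g p) = f (π p) := fun p => congrArg (fun F : P →ₗ[Λ] (Λ ⧸ Lz e J y) => F p) hg
  obtain ⟨m, hm⟩ := hfs ((Lz e J y).mkQ 1)
  obtain ⟨p, rfl⟩ := hπ.2.1 m
  have h1 : g p - 1 ∈ Lz e J y := by
    rw [← Submodule.ker_mkQ (Lz e J y), LinearMap.mem_ker, map_sub, hg' p, hm, sub_self]
  have h2 : (g p - 1) * e y ∈ J := h1
  have h3 : e y * g p * e y ∉ J := by
    intro h4
    apply h.ne y
    have h5 : e y = e y * g p * e y - e y * ((g p - 1) * e y) := by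
      rw [sub_mul, mul_sub, one_mul, h.idem]
      simp only [mul_assoc]
      abel
    rw [h5]
    exact J.sub_mem h4 (J.mul_mem_left _ h2)
  obtain ⟨b, hb⟩ := h.loc y _ h3
  refine ⟨g, (b * e y) • p, ?_⟩
  rw [map_smul, smul_eq_mul]
  calc b * e y * g p * e y = b * (e y * g p * e y) := by simp only [mul_assoc]
    _ = e y := hb

/-- the relation between the cover and the vertices of the top -/
theorem no_rel (h : Vr e J) {M P : ModuleCat.{u} Λ} {π : P →ₗ[Λ] M} (hπ : IsProjectiveCover π) {x y : V}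
    (hk : ∀ p : P, e x • p = 0) {f : M →ₗ[Λ] Sm e J y} (hf : f ≠ 0) (c : Λ) : e x * c * e y = 0 := by
  obtain ⟨g, p, hgp⟩ := top_split h hπ hf
  have h1 : e x * c * e y = g (e x • (c • p)) * e y := by
    rw [map_smul, map_smul, smul_eq_mul, smul_eq_mul, ← mul_assoc, mul_assoc (e x * c), hgp]
  rw [h1, hk, map_zero, zero_mul]

/-- **A vertex which does not recur.** -/
theorem norec_rel (h : Vr e J) {x : V} (R : MinRes (Sm e J x)) (hx : ∃ m, ∀ n, m ≤ n → ∀ v : R.N n, e x • v = 0) {y : V}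
    (hy : Inf (Sm e J x) (Sm e J y)) (c : Λ) : e x * c * e y = 0 := by
  obtain ⟨m, hm⟩ := hx
  obtain ⟨n, hn, h1⟩ := hy m
  obtain ⟨f, hf⟩ := (syz_hom (R.syz n) (h.simple y)).1 h1
  exact no_rel h (R.cov n) (kill_cover R (h.idem x) (hm n hn) (hm (n + 1) (by omega))) hf c

end Pool.Agent.SVR
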