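import Pool.Agent.SVR.ExA

/-!
# SVR/Top: rings with vertices, simple modules, generation by the top, supports
-/

set_option autoImplicit false

open CategoryTheory Abelian Pool.Agent.PathAlg

universe u

namespace Pool.Agent.SVR

variable {Λ : Type u} [Ring Λ]

/-- `Λ` is a basic ring with vertices: the `e x` are orthogonal primitive idempotents with sum `1`, `J` is a nilpotent ideal
containing `e x Λ e y` for `x ≠ y`, and the rings `e x Λ e x` are local with `J` as radical. -/
structure Vr {V : Type} [Fintype V] (e : V → Λ) (J : Ideal Λ) : Prop where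
  idem : ∀ x, e x * e x = e x
  orth : ∀ x y, x ≠ y → e x * e y = 0
  sum : ∑ x, e x = 1
  two : ∀ a b, a ∈ J → a * b ∈ J
  nil : ∃ m : ℕ, ∀ l : List Λ, l.length = m → (∀ a ∈ l, a ∈ J) → l.prod = 0
  off : ∀ x y a, x ≠ y → e x * a * e y ∈ J
  loc : ∀ x a, e x * a * e x ∉ J → ∃ b, b * (e x * a * e x) = e x
  ne : ∀ x, e x ∉ J

variable {V : Type} [Fintype V] {e : V → Λ} {J : Ideal Λ}

/-- the maximal left ideal of a vertex -/
def Lz (e : V → Λ) (J : Ideal Λ) (z : V) : Submodule Λ Λ where
  carrier := {a | a * e z ∈ J}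
  add_mem' := fun {a b} ha hb => by
    show (a + b) * e z ∈ J
    rw [add_mul]
    exact J.add_mem ha hb
  zero_mem' := by
    show (0 : Λ) * e z ∈ J
    rw [zero_mul]
    exact J.zero_mem
  smul_mem' := fun c a ha => by
    show c * a * e z ∈ J
    rw [mul_assoc]
    exact J.mul_mem_left c ha

/-- the simple module of a vertex -/
abbrev Sm (e : V → Λ) (J : Ideal Λ) (z : V) : ModuleCat.{u} Λ := ModuleCat.of Λ (Λ ⧸ Lz e J z)

omit [Fintype V] in
theorem mem_Lz {z : V} {a : Λ} : a ∈ Lz e J z ↔ a * e z ∈ J := Iff.rfl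

/-- decomposition of a module element -/
theorem Vr.decomp (h : Vr e J) {M : Type*} [AddCommGroup M] [Module Λ M] (m : M) : ∑ x, e x • m = m := by
  rw [← Finset.sum_smul, h.sum, one_smul]

theorem Vr.exists_vertex (h : Vr e J) {M : Type*} [AddCommGroup M] [Module Λ M] {m : M} (hm : m ≠ 0) :
    ∃ z, e z • m ≠ 0 := by
  by_contra hc
  push Not at hc
  apply hm
  rw [← h.decomp m]
  exact Finset.sum_eq_zero fun x _ => hc x

theorem Vr.exists_left (h : Vr e J) {a : Λ} (ha : a ∉ J) : ∃ w, e w * a ∉ J := by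
  by_contra hc
  push Not at hc
  apply ha
  have h1 : a = ∑ x, e x * a := by rw [← Finset.sum_mul, h.sum, one_mul]
  rw [h1]
  exact J.sum_mem fun x _ => hc x

/-- an element outside the maximal left ideal -/
theorem Vr.out (h : Vr e J) {z : V} {a : Λ} (ha : a ∉ Lz e J z) : ∃ b, b * a * e z = e z := by
  have ha' : a * e z ∉ J := ha
  obtain ⟨w, hw⟩ := h.exists_left ha'
  have hwz : w = z := by
    by_contra hne
    apply hw
    rw [← mul_assoc]
    exact h.off w z a hne
  subst hwz
  rw [← mul_assoc] at hw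
  obtain ⟨b, hb⟩ := h.loc w a hw
  exact ⟨b * e w, by rw [mul_assoc, mul_assoc, ← mul_assoc (e w), hb]⟩

theorem Vr.one_sub_mem (h : Vr e J) (z : V) (c : Λ) : c * (1 - e z) ∈ Lz e J z := by
  show c * (1 - e z) * e z ∈ J
  rw [mul_assoc, sub_mul, one_mul, h.idem, sub_self, mul_zero]
  exact J.zero_mem

theorem Vr.simple (h : Vr e J) (z : V) : IsSimpleModule Λ (Sm e J z) := by
  show IsSimpleModule Λ (Λ ⧸ Lz e J z)
  rw [isSimpleModule_iff_isCoatom]
  constructor
  · intro htop
    have h1 : (1 : Λ) ∈ Lz e J z := by rw [htop]; trivial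
    have h2 : (1 : Λ) * e z ∈ J := h1
    rw [one_mul] at h2
    exact h.ne z h2
  · intro L hL
    obtain ⟨a, haL, haz⟩ := SetLike.exists_of_lt hL
    obtain ⟨b, hb⟩ := h.out haz
    rw [eq_top_iff]
    intro x _
    have h1 : x = x * (b * a) - x * (b * a) * (1 - e z) + x * (1 - e z) := by
      have h2 : x * (b * a) * e z = x * e z := by rw [mul_assoc, hb]
      rw [mul_sub, mul_sub, h2, mul_one, mul_one]
      abel
    rw [h1]
    refine L.add_mem (L.sub_mem ?_ (hL.le (h.one_sub_mem z _))) (hL.le (h.one_sub_mem z _))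
    rw [← mul_assoc]
    exact L.smul_mem _ haL

/-- `J` kills the simple modules -/
theorem Vr.kill (h : Vr e J) {T : Type*} [AddCommGroup T] [Module Λ T] (hT : IsSimpleModule Λ T) {a : Λ} (ha : a ∈ J) (t : T) :
    a • t = 0 := by
  by_contra hc
  -- the submodule `J T` is everything
  let U : Submodule Λ T := Submodule.span Λ {x | ∃ b ∈ J, ∃ s : T, x = b • s}
  have hU : U = ⊤ := (eq_bot_or_eq_top U).resolve_left fun h0 => hc (by
    have h1 : a • t ∈ U := Submodule.subset_span ⟨a, ha, t, rfl⟩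
    rw [h0] at h1
    exact h1)
  have hgen : ∀ s : T, ∃ n : ℕ, ∃ b : Fin n → Λ, ∃ u : Fin n → T, (∀ i, b i ∈ J) ∧ s = ∑ i, b i • u i := by
    intro s
    have hs : s ∈ U := by rw [hU]; trivial
    induction hs using Submodule.span_induction with
    | mem x hx =>
      obtain ⟨b, hb, s, rfl⟩ := hx
      exact ⟨1, fun _ => b, fun _ => s, fun _ => hb, by simp⟩
    | zero => exact ⟨0, fun _ => 0, fun _ => 0, fun i => i.elim0, by simp⟩
    | add x y _ _ hx hy =>
      obtain ⟨n, b, u, hb, rfl⟩ := hx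
      obtain ⟨n', b', u', hb', rfl⟩ := hy
      refine ⟨n + n', Fin.append b b', Fin.append u u', ?_, ?_⟩
      · intro i
        refine Fin.addCases (fun i => ?_) (fun i => ?_) i
        · rw [Fin.append_left]; exact hb i
        · rw [Fin.append_right]; exact hb' i
      · rw [Fin.sum_univ_add]
        simp
    | smul c x _ hx =>
      obtain ⟨n, b, u, hb, rfl⟩ := hx
      refine ⟨n, fun i => c * b i, u, fun i => J.mul_mem_left c (hb i), ?_⟩
      rw [Finset.smul_sum]
      exact Finset.sum_congr rfl fun i _ => (mul_smul _ _ _).symm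
  obtain ⟨m, hm⟩ := h.nil
  have key : ∀ k : ℕ, k ≤ m → ∀ l : List Λ, l.length = m - k → (∀ a ∈ l, a ∈ J) → ∀ s : T, l.prod • s = 0 := by
    intro k
    induction k with
    | zero =>
      intro _ l hl hf s
      rw [hm l (by omega) hf, zero_smul]
    | succ k ih =>
      intro hk l hl hf s
      obtain ⟨n, b, u, hb, rfl⟩ := hgen s
      rw [Finset.smul_sum]
      refine Finset.sum_eq_zero fun i _ => ?_
      have h3 := ih (by omega) (l ++ [b i]) (by rw [List.length_append, List.length_singleton]; omega) (fun a ha => by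
        rcases List.mem_append.1 ha with h4 | h4
        · exact hf a h4
        · rw [List.mem_singleton.1 h4]; exact hb i) (u i)
      rw [List.prod_append, List.prod_singleton, mul_smul] at h3
      exact h3
  have h6 := key m le_rfl [] (by simp) (by simp) t
  rw [List.prod_nil, one_smul] at h6
  rw [h6, smul_zero] at hc
  exact hc rfl

/-- a simple module with `e z T ≠ 0` is the simple module of the vertex `z` -/
theorem Vr.simple_iso (h : Vr e J) {T : Type*} [AddCommGroup T] [Module Λ T] (hT : IsSimpleModule Λ T) {z : V} {t : T}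
    (ht : e z • t ≠ 0) : Nonempty (T ≃ₗ[Λ] (Λ ⧸ Lz e J z)) := by
  have hU : LinearMap.range (LinearMap.toSpanSingleton Λ T (e z • t)) = ⊤ := by
    refine (eq_bot_or_eq_top _).resolve_left fun h0 => ht ?_
    have h1 : e z • t ∈ LinearMap.range (LinearMap.toSpanSingleton Λ T (e z • t)) := ⟨1, by simp⟩
    rw [h0] at h1
    exact h1
  have hK : LinearMap.ker (LinearMap.toSpanSingleton Λ T (e z • t)) = Lz e J z := by
    ext a
    rw [LinearMap.mem_ker, LinearMap.toSpanSingleton_apply, smul_smul]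
    constructor
    · intro ha
      by_contra hn
      obtain ⟨b, hb⟩ := h.out hn
      apply ht
      have h1 : e z • t = b • ((a * e z) • t) := by rw [smul_smul, ← mul_assoc, hb]
      rw [h1, ha, smul_zero]
    · intro ha
      exact h.kill hT ha t
  exact ⟨((Submodule.quotEquivOfEq _ _ hK.symm).trans
    ((LinearMap.toSpanSingleton Λ T (e z • t)).quotKerEquivOfSurjective (LinearMap.range_eq_top.1 hU))).symm⟩

/-- the other idempotents kill the simple module of a vertex -/
theorem Vr.Sm_ne (h : Vr e J) {y z : V} (hyz : y ≠ z) (s : Sm e J z) : e y • s = 0 := by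
  obtain ⟨a, rfl⟩ := Submodule.Quotient.mk_surjective _ s
  show e y • (Submodule.Quotient.mk a : Λ ⧸ Lz e J z) = 0
  rw [← Submodule.Quotient.mk_smul, Submodule.Quotient.mk_eq_zero]
  show e y * a * e z ∈ J
  exact h.off y z a hyz

theorem Vr.Sm_self (h : Vr e J) (z : V) : ∃ s : Sm e J z, e z • s ≠ 0 := by
  have h1 := h.simple z
  have : Nontrivial (Sm e J z) := IsSimpleModule.nontrivial Λ _
  obtain ⟨s, hs⟩ := exists_ne (0 : Sm e J z)
  obtain ⟨w, hw⟩ := h.exists_vertex hs
  by_cases hwz : w = z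
  · subst hwz
    exact ⟨s, hw⟩
  · exact absurd (h.Sm_ne hwz s) hw

/-- the submodule generated by the `e a M`, `a ∈ A` -/
def Gen (e : V → Λ) (A : Set V) (M : Type*) [AddCommGroup M] [Module Λ M] : Submodule Λ M :=
  Submodule.span Λ {x | ∃ a ∈ A, ∃ m : M, x = e a • m}

omit [Fintype V] in
theorem Gen_mem {A : Set V} {M : Type*} [AddCommGroup M] [Module Λ M] {a : V} (ha : a ∈ A) (m : M) : e a • m ∈ Gen e A M :=
  Submodule.subset_span ⟨a, ha, m, rfl⟩

/-- maps to simple modules see only the top -/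
theorem Vr.hom_vertex (h : Vr e J) {A : Set V} {M : Type*} [AddCommGroup M] [Module Λ M] (hM : Gen e A M = ⊤) {y : V}
    (f : M →ₗ[Λ] Sm e J y) (hf : f ≠ 0) : y ∈ A := by
  by_contra hy
  apply hf
  ext m
  have hm : m ∈ Gen e A M := by rw [hM]; trivial
  show f m = 0
  have key : Gen e A M ≤ LinearMap.ker f := by
    refine Submodule.span_le.2 ?_
    rintro x ⟨a, ha, m, rfl⟩
    show f (e a • m) = 0
    rw [map_smul]
    have hne : a ≠ y := by
      rintro rfl
      exact hy ha
    exact h.Sm_ne hne _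
  exact key hm

/-- generation by the top -/
theorem Vr.gen_of_hom (h : Vr e J) {A : Set V} {M : Type u} [AddCommGroup M] [Module Λ M] [Module.Finite Λ M]
    (hA : ∀ y, y ∉ A → ∀ f : M →ₗ[Λ] Sm e J y, f = 0) : Gen e A M = ⊤ := by
  by_contra hne
  obtain ⟨L, hL, hGL⟩ := (eq_top_or_exists_le_coatom (Gen e A M)).resolve_left hne
  have hT : IsSimpleModule Λ (M ⧸ L) := isSimpleModule_iff_isCoatom.2 hL
  have : Nontrivial (M ⧸ L) := IsSimpleModule.nontrivial Λ _
  obtain ⟨t, ht⟩ := exists_ne (0 : M ⧸ L)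
  obtain ⟨z, hz⟩ := h.exists_vertex ht
  obtain ⟨E⟩ := h.simple_iso hT hz
  have hzA : z ∉ A := by
    intro hzA
    apply hz
    obtain ⟨m, rfl⟩ := Submodule.Quotient.mk_surjective _ t
    rw [← Submodule.Quotient.mk_smul, Submodule.Quotient.mk_eq_zero]
    exact hGL (Gen_mem hzA m)
  have h1 := hA z hzA (E.toLinearMap ∘ₗ L.mkQ)
  apply ht
  obtain ⟨m, rfl⟩ := Submodule.Quotient.mk_surjective _ t
  have h2 := congrArg (fun F : M →ₗ[Λ] Sm e J z => F m) h1
  have h3 : E (Submodule.Quotient.mk m) = 0 := h2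
  exact (map_eq_zero_iff E E.injective).1 h3

omit [Fintype V] in
/-- the support of a module generated by its top -/
theorem gen_supp {A : Set V} {M : Type*} [AddCommGroup M] [Module Λ M] {z : V} (hz : ∀ a ∈ A, ∀ c : Λ, e z * c * e a = 0)
    {m : M} (hm : m ∈ Gen e A M) : e z • m = 0 := by
  have key : ∀ m ∈ Gen e A M, ∀ c : Λ, (e z * c) • m = 0 := by
    intro m hm
    induction hm using Submodule.span_induction with
    | mem x hx =>
      obtain ⟨a, ha, m, rfl⟩ := hx
      intro c
      rw [smul_smul, hz a ha c, zero_smul]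
    | zero => intro c; rw [smul_zero]
    | add x y _ _ hx hy => intro c; rw [smul_add, hx, hy, add_zero]
    | smul b x _ hx => intro c; rw [smul_smul, mul_assoc, hx]
  have h1 := key m hm 1
  rw [mul_one] at h1
  exact h1

/-- Ext groups of a zero module -/
theorem ext_sub {M S : ModuleCat.{u} Λ} [Subsingleton M] {n : ℕ} : ¬ Nontrivial (Ext M S n) := by
  intro h
  obtain ⟨x, hx⟩ := exists_ne (0 : Ext M S n)
  apply hx
  have h1 : (𝟙 M : M ⟶ M) = 0 := by
    ext m
    exact Subsingleton.elim _ _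
  have h2 : (Ext.mk₀ (𝟙 M)).comp x (zero_add n) = x := Ext.mk₀_id_comp x
  rw [← h2, h1, Ext.mk₀_zero, Ext.zero_comp]

/-- a module of finite length with infinitely many Ext groups has a composition factor with this property -/
theorem Vr.filt (h : Vr e J) {M : Type u} [AddCommGroup M] [Module Λ M] (hM : IsFiniteLength Λ M) {S : ModuleCat.{u} Λ}
    (hI : Inf (ModuleCat.of Λ M) S) : ∃ z, (∃ m : M, e z • m ≠ 0) ∧ Inf (Sm e J z) S := by
  induction hM with
  | of_subsingleton =>
    obtain ⟨n, -, hn⟩ := hI 0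
    exact absurd hn ext_sub
  | @of_simple_quotient M _ _ N _ _ ih =>
    rcases inf_mid (i := N.subtype) (p := N.mkQ) (Submodule.injective_subtype _) (Submodule.mkQ_surjective _)
      (by rw [Submodule.range_subtype, Submodule.ker_mkQ]) hI with h1 | h1
    · obtain ⟨z, ⟨m, hm⟩, h2⟩ := ih h1
      refine ⟨z, ⟨m, fun h3 => hm (Subtype.ext ?_)⟩, h2⟩
      exact h3
    · have hT : IsSimpleModule Λ (M ⧸ N) := inferInstance
      have : Nontrivial (M ⧸ N) := IsSimpleModule.nontrivial Λ _
      obtain ⟨t, ht⟩ := exists_ne (0 : M ⧸ N)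
      obtain ⟨z, hz⟩ := h.exists_vertex ht
      obtain ⟨E⟩ := h.simple_iso hT hz
      refine ⟨z, ?_, (inf_iso (M := ModuleCat.of Λ (M ⧸ N)) (N := Sm e J z) E).1 h1⟩
      obtain ⟨m, rfl⟩ := Submodule.Quotient.mk_surjective _ t
      refine ⟨m, fun h3 => hz ?_⟩
      rw [← Submodule.Quotient.mk_smul, h3]
      rfl

end Pool.Agent.SVR
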